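import Mathlib

/-!
Abstract variational lemmas for a bounded operator `τ : H →L[ℂ] K` between Hilbert spaces: the
largest and the second largest number `lam` with `⟪τ v, τ w⟫ = lam * ⟪v, w⟫`, obtained by
maximising `‖τ v‖² / ‖v‖²`, under a bound `‖τ v‖² ≤ c ‖v‖² + C ‖A v‖²` with `A` of finite rank.
-/

open scoped InnerProductSpace ComplexConjugate
open Filter Topology

namespace Pool.Agent.Helper98.LC

section basic

variable {H K E : Type*} [NormedAddCommGroup H] [InnerProductSpace ℂ H]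
  [NormedAddCommGroup K] [InnerProductSpace ℂ K] [NormedAddCommGroup E] [NormedSpace ℂ E]

lemma norm_add_smul_sq (x y : H) (z : ℂ) :
    ‖x + z • y‖ ^ 2 = ‖x‖ ^ 2 + 2 * (z * ⟪x, y⟫_ℂ).re + ‖z‖ ^ 2 * ‖y‖ ^ 2 := by
  rw [@norm_add_sq ℂ, inner_smul_right, norm_smul]
  simp only [RCLike.re_to_complex]
  ring

/-- If `lam ‖v‖² - ‖τ v‖²` is nonnegative and vanishes at `v`, then `v` is an eigenvector. -/
lemma eigen_of_eq (τ : H →L[ℂ] K) (lam : ℝ) (hup : ∀ v, ‖τ v‖ ^ 2 ≤ lam * ‖v‖ ^ 2)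
    {v : H} (hv : ‖τ v‖ ^ 2 = lam * ‖v‖ ^ 2) (w : H) :
    ⟪τ v, τ w⟫_ℂ = lam * ⟪v, w⟫_ℂ := by
  set B : ℂ := lam * ⟪v, w⟫_ℂ - ⟪τ v, τ w⟫_ℂ with hB
  have key : ∀ z : ℂ, 0 ≤ 2 * (z * B).re + ‖z‖ ^ 2 * (lam * ‖w‖ ^ 2 - ‖τ w‖ ^ 2) := by
    intro z
    have h1 := hup (v + z • w)
    rw [map_add, map_smul, norm_add_smul_sq, norm_add_smul_sq] at h1
    have h2 : (z * B).re = lam * (z * ⟪v, w⟫_ℂ).re - (z * ⟪τ v, τ w⟫_ℂ).re := by
      rw [hB]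
      have : z * (lam * ⟪v, w⟫_ℂ - ⟪τ v, τ w⟫_ℂ)
          = (lam : ℂ) * (z * ⟪v, w⟫_ℂ) - z * ⟪τ v, τ w⟫_ℂ := by ring
      rw [this, Complex.sub_re, Complex.re_ofReal_mul]
    rw [h2]
    nlinarith [h1, hv]
  have hbw : 0 ≤ lam * ‖w‖ ^ 2 - ‖τ w‖ ^ 2 := by linarith [hup w]
  set b := lam * ‖w‖ ^ 2 - ‖τ w‖ ^ 2 with hb
  have hB0 : ‖B‖ ^ 2 = 0 := by
    by_contra hne
    have hpos : 0 < ‖B‖ ^ 2 := lt_of_le_of_ne (by positivity) (Ne.symm hne)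
    have e1 : (0 : ℝ) < 1 / (1 + b) := by positivity
    have h3 := key (-((1 / (1 + b) : ℝ) : ℂ) * conj B)
    have h4 : (-((1 / (1 + b) : ℝ) : ℂ) * conj B * B).re = -(1 / (1 + b)) * ‖B‖ ^ 2 := by
      rw [mul_assoc, ← Complex.normSq_eq_conj_mul_self, Complex.normSq_eq_norm_sq]
      rw [← Complex.ofReal_neg, ← Complex.ofReal_mul, Complex.ofReal_re]
    have h5 : ‖-((1 / (1 + b) : ℝ) : ℂ) * conj B‖ ^ 2 = (1 / (1 + b)) ^ 2 * ‖B‖ ^ 2 := by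
      rw [norm_mul, norm_neg, Complex.norm_real, mul_pow, Real.norm_of_nonneg e1.le]
      simp
    rw [h4, h5] at h3
    have h6 : (1 / (1 + b)) ^ 2 * b ≤ 1 / (1 + b) := by
      rw [sq]
      have : 1 / (1 + b) * (1 / (1 + b)) * b = (1 / (1 + b)) * (b / (1 + b)) := by ring
      rw [this]
      have h7 : b / (1 + b) ≤ 1 := by
        rw [div_le_one (by positivity)]; linarith
      nlinarith
    nlinarith
  have : B = 0 := by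
    have := pow_eq_zero_iff (two_ne_zero) |>.mp hB0
    exact norm_eq_zero.mp this
  rw [hB, sub_eq_zero] at this
  exact this.symm

lemma norm_sq_of_inner {τ : H →L[ℂ] K} {v : H} {r : ℝ} (h : ⟪τ v, τ v⟫_ℂ = r * ⟪v, v⟫_ℂ) :
    ‖τ v‖ ^ 2 = r * ‖v‖ ^ 2 := by
  have h1 := congrArg Complex.re h
  rw [Complex.re_ofReal_mul] at h1
  have e1 := inner_self_eq_norm_sq (𝕜 := ℂ) (τ v)
  have e2 := inner_self_eq_norm_sq (𝕜 := ℂ) v
  rw [RCLike.re_to_complex] at e1 e2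
  rw [← e1, ← e2, h1]

/-- Existence of a maximiser. -/
lemma exists_max [CompleteSpace H] [FiniteDimensional ℂ E] (τ : H →L[ℂ] K) (A : H →L[ℂ] E)
    (lam c C : ℝ) (hc : c < lam)
    (hcod : ∀ v, ‖τ v‖ ^ 2 ≤ c * ‖v‖ ^ 2 + C * ‖A v‖ ^ 2)
    (hup : ∀ v, ‖τ v‖ ^ 2 ≤ lam * ‖v‖ ^ 2)
    (hsup : ∀ ε > 0, ∃ v, ‖v‖ = 1 ∧ lam - ε < ‖τ v‖ ^ 2) :
    ∃ v, ‖v‖ = 1 ∧ ∀ w, ⟪τ v, τ w⟫_ℂ = lam * ⟪v, w⟫_ℂ := by
  have hprop : ProperSpace E := FiniteDimensional.proper ℂ E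
  choose v hv1 hv2 using fun n : ℕ => hsup (1 / ((n : ℝ) + 1)) (by positivity)
  have hbdd : Bornology.IsBounded (Metric.closedBall (0 : E) ‖A‖) := Metric.isBounded_closedBall
  obtain ⟨a, -, φ, hφ, hlim⟩ := tendsto_subseq_of_bounded hbdd (x := fun n => A (v n)) (by
    intro n
    rw [mem_closedBall_zero_iff]
    calc ‖A (v n)‖ ≤ ‖A‖ * ‖v n‖ := A.le_opNorm _
      _ = ‖A‖ := by rw [hv1, mul_one])
  -- the subsequence is Cauchy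
  have hb : ∀ n m, (lam - c) * ‖v n - v m‖ ^ 2
      ≤ 2 * (1 / ((n : ℝ) + 1)) + 2 * (1 / ((m : ℝ) + 1)) + C * ‖A (v n) - A (v m)‖ ^ 2 := by
    intro n m
    have h1 := hcod (v n - v m)
    have h2 := hup (v n + v m)
    have p1 := parallelogram_law_with_norm ℂ (v n) (v m)
    have p2 := parallelogram_law_with_norm ℂ (τ (v n)) (τ (v m))
    rw [map_sub, map_sub] at h1
    rw [map_add] at h2
    have h3 := hv2 n
    have h4 := hv2 m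
    rw [hv1 n, hv1 m] at p1
    have e1 : lam * ‖v n - v m‖ ^ 2 = lam * 4 - lam * ‖v n + v m‖ ^ 2 := by
      have : ‖v n - v m‖ ^ 2 = 4 - ‖v n + v m‖ ^ 2 := by nlinarith
      rw [this]; ring
    have e2 : ‖τ (v n) - τ (v m)‖ ^ 2
        = 2 * ‖τ (v n)‖ ^ 2 + 2 * ‖τ (v m)‖ ^ 2 - ‖τ (v n) + τ (v m)‖ ^ 2 := by nlinarith
    have e3 : (lam - c) * ‖v n - v m‖ ^ 2 = lam * ‖v n - v m‖ ^ 2 - c * ‖v n - v m‖ ^ 2 := by ring
    linarith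
  have hcauchy : CauchySeq (fun n => v (φ n)) := by
    rw [cauchySeq_iff_tendsto_dist_atTop_0]
    have hlc : 0 < lam - c := by linarith
    have hA2 : Tendsto (fun p : ℕ × ℕ => ‖A (v (φ p.1)) - A (v (φ p.2))‖) atTop (𝓝 0) := by
      have := (cauchySeq_iff_tendsto_dist_atTop_0.mp hlim.cauchySeq)
      simpa [dist_eq_norm] using this
    have hone : Tendsto (fun n : ℕ => 1 / (((φ n : ℕ) : ℝ) + 1)) atTop (𝓝 0) :=
      tendsto_one_div_add_atTop_nhds_zero_nat.comp hφ.tendsto_atTop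
    have hR : Tendsto (fun p : ℕ × ℕ => (2 * (1 / (((φ p.1 : ℕ) : ℝ) + 1))
        + 2 * (1 / (((φ p.2 : ℕ) : ℝ) + 1))
        + C * ‖A (v (φ p.1)) - A (v (φ p.2))‖ ^ 2) / (lam - c)) atTop (𝓝 0) := by
      have h1 : Tendsto (fun p : ℕ × ℕ => 1 / (((φ p.1 : ℕ) : ℝ) + 1)) atTop (𝓝 0) := by
        rw [← prod_atTop_atTop_eq]
        exact hone.comp tendsto_fst
      have h2 : Tendsto (fun p : ℕ × ℕ => 1 / (((φ p.2 : ℕ) : ℝ) + 1)) atTop (𝓝 0) := by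
        rw [← prod_atTop_atTop_eq]
        exact hone.comp tendsto_snd
      have := (((h1.const_mul 2).add (h2.const_mul 2)).add ((hA2.pow 2).const_mul C)).div_const
        (lam - c)
      simpa using this
    have hsq : Tendsto (fun p : ℕ × ℕ => ‖v (φ p.1) - v (φ p.2)‖ ^ 2) atTop (𝓝 0) := by
      refine squeeze_zero (fun _ => by positivity) (fun p => ?_) hR
      rw [le_div_iff₀ hlc]
      have := hb (φ p.1) (φ p.2)
      linarith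
    have := hsq.sqrt
    simpa [dist_eq_norm, Real.sqrt_sq] using this
  obtain ⟨u, hu⟩ := cauchySeq_tendsto_of_complete hcauchy
  have hu1 : ‖u‖ = 1 := by
    have h1 := hu.norm
    have h2 : Tendsto (fun n => ‖v (φ n)‖) atTop (𝓝 1) := by simp [hv1]
    exact tendsto_nhds_unique h1 h2
  have hu2 : ‖τ u‖ ^ 2 = lam * ‖u‖ ^ 2 := by
    refine le_antisymm (hup u) ?_
    rw [hu1]
    have h1 : Tendsto (fun n => ‖τ (v (φ n))‖ ^ 2) atTop (𝓝 (‖τ u‖ ^ 2)) :=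
      ((τ.continuous.tendsto u).comp hu).norm.pow 2
    have h2 : Tendsto (fun n : ℕ => lam - 1 / (((φ n : ℕ) : ℝ) + 1)) atTop (𝓝 (lam - 0)) :=
      tendsto_const_nhds.sub (tendsto_one_div_add_atTop_nhds_zero_nat.comp hφ.tendsto_atTop)
    have h3 := le_of_tendsto_of_tendsto' h2 h1 (fun n => (hv2 (φ n)).le)
    linarith
  exact ⟨u, hu1, fun w => eigen_of_eq τ lam hup hu2 w⟩

/-- The numbers `r` with `‖τ v‖² ≤ r ‖v‖²` for all `v`. -/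
def topSet (τ : H →L[ℂ] K) : Set ℝ := {r | 0 ≤ r ∧ ∀ v, ‖τ v‖ ^ 2 ≤ r * ‖v‖ ^ 2}

/-- The numbers `r` with `‖τ v‖² ≤ r ‖v‖²` for all `v` in some closed hyperplane. -/
def secSet (τ : H →L[ℂ] K) : Set ℝ :=
  {r | 0 ≤ r ∧ ∃ l : H →L[ℂ] ℂ, ∀ v, l v = 0 → ‖τ v‖ ^ 2 ≤ r * ‖v‖ ^ 2}

/-- The largest value of `‖τ v‖² / ‖v‖²`. -/
noncomputable def top (τ : H →L[ℂ] K) : ℝ := sInf (topSet τ)

/-- The second min-max value of `‖τ v‖² / ‖v‖²`. -/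
noncomputable def sec (τ : H →L[ℂ] K) : ℝ := sInf (secSet τ)

lemma opNorm_sq_mem (τ : H →L[ℂ] K) : ‖τ‖ ^ 2 ∈ topSet τ := by
  refine ⟨by positivity, fun v => ?_⟩
  have := τ.le_opNorm v
  calc ‖τ v‖ ^ 2 ≤ (‖τ‖ * ‖v‖) ^ 2 := pow_le_pow_left₀ (norm_nonneg _) this 2
    _ = _ := by ring

lemma topSet_subset_secSet (τ : H →L[ℂ] K) : topSet τ ⊆ secSet τ :=
  fun _ hr => ⟨hr.1, 0, fun v _ => hr.2 v⟩

lemma bddBelow_topSet (τ : H →L[ℂ] K) : BddBelow (topSet τ) := ⟨0, fun _ h => h.1⟩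

lemma bddBelow_secSet (τ : H →L[ℂ] K) : BddBelow (secSet τ) := ⟨0, fun _ h => h.1⟩

lemma topSet_nonempty (τ : H →L[ℂ] K) : (topSet τ).Nonempty := ⟨_, opNorm_sq_mem τ⟩

lemma secSet_nonempty (τ : H →L[ℂ] K) : (secSet τ).Nonempty :=
  (topSet_nonempty τ).mono (topSet_subset_secSet τ)

lemma top_mem (τ : H →L[ℂ] K) : top τ ∈ topSet τ := by
  refine ⟨le_csInf (topSet_nonempty τ) fun _ h => h.1, fun v => ?_⟩
  rcases eq_or_ne v 0 with rfl | hv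
  · simp
  · have hpos : 0 < ‖v‖ ^ 2 := by positivity
    rw [← div_le_iff₀ hpos]
    refine le_csInf (topSet_nonempty τ) fun r hr => ?_
    rw [div_le_iff₀ hpos]
    exact hr.2 v

lemma top_le {τ : H →L[ℂ] K} {r : ℝ} (hr : 0 ≤ r) (h : ∀ v, ‖τ v‖ ^ 2 ≤ r * ‖v‖ ^ 2) :
    top τ ≤ r := csInf_le (bddBelow_topSet τ) ⟨hr, h⟩

lemma sec_le {τ : H →L[ℂ] K} {r : ℝ} (hr : 0 ≤ r) (l : H →L[ℂ] ℂ)
    (h : ∀ v, l v = 0 → ‖τ v‖ ^ 2 ≤ r * ‖v‖ ^ 2) :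
    sec τ ≤ r := csInf_le (bddBelow_secSet τ) ⟨hr, l, h⟩

lemma sec_le_top (τ : H →L[ℂ] K) : sec τ ≤ top τ :=
  csInf_le (bddBelow_secSet τ) (topSet_subset_secSet τ (top_mem τ))

lemma sec_nonneg (τ : H →L[ℂ] K) : 0 ≤ sec τ := le_csInf (secSet_nonempty τ) fun _ h => h.1

lemma le_top {τ : H →L[ℂ] K} {r : ℝ} {v : H} (hv : v ≠ 0) (h : r * ‖v‖ ^ 2 ≤ ‖τ v‖ ^ 2) :
    r ≤ top τ := by
  have h1 := (top_mem τ).2 v
  have hpos : 0 < ‖v‖ ^ 2 := by positivity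
  exact le_of_mul_le_mul_right (h.trans h1) hpos

/-- Two orthogonal vectors with orthogonal images give a lower bound for `sec`. -/
lemma le_sec {τ : H →L[ℂ] K} {r : ℝ} {e₁ e₂ : H} (h₁ : e₁ ≠ 0) (h₂ : e₂ ≠ 0)
    (ho : ⟪e₁, e₂⟫_ℂ = 0) (hτ : ⟪τ e₁, τ e₂⟫_ℂ = 0)
    (hr₁ : r * ‖e₁‖ ^ 2 ≤ ‖τ e₁‖ ^ 2) (hr₂ : r * ‖e₂‖ ^ 2 ≤ ‖τ e₂‖ ^ 2) :
    r ≤ sec τ := by
  refine le_csInf (secSet_nonempty τ) ?_
  rintro s ⟨hs0, l, hl⟩
  have hp1 : 0 < ‖e₁‖ ^ 2 := by positivity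
  have hp2 : 0 < ‖e₂‖ ^ 2 := by positivity
  by_cases hz : l e₁ = 0
  · have := hl e₁ hz
    exact le_of_mul_le_mul_right (hr₁.trans this) hp1
  · -- the vector l e₂ • e₁ - l e₁ • e₂
    set v : H := (l e₂) • e₁ + (-(l e₁)) • e₂ with hv
    have hlv : l v = 0 := by
      rw [hv, map_add, map_smul, map_smul]
      simp only [smul_eq_mul]; ring
    have hn : ‖v‖ ^ 2 = ‖l e₂‖ ^ 2 * ‖e₁‖ ^ 2 + ‖l e₁‖ ^ 2 * ‖e₂‖ ^ 2 := by
      have : ⟪(l e₂) • e₁, (-(l e₁)) • e₂⟫_ℂ = 0 := by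
        rw [inner_smul_left, inner_smul_right, ho]; simp
      rw [hv, sq, norm_add_sq_eq_norm_sq_add_norm_sq_of_inner_eq_zero _ _ this]
      rw [norm_smul, norm_smul, norm_neg]; ring
    have hnτ : ‖τ v‖ ^ 2 = ‖l e₂‖ ^ 2 * ‖τ e₁‖ ^ 2 + ‖l e₁‖ ^ 2 * ‖τ e₂‖ ^ 2 := by
      have : ⟪(l e₂) • τ e₁, (-(l e₁)) • τ e₂⟫_ℂ = 0 := by
        rw [inner_smul_left, inner_smul_right, hτ]; simp
      rw [hv, map_add, map_smul, map_smul, sq,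
        norm_add_sq_eq_norm_sq_add_norm_sq_of_inner_eq_zero _ _ this]
      rw [norm_smul, norm_smul, norm_neg]; ring
    have h1 := hl v hlv
    rw [hn, hnτ] at h1
    have hq : 0 < ‖l e₁‖ ^ 2 := by positivity
    have hpos : 0 < ‖l e₂‖ ^ 2 * ‖e₁‖ ^ 2 + ‖l e₁‖ ^ 2 * ‖e₂‖ ^ 2 := by positivity
    refine le_of_mul_le_mul_right ?_ hpos
    refine le_trans ?_ h1
    have a1 := mul_le_mul_of_nonneg_left hr₁ (by positivity : 0 ≤ ‖l e₂‖ ^ 2)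
    have a2 := mul_le_mul_of_nonneg_left hr₂ hq.le
    nlinarith

lemma exists_top [CompleteSpace H] [FiniteDimensional ℂ E] (τ : H →L[ℂ] K) (A : H →L[ℂ] E)
    (c C : ℝ) (hc0 : 0 ≤ c) (hc : c < top τ)
    (hcod : ∀ v, ‖τ v‖ ^ 2 ≤ c * ‖v‖ ^ 2 + C * ‖A v‖ ^ 2) :
    ∃ v, ‖v‖ = 1 ∧ ∀ w, ⟪τ v, τ w⟫_ℂ = top τ * ⟪v, w⟫_ℂ := by
  refine exists_max τ A (top τ) c C hc hcod (top_mem τ).2 ?_
  intro ε hε
  by_contra hcon
  push Not at hcon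
  have hle : top τ ≤ max (top τ - ε) 0 := by
    refine top_le (le_max_right _ _) fun v => ?_
    rcases eq_or_ne v 0 with rfl | hv
    · simp
    · have hpos : 0 < ‖v‖ := norm_pos_iff.mpr hv
      have h1 := hcon (((‖v‖⁻¹ : ℝ) : ℂ) • v) (by
        rw [norm_smul, Complex.norm_real, Real.norm_of_nonneg (by positivity)]
        field_simp)
      rw [map_smul, norm_smul, Complex.norm_real, Real.norm_of_nonneg (by positivity), mul_pow]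
        at h1
      have h2 : ‖τ v‖ ^ 2 ≤ (top τ - ε) * ‖v‖ ^ 2 := by
        rw [inv_pow, inv_mul_le_iff₀ (by positivity)] at h1
        linarith
      refine h2.trans ?_
      gcongr
      exact le_max_left _ _
  have htop : 0 < top τ := lt_of_le_of_lt hc0 hc
  have : max (top τ - ε) 0 < top τ := max_lt (by linarith) htop
  linarith

lemma exists_sec [CompleteSpace H] [FiniteDimensional ℂ E] (τ : H →L[ℂ] K) (A : H →L[ℂ] E)
    (c C : ℝ) (hc0 : 0 ≤ c) (hc : c < sec τ)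
    (hcod : ∀ v, ‖τ v‖ ^ 2 ≤ c * ‖v‖ ^ 2 + C * ‖A v‖ ^ 2) :
    ∃ v, ‖v‖ = 1 ∧ ∀ w, ⟪τ v, τ w⟫_ℂ = sec τ * ⟪v, w⟫_ℂ := by
  obtain ⟨v₁, hv₁, he₁⟩ := exists_top τ A c C hc0 (hc.trans_le (sec_le_top τ)) hcod
  set H' : Submodule ℂ H := (ℂ ∙ v₁)ᗮ with hH'
  set τ' : H' →L[ℂ] K := τ.comp H'.subtypeL with hτ'
  set A' : H' →L[ℂ] E := A.comp H'.subtypeL with hA'
  have hsec : sec τ ≤ top τ' := by
    refine sec_le (top_mem τ').1 (innerSL ℂ v₁) fun v hv => ?_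
    have hmem : v ∈ H' := by
      rw [hH', Submodule.mem_orthogonal_singleton_iff_inner_right]
      simpa using hv
    exact (top_mem τ').2 ⟨v, hmem⟩
  obtain ⟨v₂, hv₂, he₂⟩ := exists_top τ' A' c C hc0 (hc.trans_le hsec)
    (fun v => hcod (v : H))
  have horth : ⟪v₁, (v₂ : H)⟫_ℂ = 0 :=
    (Submodule.mem_orthogonal_singleton_iff_inner_right).mp v₂.2
  have horth' : ⟪(v₂ : H), v₁⟫_ℂ = 0 := inner_eq_zero_symm.mp horth
  have hτ12 : ⟪τ v₁, τ v₂⟫_ℂ = 0 := by rw [he₁, horth, mul_zero]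
  have hτ21 : ⟪τ v₂, τ v₁⟫_ℂ = 0 := inner_eq_zero_symm.mp hτ12
  have heig : ∀ w, ⟪τ (v₂ : H), τ w⟫_ℂ = top τ' * ⟪(v₂ : H), w⟫_ℂ := by
    intro w
    set a : ℂ := ⟪v₁, w⟫_ℂ with ha
    have hw' : w - a • v₁ ∈ H' := by
      rw [hH', Submodule.mem_orthogonal_singleton_iff_inner_right, inner_sub_right,
        inner_smul_right, inner_self_eq_norm_sq_to_K, hv₁, ha]
      simp
    have h1 := he₂ ⟨w - a • v₁, hw'⟩
    have h2 : ⟪τ (v₂ : H), τ (w - a • v₁)⟫_ℂ = top τ' * ⟪(v₂ : H), w - a • v₁⟫_ℂ := h1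
    rw [map_sub, map_smul, inner_sub_right, inner_sub_right, inner_smul_right,
      inner_smul_right, hτ21, horth'] at h2
    simpa using h2
  have htop_le : top τ' ≤ sec τ := by
    have hne1 : v₁ ≠ 0 := by
      intro h; rw [h, norm_zero] at hv₁; exact zero_ne_one hv₁
    have hv₂' : ‖(v₂ : H)‖ = 1 := hv₂
    have hne2 : (v₂ : H) ≠ 0 := by
      intro h; rw [h, norm_zero] at hv₂'; exact zero_ne_one hv₂'
    have hle : top τ' ≤ top τ :=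
      top_le (top_mem τ).1 fun v => (top_mem τ).2 (v : H)
    refine le_sec hne1 hne2 horth hτ12 ?_ ?_
    · have h1 := he₁ v₁
      have h2 : ‖τ v₁‖ ^ 2 = top τ * ‖v₁‖ ^ 2 := norm_sq_of_inner h1
      rw [h2]
      gcongr
    · have h1 := heig v₂
      have h2 : ‖τ (v₂ : H)‖ ^ 2 = top τ' * ‖(v₂ : H)‖ ^ 2 := norm_sq_of_inner h1
      rw [h2]
  have heq : top τ' = sec τ := le_antisymm htop_le hsec
  refine ⟨v₂, hv₂, fun w => ?_⟩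
  rw [heig w, heq]

end basic

section compare

variable {H K K' : Type*} [NormedAddCommGroup H] [InnerProductSpace ℂ H]
  [NormedAddCommGroup K] [InnerProductSpace ℂ K]
  [NormedAddCommGroup K'] [InnerProductSpace ℂ K']

lemma top_compare {τ : H →L[ℂ] K} {τ' : H →L[ℂ] K'} {ε : ℝ} (hε : 0 ≤ ε)
    (h : ∀ v, ‖τ' v‖ ^ 2 ≤ ‖τ v‖ ^ 2 + ε * ‖v‖ ^ 2) : top τ' ≤ top τ + ε := by
  refine top_le (add_nonneg (top_mem τ).1 hε) fun v => ?_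
  have := h v
  have := (top_mem τ).2 v
  linarith

lemma sec_compare {τ : H →L[ℂ] K} {τ' : H →L[ℂ] K'} {ε : ℝ} (hε : 0 ≤ ε)
    (h : ∀ v, ‖τ' v‖ ^ 2 ≤ ‖τ v‖ ^ 2 + ε * ‖v‖ ^ 2) : sec τ' ≤ sec τ + ε := by
  rw [← sub_le_iff_le_add]
  refine le_csInf (secSet_nonempty τ) ?_
  rintro r ⟨hr0, l, hl⟩
  rw [sub_le_iff_le_add]
  refine sec_le (add_nonneg hr0 hε) l fun v hv => ?_
  have := h v
  have := hl v hv
  linarith

end compare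

/-- The crossing lemma. -/
lemma exists_crossing {H₁ H₂ K : Type*} [NormedAddCommGroup H₁] [InnerProductSpace ℂ H₁]
    [NormedAddCommGroup H₂] [InnerProductSpace ℂ H₂]
    [NormedAddCommGroup K] [InnerProductSpace ℂ K]
    (σ : ℝ → H₁ →L[ℂ] K) (τ : ℝ → H₂ →L[ℂ] K) (om : ℝ → ℝ) (hom0 : ∀ r, 0 ≤ r → 0 ≤ om r)
    (hom : Tendsto om (𝓝[≥] 0) (𝓝 0))
    (hσ : ∀ s ∈ Set.Icc (0 : ℝ) 1, ∀ t ∈ Set.Icc (0 : ℝ) 1, ∀ v,
      ‖σ t v‖ ^ 2 ≤ ‖σ s v‖ ^ 2 + om |t - s| * ‖v‖ ^ 2)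
    (hτ : ∀ s ∈ Set.Icc (0 : ℝ) 1, ∀ t ∈ Set.Icc (0 : ℝ) 1, ∀ v,
      ‖τ t v‖ ^ 2 ≤ ‖τ s v‖ ^ 2 + om |t - s| * ‖v‖ ^ 2)
    (h0 : top (σ 0) ≤ sec (τ 0)) (h1 : sec (τ 1) ≤ top (σ 1)) :
    ∃ t ∈ Set.Icc (0 : ℝ) 1, top (σ t) = sec (τ t) := by
  have key : ∀ g : ℝ → ℝ, (∀ s ∈ Set.Icc (0 : ℝ) 1, ∀ t ∈ Set.Icc (0 : ℝ) 1,
      g t ≤ g s + om |t - s|) → ContinuousOn g (Set.Icc 0 1) := by
    intro g hg s hs
    rw [ContinuousWithinAt, tendsto_iff_dist_tendsto_zero]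
    have h1 : Tendsto (fun t : ℝ => |t - s|) (𝓝[Set.Icc 0 1] s) (𝓝[≥] 0) := by
      rw [tendsto_nhdsWithin_iff]
      refine ⟨?_, Eventually.of_forall fun t => Set.mem_Ici.mpr (abs_nonneg _)⟩
      have : Tendsto (fun t : ℝ => |t - s|) (𝓝 s) (𝓝 |s - s|) := by
        exact ((continuous_id.sub continuous_const).abs).tendsto s
      rw [sub_self, abs_zero] at this
      exact this.mono_left nhdsWithin_le_nhds
    refine squeeze_zero' (Eventually.of_forall fun _ => dist_nonneg) ?_ (hom.comp h1)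
    filter_upwards [self_mem_nhdsWithin] with t ht
    rw [Real.dist_eq, Function.comp_apply, abs_le]
    constructor
    · have := hg t ht s hs
      rw [abs_sub_comm] at this
      linarith
    · have := hg s hs t ht
      linarith
  have hc1 : ContinuousOn (fun t => top (σ t)) (Set.Icc 0 1) :=
    key _ fun s hs t ht => top_compare (hom0 _ (abs_nonneg _)) (hσ s hs t ht)
  have hc2 : ContinuousOn (fun t => sec (τ t)) (Set.Icc 0 1) :=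
    key _ fun s hs t ht => sec_compare (hom0 _ (abs_nonneg _)) (hτ s hs t ht)
  have hc : ContinuousOn (fun t => top (σ t) - sec (τ t)) (Set.Icc 0 1) := hc1.sub hc2
  have := intermediate_value_Icc (zero_le_one' ℝ) hc
  obtain ⟨t, ht, htt⟩ := this (show (0 : ℝ) ∈ Set.Icc _ _ from
    ⟨by linarith, by linarith⟩)
  exact ⟨t, ht, by simp only at htt; linarith⟩

end Pool.Agent.Helper98.LC
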