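import Pool.Agent.Helper98.LC.Fam

/-! Trace estimates for the whole family of curves. -/

open MeasureTheory Set Filter Topology
open scoped ContDiff InnerProductSpace ComplexConjugate

namespace Pool.Agent.Helper98.LC

namespace Pm

variable (m : Pm) {e : ℂ}

lemma cP_mem (t : ℝ) : 0 ≤ cl t * m.h ∧ cl t * m.h ≤ m.h ∧ cl t * m.h ≤ 1 := by
  have h1 := cl_mem t
  have h2 := m.h_pos
  have h3 := m.h_le_one
  exact ⟨mul_nonneg h1.1 h2.le, by nlinarith [h1.2], mul_le_one₀ h1.2 h2.le h3⟩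

lemma q_le_all (he : ‖e‖ = 1) (t : ℝ) (φ : Par e) :
    q (m.fam t).prof φ ≤ (1 / 2 + 2 * m.k + 2 * m.p) * totE φ := by
  have h0 := (m.fam t).q_le he φ
  rw [fam_D, m.sum_Z] at h0
  have s1 : ∑ i ∈ Finset.range (2 * m.k), (m.fam t).Z φ i ≤ (2 * m.k) * ((1 / 2) * totE φ) := by
    refine (Finset.sum_le_card_nsmul _ _ ((1 / 2) * totE φ) fun i hi => ?_).trans (le_of_eq ?_)
    · exact Z_le_half (isT φ) zero_le_one (m.cellQ t (Finset.mem_range.mp hi))
    · simp
  have s2 : ∑ i ∈ Finset.range (2 * m.p), (m.fam t).Z φ (2 * m.D + i)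
      ≤ (2 * m.p) * ((1 / 2) * totE φ) := by
    refine (Finset.sum_le_card_nsmul _ _ ((1 / 2) * totE φ) fun i hi => ?_).trans (le_of_eq ?_)
    · exact Z_le_half (isT φ) (m.cP_mem t).1 (m.cellP t (Finset.mem_range.mp hi))
    · simp
  nlinarith

/-- Bound with the mean over one square near the side teeth. -/
lemma q_le_mean (he : ‖e‖ = 1) (t : ℝ) (φ : Par e) :
    q (m.fam t).prof φ
      ≤ (1 / 2 + 2 * m.k + 16) * totE φ + 4 * ‖sqMean 2 0 m.h φ‖ ^ 2 := by
  have h0 := (m.fam t).q_le he φ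
  rw [fam_D, m.sum_Z] at h0
  have hD := m.D_pos
  have s1 : ∑ i ∈ Finset.range (2 * m.k), (m.fam t).Z φ i ≤ (2 * m.k) * ((1 / 2) * totE φ) := by
    refine (Finset.sum_le_card_nsmul _ _ ((1 / 2) * totE φ) fun i hi => ?_).trans (le_of_eq ?_)
    · exact Z_le_half (isT φ) zero_le_one (m.cellQ t (Finset.mem_range.mp hi))
    · simp
  have s2 : ∑ i ∈ Finset.range (2 * m.p), (m.fam t).Z φ (2 * m.D + i)
      ≤ (2 * m.p) * (8 * m.h * totE φ + 2 * m.h * ‖sqMean 2 0 m.h φ‖ ^ 2) := by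
    refine (Finset.sum_le_card_nsmul _ _ (8 * m.h * totE φ + 2 * m.h * ‖sqMean 2 0 m.h φ‖ ^ 2)
      fun i hi => ?_).trans (le_of_eq ?_)
    · have hi' := Finset.mem_range.mp hi
      refine Z_le_square (isT φ) (m.cP_mem t).1 m.h_pos (m.cP_mem t).2.1 (m.cellP t hi') ?_ ?_
      · rw [fam_D, le_div_iff₀ hD]
        push_cast
        have : (0 : ℝ) ≤ i := by positivity
        linarith
      · rw [fam_D, div_le_iff₀ hD]
        have h2 : (4 * (m.p * m.p) : ℝ) ≤ m.D := by exact_mod_cast m.h2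
        have h3 : ((i : ℝ) + 1) ≤ 2 * m.p := by exact_mod_cast hi'
        have h4 : (2 * m.p : ℝ) ≤ m.h * m.D := by
          have hp := m.p_pos
          rw [h, div_mul_eq_mul_div, one_mul, le_div_iff₀ (by positivity)]
          nlinarith
        push_cast
        linarith
    · simp; ring
  have e1 : (2 * m.p) * (8 * m.h * totE φ + 2 * m.h * ‖sqMean 2 0 m.h φ‖ ^ 2)
      = 8 * totE φ + 2 * ‖sqMean 2 0 m.h φ‖ ^ 2 := by
    have := m.two_p_h
    linear_combination (8 * totE φ + 2 * ‖sqMean 2 0 m.h φ‖ ^ 2) * this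
  rw [e1] at s2
  nlinarith

/-- Odd functions at the start of the family. -/
lemma q_le_odd (φ : Par (-1)) : q (m.fam 0).prof φ ≤ (3 / 2) * totE φ := by
  have h0 := (m.fam 0).q_le (by simp) φ
  rw [fam_D, m.sum_Z] at h0
  have hD := m.D_pos
  have hzero : ∀ y, (φ : ℝ × ℝ → ℂ) (0, y) = 0 := by
    intro y
    have := par φ 0 y
    rw [neg_zero] at this
    have h2 : (2 : ℂ) * (φ : ℝ × ℝ → ℂ) (0, y) = 0 := by linear_combination this
    simpa using h2
  have s1 : ∑ i ∈ Finset.range (2 * m.k), (m.fam 0).Z φ i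
      ≤ (2 * m.k) * ((2 * m.k / m.D) * totE φ) := by
    refine (Finset.sum_le_card_nsmul _ _ ((2 * m.k / m.D) * totE φ) fun i hi => ?_).trans
      (le_of_eq ?_)
    · have hi' := Finset.mem_range.mp hi
      refine Z_le_odd (isT φ) hzero zero_le_one (m.cellQ 0 hi') ?_
      rw [fam_D]
      gcongr
      exact_mod_cast hi'
    · simp
  have s2 : ∑ i ∈ Finset.range (2 * m.p), (m.fam 0).Z φ (2 * m.D + i) = 0 := by
    refine Finset.sum_eq_zero fun i hi => ?_
    have hi' := Finset.mem_range.mp hi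
    have h1 := m.cellP 0 hi'
    rw [cl_zero, zero_mul] at h1
    exact Z_eq_zero (by rcases h1 with h | h <;> exact h)
  have e1 : (2 * m.k : ℝ) * ((2 * m.k / m.D) * totE φ) ≤ (1 / 2) * totE φ := by
    have h1 : (8 * (m.k * m.k) : ℝ) ≤ m.D := by exact_mod_cast m.h1
    have h2 : (2 * m.k : ℝ) * (2 * m.k / m.D) ≤ 1 / 2 := by
      rw [mul_div_assoc', div_le_iff₀ hD]
      nlinarith
    have := totE_nonneg (φ : ℝ × ℝ → ℂ)
    nlinarith
  rw [s2] at h0
  linarith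

/-- Bound with finitely many means. -/
lemma q_le_fin (he : ‖e‖ = 1) (t : ℝ) (φ : Par e) {K : ℝ}
    (hK : ∀ i < 3 * m.D, ∀ j < m.D,
      ‖sqMean ((i : ℝ) / m.D) ((j : ℝ) / m.D) (1 / m.D) φ‖ ^ 2 ≤ K) :
    q (m.fam t).prof φ ≤ (3 / 2) * totE φ + 8 * (m.k + m.p) * K := by
  have h0 := (m.fam t).q_le he φ
  rw [fam_D, m.sum_Z] at h0
  have hD := m.D_pos
  have hcol : ∀ i < 3 * m.D, ∀ c, 0 ≤ c → c ≤ 1 →
      (((m.fam t).v i = 0 ∧ (m.fam t).v (i + 1) = c) ∨
        ((m.fam t).v i = c ∧ (m.fam t).v (i + 1) = 0)) →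
      (m.fam t).Z φ i ≤ 8 * (1 / m.D) * totE φ + 2 * K := by
    intro i hi c hc hc1 hv
    have h1 := Z_le_column (isT φ) hc hc1 hv
    rw [fam_D] at h1
    have h2 : ∑ j ∈ Finset.range m.D,
        ‖sqMean ((i : ℝ) / m.D) ((j : ℝ) / m.D) (1 / m.D) φ‖ ^ 2 ≤ m.D * K := by
      refine (Finset.sum_le_card_nsmul _ _ K fun j hj => hK i hi j (Finset.mem_range.mp hj)).trans
        (le_of_eq ?_)
      simp
    have h3 : 2 * (1 / (m.D : ℝ)) * ∑ j ∈ Finset.range m.D,
        ‖sqMean ((i : ℝ) / m.D) ((j : ℝ) / m.D) (1 / m.D) φ‖ ^ 2 ≤ 2 * (1 / (m.D : ℝ)) * (m.D * K) :=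
      mul_le_mul_of_nonneg_left h2 (by positivity)
    have h4 : 2 * (1 / (m.D : ℝ)) * (m.D * K) = 2 * K := by field_simp
    linarith
  have h3 := m.h3
  have hp := m.hp
  have hk := m.hk
  have h2 := m.h2
  have s1 : ∑ i ∈ Finset.range (2 * m.k), (m.fam t).Z φ i
      ≤ (2 * m.k) * (8 * (1 / m.D) * totE φ + 2 * K) := by
    refine (Finset.sum_le_card_nsmul _ _ (8 * (1 / m.D) * totE φ + 2 * K) fun i hi => ?_).trans
      (le_of_eq ?_)
    · have hi' := Finset.mem_range.mp hi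
      exact hcol i (by omega) 1 zero_le_one le_rfl (m.cellQ t hi')
    · simp; ring
  have s2 : ∑ i ∈ Finset.range (2 * m.p), (m.fam t).Z φ (2 * m.D + i)
      ≤ (2 * m.p) * (8 * (1 / m.D) * totE φ + 2 * K) := by
    refine (Finset.sum_le_card_nsmul _ _ (8 * (1 / m.D) * totE φ + 2 * K) fun i hi => ?_).trans
      (le_of_eq ?_)
    · have hi' := Finset.mem_range.mp hi
      exact hcol _ (by omega) _ (m.cP_mem t).1 (m.cP_mem t).2.2 (m.cellP t hi')
    · simp; ring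
  have e1 : 32 * ((m.k : ℝ) + m.p) * (1 / m.D) ≤ 1 := by
    rw [mul_one_div, div_le_one hD]
    exact_mod_cast m.h3
  have e2 : 32 * ((m.k : ℝ) + m.p) * (1 / m.D) * totE φ ≤ 1 * totE φ :=
    mul_le_mul_of_nonneg_right e1 (totE_nonneg _)
  nlinarith

/-! ### Lower bounds -/

lemma le_q_axis (he : ‖e‖ = 1) (t : ℝ) (φ : Par e) {g : ℝ → ℝ}
    (hg : ∀ x ∈ Icc (0 : ℝ) (1 / 2), ∀ y, ‖(φ : ℝ × ℝ → ℂ) (x, y)‖ ^ 2 = g y) :
    4 * m.k * ∫ y in (0 : ℝ)..1, g y ≤ q (m.fam t).prof φ := by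
  have h0 := (m.fam t).le_q he φ
  rw [fam_D, m.sum_Z] at h0
  have hD := m.D_pos
  have s2 : 0 ≤ ∑ i ∈ Finset.range (2 * m.p), (m.fam t).Z φ (2 * m.D + i) :=
    Finset.sum_nonneg fun i _ => (m.fam t).Z_nonneg _ _
  have s1 : ∑ i ∈ Finset.range (2 * m.k), (m.fam t).Z φ i
      = ∑ i ∈ Finset.range (2 * m.k), ∫ y in (0 : ℝ)..1, g y := by
    refine Finset.sum_congr rfl fun i hi => ?_
    have hi' := Finset.mem_range.mp hi
    obtain ⟨ξ, -, hmem, -, hZ⟩ := (m.fam t).Z_repr i zero_le_one (m.cellQ t hi')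
    rw [hZ φ]
    refine intervalIntegral.integral_congr fun y hy => ?_
    rw [uIcc_of_le zero_le_one] at hy
    have h1 := hmem y hy
    rw [fam_D] at h1
    refine hg _ ⟨le_trans (by positivity) h1.1, h1.2.trans ?_⟩ _
    rw [div_le_iff₀ hD]
    have h3 : (32 * (m.k + m.p) : ℝ) ≤ m.D := by exact_mod_cast m.h3
    have h4 : ((i : ℝ) + 1) ≤ 2 * m.k := by exact_mod_cast hi'
    have := m.p_pos
    have : (0 : ℝ) ≤ m.k := by positivity
    linarith
  rw [s1] at h0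
  simp only [Finset.sum_const, Finset.card_range, nsmul_eq_mul] at h0
  push_cast at h0
  linarith

lemma le_q_side (he : ‖e‖ = 1) (φ : Par e)
    (hφ : ∀ x ∈ Icc (2 : ℝ) (2 + m.h), ∀ y ∈ Icc 0 m.h, ‖(φ : ℝ × ℝ → ℂ) (x, y)‖ = 1) :
    2 ≤ q (m.fam 1).prof φ := by
  have h0 := (m.fam 1).le_q he φ
  rw [fam_D, m.sum_Z] at h0
  have hD := m.D_pos
  have s1 : 0 ≤ ∑ i ∈ Finset.range (2 * m.k), (m.fam 1).Z φ i :=
    Finset.sum_nonneg fun i _ => (m.fam 1).Z_nonneg _ _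
  have s2 : ∑ i ∈ Finset.range (2 * m.p), (m.fam 1).Z φ (2 * m.D + i)
      = ∑ i ∈ Finset.range (2 * m.p), m.h := by
    refine Finset.sum_congr rfl fun i hi => ?_
    have hi' := Finset.mem_range.mp hi
    have hv := m.cellP 1 hi'
    rw [cl_one, one_mul] at hv
    obtain ⟨ξ, -, hmem, -, hZ⟩ := (m.fam 1).Z_repr _ m.h_pos.le hv
    rw [hZ φ]
    have e1 : ∫ y in (0 : ℝ)..m.h, ‖(φ : ℝ × ℝ → ℂ) (ξ y, y)‖ ^ 2 = ∫ _ in (0 : ℝ)..m.h, (1 : ℝ) := by
      refine intervalIntegral.integral_congr fun y hy => ?_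
      rw [uIcc_of_le m.h_pos.le] at hy
      have h1 := hmem y hy
      rw [fam_D] at h1
      rw [hφ _ ⟨?_, ?_⟩ y hy, one_pow]
      · refine le_trans ?_ h1.1
        rw [le_div_iff₀ hD]
        push_cast
        have : (0 : ℝ) ≤ i := by positivity
        linarith
      · refine h1.2.trans ?_
        rw [div_le_iff₀ hD]
        have h2 : (4 * (m.p * m.p) : ℝ) ≤ m.D := by exact_mod_cast m.h2
        have h3 : ((i : ℝ) + 1) ≤ 2 * m.p := by exact_mod_cast hi'
        have h4 : (2 * m.p : ℝ) ≤ m.h * m.D := by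
          have hp := m.p_pos
          rw [h, div_mul_eq_mul_div, one_mul, le_div_iff₀ (by positivity)]
          nlinarith
        push_cast
        linarith
    rw [e1]; simp
  rw [s2] at h0
  simp only [Finset.sum_const, Finset.card_range, nsmul_eq_mul] at h0
  push_cast at h0
  have := m.two_p_h
  linarith

/-! ### Continuity in the parameter -/

lemma val_sub (s t : ℝ) (i : ℕ) : |m.val t i - m.val s i| ≤ |t - s| := by
  unfold val
  split_ifs
  · simp
  · have h1 : cl t * m.h - cl s * m.h = (cl t - cl s) * m.h := by ring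
    rw [h1, abs_mul, abs_of_pos m.h_pos]
    have := cl_sub s t
    have := m.h_le_one
    have := m.h_pos
    have := abs_nonneg (cl t - cl s)
    nlinarith
  · simp

lemma s_sub (s t : ℝ) (i : ℕ) : |(m.fam t).s i - (m.fam s).s i| ≤ 2 * m.D * |t - s| := by
  have hD := m.D_pos
  have e1 : (m.fam t).s i - (m.fam s).s i
      = m.D * ((m.val t (i + 1) - m.val s (i + 1)) - (m.val t i - m.val s i)) := by
    simp only [Nodes.s, fam_D, fam_v]; ring
  rw [e1, abs_mul, abs_of_pos hD]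
  have h1 := m.val_sub s t i
  have h2 := m.val_sub s t (i + 1)
  have h3 : |(m.val t (i + 1) - m.val s (i + 1)) - (m.val t i - m.val s i)| ≤ 2 * |t - s| :=
    (abs_sub _ _).trans (by linarith)
  nlinarith

lemma sl_sub (s t x : ℝ) : |(m.fam t).sl x - (m.fam s).sl x| ≤ 2 * m.D * |t - s| := by
  rcases lt_trichotomy x 0 with h | h | h
  · rw [Nodes.sl_neg _ h, Nodes.sl_neg _ h]
    have := m.s_sub s t ⌊(m.D : ℝ) * (-x)⌋₊
    rw [show -(m.fam t).s ⌊((m.fam t).D : ℝ) * (-x)⌋₊ - -(m.fam s).s ⌊((m.fam s).D : ℝ) * (-x)⌋₊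
      = -((m.fam t).s ⌊(m.D : ℝ) * (-x)⌋₊ - (m.fam s).s ⌊(m.D : ℝ) * (-x)⌋₊) by
        simp only [fam_D]; ring, abs_neg]
    exact this
  · subst h
    rw [Nodes.sl_zero, Nodes.sl_zero]
    simp only [sub_self, abs_zero]
    have := m.D_pos
    positivity
  · rw [Nodes.sl_pos _ h, Nodes.sl_pos _ h]
    exact m.s_sub s t _

lemma sqrt_sub_le (a b : ℝ) : Real.sqrt (1 + a ^ 2) ≤ Real.sqrt (1 + b ^ 2) + |a - b| := by
  have hb : |b| ≤ Real.sqrt (1 + b ^ 2) := Real.abs_le_sqrt (by linarith)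
  have hs : 0 ≤ Real.sqrt (1 + b ^ 2) := Real.sqrt_nonneg _
  have hs2 : Real.sqrt (1 + b ^ 2) ^ 2 = 1 + b ^ 2 := Real.sq_sqrt (by positivity)
  have hab : |a| ≤ |b| + |a - b| := by
    have := abs_sub_abs_le_abs_sub a b
    linarith
  rw [Real.sqrt_le_left (by positivity)]
  have h1 : a ^ 2 ≤ (|b| + |a - b|) ^ 2 := by
    rw [← sq_abs a]; exact pow_le_pow_left₀ (abs_nonneg _) hab 2
  have h2 : |b| * |a - b| ≤ Real.sqrt (1 + b ^ 2) * |a - b| :=
    mul_le_mul_of_nonneg_right hb (abs_nonneg _)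
  have h3 : |b| ^ 2 = b ^ 2 := sq_abs b
  nlinarith

lemma w_sub (s t x : ℝ) : |(m.fam t).prof.w x - (m.fam s).prof.w x| ≤ 2 * m.D * |t - s| := by
  have h1 := m.sl_sub s t x
  have h2 := sqrt_sub_le ((m.fam t).sl x) ((m.fam s).sl x)
  have h3 := sqrt_sub_le ((m.fam s).sl x) ((m.fam t).sl x)
  rw [abs_sub_comm ((m.fam s).sl x)] at h3
  simp only [Prof.w, Nodes.prof_sl]
  rw [abs_le]
  constructor <;> linarith

lemma u_sub (s t x : ℝ) : |(m.fam t).prof.u x - (m.fam s).prof.u x| ≤ 6 * m.D * |t - s| := by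
  have hD := m.D_pos
  have key : ∀ x : ℝ, 0 ≤ x → x ≤ 3 →
      |(m.fam t).prof.u x - (m.fam s).prof.u x| ≤ 6 * m.D * |t - s| := by
    intro x hx hx3
    rw [Prof.u, Prof.u, ← intervalIntegral.integral_sub ((m.fam t).prof.ii_sl _ _)
      ((m.fam s).prof.ii_sl _ _)]
    have h1 := intervalIntegral.norm_integral_le_of_norm_le_const (a := 0) (b := x)
      (f := fun y => (m.fam t).prof.sl y - (m.fam s).prof.sl y) (C := 2 * m.D * |t - s|)
      (fun y _ => m.sl_sub s t y)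
    rw [Real.norm_eq_abs, sub_zero, abs_of_nonneg hx] at h1
    refine h1.trans ?_
    have : 0 ≤ 2 * (m.D : ℝ) * |t - s| := by positivity
    nlinarith
  rcases le_total 3 |x| with h | h
  · rw [Prof.u_of_abs_ge _ h, Prof.u_of_abs_ge _ h, sub_self, abs_zero]
    positivity
  · rcases abs_choice x with h' | h'
    · rw [← h']; exact key _ (abs_nonneg _) h
    · rw [← (m.fam t).prof.u_neg, ← (m.fam s).prof.u_neg, ← h']
      exact key _ (abs_nonneg _) h

/-- Modulus of continuity of the family. -/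
noncomputable def om (r : ℝ) : ℝ := 2 * (1 + m.D) * Real.sqrt (6 * m.D * r) + m.D * r

lemma om_nonneg {r : ℝ} (hr : 0 ≤ r) : 0 ≤ m.om r := by
  have := m.D_pos
  unfold om; positivity

lemma tendsto_om : Tendsto m.om (𝓝[≥] 0) (𝓝 0) := by
  have h : Continuous m.om := by unfold om; fun_prop
  have h2 := h.tendsto 0
  have h3 : m.om 0 = 0 := by simp [om]
  rw [h3] at h2
  exact h2.mono_left nhdsWithin_le_nhds

lemma q_cont {φ : ℝ × ℝ → ℂ} (hφ : IsTest φ) (s t : ℝ) :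
    q (m.fam t).prof φ ≤ q (m.fam s).prof φ + m.om |t - s| * totE φ := by
  have hD := m.D_pos
  have ht := hφ.integrable_q (m.fam t).prof
  have hs := hφ.integrable_q (m.fam s).prof
  rw [q, q, ← hφ.integral_colE, ← integral_const_mul, ← integral_add hs
    (hφ.integrable_colE.const_mul _)]
  refine integral_mono ht (hs.add (hφ.integrable_colE.const_mul _)) fun x => ?_
  simp only
  set A := ‖φ (x, (m.fam t).prof.u x)‖ ^ 2 with hA
  set B := ‖φ (x, (m.fam s).prof.u x)‖ ^ 2 with hB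
  have hC0 := colE_nonneg φ x
  have h1 : |A - B| ≤ 2 * Real.sqrt (6 * m.D * |t - s|) * colE φ x := by
    refine (hφ.col_sq_diff_le x _ _).trans ?_
    gcongr
    exact m.u_sub s t x
  have h2 : B ≤ (1 / 2) * colE φ x := hφ.sq_le_colE x _
  have h3 := m.w_sub s t x
  have h4 : (m.fam t).prof.w x ≤ 1 + m.D := (m.fam t).prof.w_le' x
  have h5 := (m.fam t).prof.w_pos x
  have hB0 : 0 ≤ B := by positivity
  have e1 : A * (m.fam t).prof.w x
      = B * (m.fam s).prof.w x + (A - B) * (m.fam t).prof.w x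
        + B * ((m.fam t).prof.w x - (m.fam s).prof.w x) := by ring
  have e2 : (A - B) * (m.fam t).prof.w x
      ≤ (2 * Real.sqrt (6 * m.D * |t - s|) * colE φ x) * (1 + m.D) := by
    refine mul_le_mul ((le_abs_self _).trans h1) h4 h5.le (by positivity)
  have e3 : B * ((m.fam t).prof.w x - (m.fam s).prof.w x)
      ≤ ((1 / 2) * colE φ x) * (2 * m.D * |t - s|) := by
    calc B * ((m.fam t).prof.w x - (m.fam s).prof.w x)
        ≤ B * (2 * m.D * |t - s|) :=
          mul_le_mul_of_nonneg_left ((le_abs_self _).trans h3) hB0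
      _ ≤ _ := mul_le_mul_of_nonneg_right h2 (by positivity)
  rw [e1, om]
  linarith

end Pm

end Pool.Agent.Helper98.LC
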