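import Pool.Agent.Helper98.LC.Sym
import Pool.Agent.Helper98.LC.Est

/-! Trial functions: two even bumps on the axis, and a cheap odd function near the side teeth. -/

open MeasureTheory Set Filter Topology
open scoped ContDiff InnerProductSpace ComplexConjugate

namespace Pool.Agent.Helper98.LC

/-- The cut-off in the first variable. -/
noncomputable def bβ : ContDiffBump (0 : ℝ) := ⟨1 / 2, 1, by norm_num, by norm_num⟩

/-- A bump in the second variable, centred at `c`. -/
noncomputable def bη (c : ℝ) : ContDiffBump c := ⟨1 / 16, 1 / 8, by norm_num, by norm_num⟩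

/-- The trial function centred at `(0, c)`. -/
noncomputable def trial (c : ℝ) (z : ℝ × ℝ) : ℂ := ((bβ z.1 * bη c z.2 : ℝ) : ℂ)

lemma isTest_trial (c : ℝ) : IsTest (trial c) := by
  refine ⟨?_, ?_⟩
  · refine Complex.ofRealCLM.contDiff.comp ?_
    exact (bβ.contDiff.comp contDiff_fst).mul ((bη c).contDiff.comp contDiff_snd)
  · refine HasCompactSupport.intro
      ((isCompact_closedBall (0 : ℝ) 1).prod (isCompact_closedBall c (1 / 8))) fun z hz => ?_
    rw [mem_prod, not_and_or, Metric.mem_closedBall, Metric.mem_closedBall, not_le, not_le] at hz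
    unfold trial
    rcases hz with h | h
    · have : bβ z.1 = 0 := bβ.zero_of_le_dist h.le
      rw [this]; simp
    · have : bη c z.2 = 0 := (bη c).zero_of_le_dist h.le
      rw [this]; simp

lemma trial_neg (c x y : ℝ) : trial c (-x, y) = trial c (x, y) := by
  unfold trial
  simp only [ContDiffBump.neg]

/-- The trial function as an even test function. -/
noncomputable def trialE (c : ℝ) : Par 1 :=
  ⟨trial c, isTest_trial c, fun x y => by rw [trial_neg, one_mul]⟩

lemma trial_axis (c : ℝ) {x : ℝ} (hx : x ∈ Icc (0 : ℝ) (1 / 2)) (y : ℝ) :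
    ‖trial c (x, y)‖ ^ 2 = bη c y ^ 2 := by
  have : bβ x = 1 := by
    refine bβ.one_of_mem_closedBall ?_
    rw [Metric.mem_closedBall, dist_zero_right, Real.norm_of_nonneg hx.1]
    exact hx.2
  unfold trial
  simp only [this, one_mul]
  rw [Complex.norm_real, Real.norm_eq_abs, sq_abs]

lemma trial_zero {c y : ℝ} (x : ℝ) (h : 1 / 8 ≤ |y - c|) : trial c (x, y) = 0 := by
  have : bη c y = 0 := (bη c).zero_of_le_dist h
  unfold trial
  simp only [this, mul_zero, Complex.ofReal_zero]

lemma integral_bη_pos {c : ℝ} (hc0 : 1 / 8 ≤ c) (hc1 : c ≤ 7 / 8) :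
    0 < ∫ y in (0 : ℝ)..1, bη c y ^ 2 := by
  have hcont : Continuous fun y => bη c y ^ 2 := (bη c).continuous.pow 2
  have h1 : ∫ y in (c - 1 / 16)..(c + 1 / 16), bη c y ^ 2 ≤ ∫ y in (0 : ℝ)..1, bη c y ^ 2 := by
    refine intervalIntegral.integral_mono_interval (by linarith) (by linarith) (by linarith) ?_
      (hcont.intervalIntegrable _ _)
    exact Eventually.of_forall fun y => by simp only [Pi.zero_apply]; positivity
  have h2 : ∫ y in (c - 1 / 16)..(c + 1 / 16), bη c y ^ 2
      = ∫ _ in (c - 1 / 16)..(c + 1 / 16), (1 : ℝ) := by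
    refine intervalIntegral.integral_congr fun y hy => ?_
    rw [uIcc_of_le (by linarith)] at hy
    have : bη c y = 1 := by
      refine (bη c).one_of_mem_closedBall ?_
      rw [Metric.mem_closedBall, Real.dist_eq, abs_le]
      constructor
      · show -(1 / 16 : ℝ) ≤ y - c
        linarith [hy.1]
      · show y - c ≤ (1 / 16 : ℝ)
        linarith [hy.2]
    simp only [this, one_pow]
  rw [h2] at h1
  simp at h1
  linarith

/-- The two trial functions have disjoint supports. -/
lemma trial_disj (z : ℝ × ℝ) :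
    (trial (1 / 4) =ᶠ[𝓝 z] fun _ => 0) ∨ (trial (3 / 4) =ᶠ[𝓝 z] fun _ => 0) := by
  rcases lt_or_ge z.2 (1 / 2) with h | h
  · right
    have : ∀ᶠ w : ℝ × ℝ in 𝓝 z, w.2 < 1 / 2 :=
      continuous_snd.continuousAt.eventually_lt continuousAt_const h
    filter_upwards [this] with w hw
    refine trial_zero w.1 ?_
    rw [le_abs]; right; linarith
  · left
    have : ∀ᶠ w : ℝ × ℝ in 𝓝 z, 3 / 8 < w.2 :=
      continuousAt_const.eventually_lt continuous_snd.continuousAt (by linarith)
    filter_upwards [this] with w hw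
    refine trial_zero w.1 ?_
    rw [le_abs]; left; linarith

lemma trial_orth : ⟪jE 1 (trialE (1 / 4)), jE 1 (trialE (3 / 4))⟫_ℂ = 0 := by
  rw [inner_jE, inner_jj]
  have h1 : ∀ z, conj ((trialE (1 / 4) : ℝ × ℝ → ℂ) z) * (trialE (3 / 4) : ℝ × ℝ → ℂ) z = 0 := by
    intro z
    rcases trial_disj z with h | h
    · have : trial (1 / 4) z = 0 := h.self_of_nhds
      simp only [trialE, this, map_zero, zero_mul]
    · have : trial (3 / 4) z = 0 := h.self_of_nhds
      simp only [trialE, this, mul_zero]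
  have h2 : ∀ z, conj (dx (trialE (1 / 4) : ℝ × ℝ → ℂ) z) * dx (trialE (3 / 4) : ℝ × ℝ → ℂ) z = 0 := by
    intro z
    rcases trial_disj z with h | h
    · have := dx_eq_zero_of_eventually h
      simp only [trialE, this, map_zero, zero_mul]
    · have := dx_eq_zero_of_eventually h
      simp only [trialE, this, mul_zero]
  have h3 : ∀ z, conj (dy (trialE (1 / 4) : ℝ × ℝ → ℂ) z) * dy (trialE (3 / 4) : ℝ × ℝ → ℂ) z = 0 := by
    intro z
    rcases trial_disj z with h | h
    · have := dy_eq_zero_of_eventually h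
      simp only [trialE, this, map_zero, zero_mul]
    · have := dy_eq_zero_of_eventually h
      simp only [trialE, this, mul_zero]
  simp only [h1, h2, h3, integral_zero, add_zero]

lemma trial_orth_trace (P : Prof) :
    ⟪tt P (isT (trialE (1 / 4))), tt P (isT (trialE (3 / 4)))⟫_ℂ = 0 := by
  rw [inner_tt]
  have h1 : ∀ z, conj ((trialE (1 / 4) : ℝ × ℝ → ℂ) z) * (trialE (3 / 4) : ℝ × ℝ → ℂ) z = 0 := by
    intro z
    rcases trial_disj z with h | h
    · have : trial (1 / 4) z = 0 := h.self_of_nhds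
      simp only [trialE, this, map_zero, zero_mul]
    · have : trial (3 / 4) z = 0 := h.self_of_nhds
      simp only [trialE, this, mul_zero]
  simp only [h1, integral_zero]

/-- A cheap odd function equal to one near `(2, 0)`. -/
lemma exists_odd {ε : ℝ} (hε : 0 < ε) : ∃ r > 0, ∃ φ : Par (-1), totE (φ : ℝ × ℝ → ℂ) < ε ∧
    ∀ x ∈ Icc (2 : ℝ) (2 + r), ∀ y ∈ Icc 0 r, (φ : ℝ × ℝ → ℂ) (x, y) = 1 := by
  obtain ⟨χ, hχ, hχ0, ⟨r, hr, hχ1⟩, hE⟩ := exists_cheap (2, 0) (ε := ε / 4) (by linarith)
  have ht : IsTest (χ + (-1 : ℂ) • fun z => χ (refl z)) := hχ.add (hχ.comp_refl.smul _)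
  refine ⟨r, hr, ⟨χ + (-1 : ℂ) • fun z => χ (refl z), ht, ?_⟩, ?_, ?_⟩
  · intro x y
    have h1 : refl (-x, y) = (x, y) := by simp [refl]
    have h2 : refl (x, y) = (-x, y) := rfl
    simp only [Pi.smul_apply, Pi.add_apply, h1, h2, smul_eq_mul]
    ring
  · have h1 : totE (χ + (-1 : ℂ) • fun z => χ (refl z))
        ≤ 2 * totE χ + 2 * totE (fun z => χ (refl z)) := by
      rw [totE, totE, totE, ← integral_const_mul, ← integral_const_mul,
        ← integral_add (hχ.integrable_en.const_mul 2) (hχ.comp_refl.integrable_en.const_mul 2)]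
      refine integral_mono ht.integrable_en
        ((hχ.integrable_en.const_mul 2).add (hχ.comp_refl.integrable_en.const_mul 2)) fun z => ?_
      have key : ∀ a b : ℂ, ‖a + (-1) * b‖ ^ 2 ≤ 2 * ‖a‖ ^ 2 + 2 * ‖b‖ ^ 2 := by
        intro a b
        have h1 : ‖a + (-1) * b‖ ≤ ‖a‖ + ‖b‖ := by
          refine (norm_add_le _ _).trans ?_
          rw [norm_mul, norm_neg, norm_one, one_mul]
        have h2 := pow_le_pow_left₀ (norm_nonneg _) h1 2
        nlinarith [sq_nonneg (‖a‖ - ‖b‖)]
      simp only [en]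
      rw [dx_add hχ (hχ.comp_refl.smul _), dy_add hχ (hχ.comp_refl.smul _),
        dx_smul hχ.comp_refl, dy_smul hχ.comp_refl]
      have k1 := key (χ z) (χ (refl z))
      have k2 := key (dx χ z) (dx (fun z => χ (refl z)) z)
      have k3 := key (dy χ z) (dy (fun z => χ (refl z)) z)
      simp only [Pi.add_apply, Pi.smul_apply, smul_eq_mul]
      linarith
    rw [totE_comp_refl] at h1
    have : totE (χ + (-1 : ℂ) • fun z => χ (refl z)) < ε := by linarith
    exact this
  · intro x hx y hy
    have h1 : χ (x, y) = 1 := by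
      refine hχ1 _ ?_
      rw [Prod.norm_def]
      refine max_le ?_ ?_
      · simp only [Prod.fst_sub, Real.norm_eq_abs]
        rw [abs_of_nonneg (by linarith [hx.1])]; linarith [hx.2]
      · simp only [Prod.snd_sub, Real.norm_eq_abs, sub_zero]
        rw [abs_of_nonneg hy.1]; exact hy.2
    have h2 : χ (-x, y) = 0 := by
      refine hχ0 _ ?_
      rw [Prod.norm_def]
      refine le_max_of_le_left ?_
      simp only [Prod.fst_sub, Real.norm_eq_abs]
      rw [abs_of_nonpos (by linarith [hx.1])]; linarith [hx.1]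
    simp only [Pi.add_apply, Pi.smul_apply, refl, h1, h2, smul_eq_mul]
    simp

end Pool.Agent.Helper98.LC
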