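import Pool.Agent.Helper98.LC.Test

/-! Points of the plane have zero `H¹` capacity: cheap test functions equal to one near a point. -/

open MeasureTheory Set Filter Topology
open scoped ContDiff InnerProductSpace ComplexConjugate

namespace Pool.Agent.Helper98.LC

lemma IsTest.integrable_sq {φ : ℝ × ℝ → ℂ} (h : IsTest φ) :
    Integrable (fun z => ‖φ z‖ ^ 2) (volume : Measure (ℝ × ℝ)) :=
  (h.continuous.norm.pow 2).integrable_of_hasCompactSupport (hasCompactSupport_norm_sq h.2)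

lemma IsTest.integrable_dx_sq {φ : ℝ × ℝ → ℂ} (h : IsTest φ) :
    Integrable (fun z => ‖dx φ z‖ ^ 2) (volume : Measure (ℝ × ℝ)) :=
  (h.continuous_dx.norm.pow 2).integrable_of_hasCompactSupport (hasCompactSupport_norm_sq h.hcs_dx)

lemma IsTest.integrable_dy_sq {φ : ℝ × ℝ → ℂ} (h : IsTest φ) :
    Integrable (fun z => ‖dy φ z‖ ^ 2) (volume : Measure (ℝ × ℝ)) :=
  (h.continuous_dy.norm.pow 2).integrable_of_hasCompactSupport (hasCompactSupport_norm_sq h.hcs_dy)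

lemma IsTest.integrable_grad_sq {φ : ℝ × ℝ → ℂ} (h : IsTest φ) :
    Integrable (fun z => ‖dx φ z‖ ^ 2 + ‖dy φ z‖ ^ 2) (volume : Measure (ℝ × ℝ)) :=
  h.integrable_dx_sq.add h.integrable_dy_sq

lemma IsTest.totE_eq {φ : ℝ × ℝ → ℂ} (h : IsTest φ) :
    totE φ = (∫ z, ‖φ z‖ ^ 2) + ∫ z, (‖dx φ z‖ ^ 2 + ‖dy φ z‖ ^ 2) := by
  rw [totE, ← integral_add h.integrable_sq h.integrable_grad_sq]
  congr 1
  ext z
  simp only [en, add_assoc]

/-- A function vanishing near a point has vanishing derivatives there. -/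
lemma dx_eq_zero_of_eventually {φ : ℝ × ℝ → ℂ} {z : ℝ × ℝ} {c : ℂ}
    (h : φ =ᶠ[𝓝 z] fun _ => c) : dx φ z = 0 := by
  rw [dx, h.fderiv_eq]; simp

lemma dy_eq_zero_of_eventually {φ : ℝ × ℝ → ℂ} {z : ℝ × ℝ} {c : ℂ}
    (h : φ =ᶠ[𝓝 z] fun _ => c) : dy φ z = 0 := by
  rw [dy, h.fderiv_eq]; simp

lemma dx_add {φ ψ : ℝ × ℝ → ℂ} (h : IsTest φ) (h' : IsTest ψ) (z : ℝ × ℝ) :
    dx (φ + ψ) z = dx φ z + dx ψ z := by
  rw [dx, fderiv_add (h.differentiable z) (h'.differentiable z)]; rfl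

lemma dy_add {φ ψ : ℝ × ℝ → ℂ} (h : IsTest φ) (h' : IsTest ψ) (z : ℝ × ℝ) :
    dy (φ + ψ) z = dy φ z + dy ψ z := by
  rw [dy, fderiv_add (h.differentiable z) (h'.differentiable z)]; rfl

lemma dx_smul {φ : ℝ × ℝ → ℂ} (h : IsTest φ) (c : ℂ) (z : ℝ × ℝ) :
    dx (c • φ) z = c * dx φ z := by
  rw [dx, fderiv_const_smul (h.differentiable z)]; rfl

lemma dy_smul {φ : ℝ × ℝ → ℂ} (h : IsTest φ) (c : ℂ) (z : ℝ × ℝ) :
    dy (c • φ) z = c * dy φ z := by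
  rw [dy, fderiv_const_smul (h.differentiable z)]; rfl

lemma dx_comp_smul (φ : ℝ × ℝ → ℂ) (c : ℝ) (z : ℝ × ℝ) :
    dx (fun z => φ (c • z)) z = c • dx φ (c • z) := by
  rw [dx, fderiv_comp_smul]; rfl

lemma dy_comp_smul (φ : ℝ × ℝ → ℂ) (c : ℝ) (z : ℝ × ℝ) :
    dy (fun z => φ (c • z)) z = c • dy φ (c • z) := by
  rw [dy, fderiv_comp_smul]; rfl

lemma IsTest.comp_smul {φ : ℝ × ℝ → ℂ} (h : IsTest φ) {c : ℝ} (hc : c ≠ 0) :
    IsTest (fun z => φ (c • z)) := by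
  refine ⟨h.1.comp (contDiff_const_smul c), ?_⟩
  exact h.2.comp_isClosedEmbedding (Homeomorph.smulOfNeZero c hc).isClosedEmbedding

lemma IsTest.comp_sub {φ : ℝ × ℝ → ℂ} (h : IsTest φ) (a : ℝ × ℝ) :
    IsTest (fun z => φ (z - a)) := by
  refine ⟨h.1.comp (contDiff_id.sub contDiff_const), ?_⟩
  exact h.2.comp_isClosedEmbedding (Homeomorph.subRight a).isClosedEmbedding

lemma totE_comp_sub (φ : ℝ × ℝ → ℂ) (a : ℝ × ℝ) : totE (fun z => φ (z - a)) = totE φ := by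
  have e : en (fun z => φ (z - a)) = fun z => en φ (z - a) := by
    ext z
    simp only [en, dx, dy, fderiv_comp_sub]
  rw [totE, e, totE, integral_sub_right_eq_self (en φ) a]

lemma integral_comp_four (g : ℝ × ℝ → ℝ) :
    ∫ z : ℝ × ℝ, g ((4 : ℝ) • z) = (1 / 16) * ∫ z, g z := by
  rw [Measure.integral_comp_smul]
  have : Module.finrank ℝ (ℝ × ℝ) = 2 := by simp
  rw [this, smul_eq_mul]
  congr 1
  norm_num

lemma tower : ∃ L G : ℝ, 0 ≤ L ∧ 0 ≤ G ∧ ∀ n : ℕ, ∃ f : ℝ × ℝ → ℂ, IsTest f ∧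
    (∀ z, 1 ≤ ‖z‖ → f z = 0) ∧ (∃ r > 0, ∀ z, ‖z‖ ≤ r → f z = n) ∧
    ∫ z, ‖f z‖ ^ 2 ≤ 4 * L ∧ ∫ z, (‖dx f z‖ ^ 2 + ‖dy f z‖ ^ 2) ≤ n * G := by
  let b : ContDiffBump (0 : ℝ × ℝ) := ⟨1 / 2, 1, by norm_num, by norm_num⟩
  set η : ℝ × ℝ → ℂ := fun z => ((b z : ℝ) : ℂ) with hη
  have hηt : IsTest η := by
    refine ⟨Complex.ofRealCLM.contDiff.comp b.contDiff, ?_⟩
    exact b.hasCompactSupport.comp_left (g := fun t : ℝ => (t : ℂ)) (by simp)
  have hη0 : ∀ z, 1 ≤ ‖z‖ → η z = 0 := by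
    intro z hz
    simp only [hη]
    rw [b.zero_of_le_dist (by rw [dist_zero_right]; exact hz)]; simp
  have hη1 : ∀ z, ‖z‖ ≤ 1 / 2 → η z = 1 := by
    intro z hz
    simp only [hη]
    rw [b.one_of_mem_closedBall (by rw [mem_closedBall_zero_iff]; exact hz)]; simp
  set L := ∫ z, ‖η z‖ ^ 2 with hL
  set G := ∫ z, (‖dx η z‖ ^ 2 + ‖dy η z‖ ^ 2) with hG
  have hL0 : 0 ≤ L := integral_nonneg fun _ => by positivity
  have hG0 : 0 ≤ G := integral_nonneg fun _ => by positivity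
  refine ⟨L, G, hL0, hG0, fun n => ?_⟩
  induction n with
  | zero =>
    refine ⟨0, IsTest.zero, fun _ _ => rfl, ⟨1, one_pos, fun _ _ => by simp⟩, ?_, ?_⟩
    · simp; positivity
    · have h1 : ∀ z, dx (0 : ℝ × ℝ → ℂ) z = 0 := fun z =>
        dx_eq_zero_of_eventually (c := 0) (Eventually.of_forall fun _ => rfl)
      have h2 : ∀ z, dy (0 : ℝ × ℝ → ℂ) z = 0 := fun z =>
        dy_eq_zero_of_eventually (c := 0) (Eventually.of_forall fun _ => rfl)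
      simp [h1, h2]
  | succ n ih =>
    obtain ⟨f, hf, hf0, ⟨r, hr0, hfr⟩, hfL, hfG⟩ := ih
    set g : ℝ × ℝ → ℂ := fun z => f ((4 : ℝ) • z) with hg
    have hgt : IsTest g := hf.comp_smul (by norm_num)
    refine ⟨η + g, hηt.add hgt, ?_, ⟨min (1 / 2) (r / 4), by positivity, ?_⟩, ?_, ?_⟩
    · intro z hz
      have h4 : 1 ≤ ‖(4 : ℝ) • z‖ := by rw [norm_smul]; norm_num; linarith
      simp only [Pi.add_apply, hη0 z hz, hg, hf0 _ h4, add_zero]
    · intro z hz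
      have h1 : ‖z‖ ≤ 1 / 2 := hz.trans (min_le_left _ _)
      have h2 : ‖(4 : ℝ) • z‖ ≤ r := by
        rw [norm_smul]; norm_num; linarith [hz.trans (min_le_right _ _)]
      simp only [Pi.add_apply, hη1 z h1, hg, hfr _ h2]
      push_cast; ring
    · have hi : ∫ z, ‖g z‖ ^ 2 = (1 / 16) * ∫ z, ‖f z‖ ^ 2 :=
        integral_comp_four (fun z => ‖f z‖ ^ 2)
      have h1 : ∫ z, ‖(η + g) z‖ ^ 2 ≤ ∫ z, (2 * ‖η z‖ ^ 2 + 2 * ‖g z‖ ^ 2) := by
        refine integral_mono (hηt.add hgt).integrable_sq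
          ((hηt.integrable_sq.const_mul 2).add (hgt.integrable_sq.const_mul 2)) fun z => ?_
        have h3 : ‖(η + g) z‖ ≤ ‖η z‖ + ‖g z‖ := norm_add_le _ _
        have h4 : ‖(η + g) z‖ ^ 2 ≤ (‖η z‖ + ‖g z‖) ^ 2 := pow_le_pow_left₀ (norm_nonneg _) h3 2
        simp only
        nlinarith [sq_nonneg (‖η z‖ - ‖g z‖)]
      rw [integral_add (hηt.integrable_sq.const_mul 2) (hgt.integrable_sq.const_mul 2),
        integral_const_mul, integral_const_mul, hi] at h1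
      rw [← hL] at h1
      linarith
    · have hi : ∫ z, (‖dx g z‖ ^ 2 + ‖dy g z‖ ^ 2) = ∫ z, (‖dx f z‖ ^ 2 + ‖dy f z‖ ^ 2) := by
        have e : (fun z => ‖dx g z‖ ^ 2 + ‖dy g z‖ ^ 2)
            = fun z => (fun w => 16 * (‖dx f w‖ ^ 2 + ‖dy f w‖ ^ 2)) ((4 : ℝ) • z) := by
          ext z
          simp only [hg, dx_comp_smul, dy_comp_smul, norm_smul, Real.norm_eq_abs, mul_pow]
          norm_num
          ring
        rw [e, integral_comp_four (fun w => 16 * (‖dx f w‖ ^ 2 + ‖dy f w‖ ^ 2)),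
          integral_const_mul]
        ring
      have hpt : ∀ z, ‖dx (η + g) z‖ ^ 2 + ‖dy (η + g) z‖ ^ 2
          = (‖dx η z‖ ^ 2 + ‖dy η z‖ ^ 2) + (‖dx g z‖ ^ 2 + ‖dy g z‖ ^ 2) := by
        intro z
        rw [dx_add hηt hgt, dy_add hηt hgt]
        rcases lt_or_ge ‖z‖ (1 / 2) with hz | hz
        · have hev : η =ᶠ[𝓝 z] fun _ => 1 := by
            have : ∀ᶠ w in 𝓝 z, ‖w‖ < 1 / 2 := continuous_norm.continuousAt.eventually_lt
              continuousAt_const hz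
            filter_upwards [this] with w hw using hη1 w hw.le
          rw [dx_eq_zero_of_eventually hev, dy_eq_zero_of_eventually hev]
          simp
        · have hz4 : (1 / 4 : ℝ) < ‖z‖ := by linarith
          have hev : g =ᶠ[𝓝 z] fun _ => 0 := by
            have : ∀ᶠ w in 𝓝 z, 1 / 4 < ‖w‖ := continuousAt_const.eventually_lt
              continuous_norm.continuousAt hz4
            filter_upwards [this] with w hw
            refine hf0 _ ?_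
            rw [norm_smul]; norm_num; linarith
          rw [dx_eq_zero_of_eventually hev, dy_eq_zero_of_eventually hev]
          simp
      rw [integral_congr_ae (Eventually.of_forall hpt),
        integral_add hηt.integrable_grad_sq hgt.integrable_grad_sq, hi, ← hG]
      push_cast
      linarith

/-- Cheap test functions equal to one near a given point. -/
theorem exists_cheap (z₀ : ℝ × ℝ) {ε : ℝ} (hε : 0 < ε) : ∃ χ : ℝ × ℝ → ℂ, IsTest χ ∧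
    (∀ z, 1 ≤ ‖z - z₀‖ → χ z = 0) ∧ (∃ r > 0, ∀ z, ‖z - z₀‖ ≤ r → χ z = 1) ∧ totE χ < ε := by
  obtain ⟨L, G, hL, hG, H⟩ := tower
  obtain ⟨n, hn⟩ := exists_nat_gt ((4 * L + G) / ε)
  have hn0 : (0 : ℝ) < n + 1 := by positivity
  obtain ⟨f, hf, hf0, ⟨r, hr, hfr⟩, hfL, hfG⟩ := H (n + 1)
  set c : ℂ := (((n : ℝ) + 1 : ℝ) : ℂ)⁻¹ with hc
  have hcn : ‖c‖ ^ 2 = ((n : ℝ) + 1)⁻¹ ^ 2 := by
    rw [hc, norm_inv, Complex.norm_real, Real.norm_of_nonneg hn0.le]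
  have hcf : IsTest (c • f) := hf.smul c
  have htot : totE (c • f) = ‖c‖ ^ 2 * totE f := by
    rw [totE, totE, ← integral_const_mul]
    congr 1
    ext z
    simp only [en, dx_smul hf, dy_smul hf, Pi.smul_apply, smul_eq_mul, norm_mul, mul_pow]
    ring
  refine ⟨fun z => (c • f) (z - z₀), hcf.comp_sub z₀, ?_, ⟨r, hr, ?_⟩, ?_⟩
  · intro z hz
    simp [hf0 _ hz]
  · intro z hz
    simp only [Pi.smul_apply, hfr _ hz, hc, smul_eq_mul]
    push_cast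
    have : ((n : ℂ) + 1) ≠ 0 := by exact_mod_cast hn0.ne'
    field_simp
  · rw [totE_comp_sub, htot, hcn, hf.totE_eq]
    have h1 : (∫ z, ‖f z‖ ^ 2) + ∫ z, (‖dx f z‖ ^ 2 + ‖dy f z‖ ^ 2)
        ≤ (4 * L + G) * ((n : ℝ) + 1) := by
      push_cast at hfG
      have : (0 : ℝ) ≤ n := by positivity
      nlinarith
    have h2 : ((n : ℝ) + 1)⁻¹ ^ 2 * ((∫ z, ‖f z‖ ^ 2) + ∫ z, (‖dx f z‖ ^ 2 + ‖dy f z‖ ^ 2))
        ≤ ((n : ℝ) + 1)⁻¹ ^ 2 * ((4 * L + G) * ((n : ℝ) + 1)) := by gcongr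
    refine h2.trans_lt ?_
    have h3 : ((n : ℝ) + 1)⁻¹ ^ 2 * ((4 * L + G) * ((n : ℝ) + 1)) = (4 * L + G) / ((n : ℝ) + 1) := by
      field_simp
    rw [h3, div_lt_iff₀ hn0]
    rw [div_lt_iff₀ hε] at hn
    nlinarith

end Pool.Agent.Helper98.LC
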