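import Pool.Agent.Helper98.LC.Nodes

/-! The trace norm as a sum over the cells. -/

open MeasureTheory Set Filter Topology
open scoped ContDiff InnerProductSpace ComplexConjugate

namespace Pool.Agent.Helper98.LC

namespace Nodes

variable (N : Nodes)

/-- The vertical part of the trace norm on one cell. -/
noncomputable def Z (φ : ℝ × ℝ → ℂ) (i : ℕ) : ℝ :=
  |N.s i| * ∫ x in ((i : ℝ) / N.D)..(((i : ℝ) + 1) / N.D), ‖φ (x, N.prof.u x)‖ ^ 2

lemma cell_le (i : ℕ) : (i : ℝ) / N.D ≤ ((i : ℝ) + 1) / N.D := by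
  have := N.D_pos
  gcongr; linarith

lemma Z_nonneg (φ : ℝ × ℝ → ℂ) (i : ℕ) : 0 ≤ N.Z φ i :=
  mul_nonneg (abs_nonneg _) (intervalIntegral.integral_nonneg (N.cell_le i) fun _ _ => by positivity)

variable {e : ℂ}

lemma even_sq (he : ‖e‖ = 1) (φ : Par e) (x : ℝ) :
    ‖(φ : ℝ × ℝ → ℂ) (|x|, N.prof.u |x|)‖ = ‖(φ : ℝ × ℝ → ℂ) (x, N.prof.u x)‖ := by
  rcases abs_choice x with h | h
  · rw [h]
  · rw [h, N.prof.u_neg, par, norm_mul, he, one_mul]

lemma w_abs (x : ℝ) : N.prof.w |x| = N.prof.w x := by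
  rcases abs_choice x with h | h
  · rw [h]
  · rw [h, N.prof.w_neg]

lemma three_eq : ((3 * N.D : ℕ) : ℝ) / N.D = 3 := by
  have := N.D_pos
  push_cast
  rw [mul_div_assoc, div_self this.ne', mul_one]

lemma sum_cells {f : ℝ → ℝ} (hf : ∀ a b, IntervalIntegrable f volume a b) :
    ∑ i ∈ Finset.range (3 * N.D), ∫ x in ((i : ℝ) / N.D)..(((i : ℝ) + 1) / N.D), f x
      = ∫ x in (0 : ℝ)..3, f x := by
  have h := intervalIntegral.sum_integral_adjacent_intervals (f := f) (μ := volume)
    (a := fun i : ℕ => (i : ℝ) / N.D) (n := 3 * N.D) (fun k _ => hf _ _)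
  simp only [N.three_eq, Nat.cast_zero, zero_div] at h
  rw [← h]
  refine Finset.sum_congr rfl fun i _ => ?_
  push_cast
  rfl

lemma le_q (he : ‖e‖ = 1) (φ : Par e) :
    2 * ∑ i ∈ Finset.range (3 * N.D), N.Z φ i ≤ q N.prof φ := by
  have hi := (isT φ).integrable_q N.prof
  have h1 : q N.prof φ
      = 2 * ∫ x in Ioi (0 : ℝ), ‖(φ : ℝ × ℝ → ℂ) (x, N.prof.u x)‖ ^ 2 * N.prof.w x := by
    rw [q, ← integral_comp_abs]
    refine integral_congr_ae (Eventually.of_forall fun x => ?_)
    simp only [N.even_sq he φ x, N.w_abs]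
  rw [h1]
  refine mul_le_mul_of_nonneg_left ?_ (by norm_num)
  have h2 : ∫ x in (0 : ℝ)..3, ‖(φ : ℝ × ℝ → ℂ) (x, N.prof.u x)‖ ^ 2 * N.prof.w x
      ≤ ∫ x in Ioi (0 : ℝ), ‖(φ : ℝ × ℝ → ℂ) (x, N.prof.u x)‖ ^ 2 * N.prof.w x := by
    rw [intervalIntegral.integral_of_le (by norm_num)]
    refine setIntegral_mono_set hi.integrableOn
      (Eventually.of_forall fun x => mul_nonneg (by positivity) (N.prof.w_pos x).le)
      (Eventually.of_forall Ioc_subset_Ioi_self)
  refine le_trans ?_ h2
  rw [← N.sum_cells (fun a b => hi.intervalIntegrable)]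
  refine Finset.sum_le_sum fun i _ => ?_
  rw [Z, ← intervalIntegral.integral_const_mul]
  refine intervalIntegral.integral_mono_on_of_le_Ioo (N.cell_le i) ?_
    hi.intervalIntegrable fun x hx => ?_
  · exact (((isT φ).integrable_graph_sq N.prof).const_mul _).intervalIntegrable
  · rw [mul_comm]
    refine mul_le_mul_of_nonneg_left ?_ (by positivity)
    rw [← N.sl_cell i hx]
    exact N.prof.abs_sl_le_w x

lemma q_le (he : ‖e‖ = 1) (φ : Par e) :
    q N.prof φ ≤ (1 / 2) * totE φ + 2 * ∑ i ∈ Finset.range (3 * N.D), N.Z φ i := by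
  have hi := (isT φ).integrable_q N.prof
  have hg := (isT φ).integrable_graph_sq N.prof
  have hd : Integrable fun x => ‖(φ : ℝ × ℝ → ℂ) (x, N.prof.u x)‖ ^ 2 * (N.prof.w x - 1) := by
    have := hi.sub hg
    refine this.congr (Eventually.of_forall fun x => ?_)
    simp only [Pi.sub_apply]; ring
  have h0 : q N.prof φ = (∫ x, ‖(φ : ℝ × ℝ → ℂ) (x, N.prof.u x)‖ ^ 2)
      + ∫ x, ‖(φ : ℝ × ℝ → ℂ) (x, N.prof.u x)‖ ^ 2 * (N.prof.w x - 1) := by
    rw [q, ← integral_add hg hd]
    congr 1
    ext x; ring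
  have h1 : ∫ x, ‖(φ : ℝ × ℝ → ℂ) (x, N.prof.u x)‖ ^ 2 * (N.prof.w x - 1)
      = 2 * ∫ x in Ioi (0 : ℝ), ‖(φ : ℝ × ℝ → ℂ) (x, N.prof.u x)‖ ^ 2 * (N.prof.w x - 1) := by
    rw [← integral_comp_abs]
    refine integral_congr_ae (Eventually.of_forall fun x => ?_)
    simp only [N.even_sq he φ x, N.w_abs]
  have h2 : ∫ x in Ioi (0 : ℝ), ‖(φ : ℝ × ℝ → ℂ) (x, N.prof.u x)‖ ^ 2 * (N.prof.w x - 1)
      = ∫ x in (0 : ℝ)..3, ‖(φ : ℝ × ℝ → ℂ) (x, N.prof.u x)‖ ^ 2 * (N.prof.w x - 1) := by
    rw [intervalIntegral.integral_of_le (by norm_num)]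
    refine (setIntegral_eq_of_subset_of_forall_sdiff_eq_zero measurableSet_Ioi
      Ioc_subset_Ioi_self fun x hx => ?_)
    have h3 : 3 ≤ |x| := by
      have h4 := hx.1
      have h5 := hx.2
      rw [mem_Ioi] at h4
      rw [mem_Ioc, not_and, not_le] at h5
      rw [abs_of_pos h4]
      exact (h5 h4).le
    have : N.prof.w x = 1 := by
      rw [Prof.w, N.prof.zero x h3]; simp
    rw [this]; ring
  have h3 : ∫ x in (0 : ℝ)..3, ‖(φ : ℝ × ℝ → ℂ) (x, N.prof.u x)‖ ^ 2 * (N.prof.w x - 1)
      ≤ ∑ i ∈ Finset.range (3 * N.D), N.Z φ i := by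
    rw [← N.sum_cells (fun a b => hd.intervalIntegrable)]
    refine Finset.sum_le_sum fun i _ => ?_
    rw [Z, ← intervalIntegral.integral_const_mul]
    refine intervalIntegral.integral_mono_on_of_le_Ioo (N.cell_le i) hd.intervalIntegrable ?_
      fun x hx => ?_
    · exact (hg.const_mul _).intervalIntegrable
    · rw [mul_comm]
      refine mul_le_mul_of_nonneg_right ?_ (by positivity)
      rw [← N.sl_cell i hx]
      have := N.prof.w_le x
      rw [N.prof_sl] at this
      linarith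
  have h4 : ∫ x, ‖(φ : ℝ × ℝ → ℂ) (x, N.prof.u x)‖ ^ 2 ≤ (1 / 2) * totE φ := by
    rw [← (isT φ).integral_colE, ← integral_const_mul]
    exact integral_mono hg ((isT φ).integrable_colE.const_mul _) fun x => (isT φ).sq_le_colE x _
  rw [h0, h1, h2]
  linarith

/-- Representation of the vertical part as an integral over the height. -/
lemma Z_repr (i : ℕ) {c : ℝ} (hc : 0 ≤ c)
    (hv : (N.v i = 0 ∧ N.v (i + 1) = c) ∨ (N.v i = c ∧ N.v (i + 1) = 0)) :
    ∃ ξ : ℝ → ℝ, Continuous ξ ∧
      (∀ y ∈ Icc 0 c, ξ y ∈ Icc ((i : ℝ) / N.D) (((i : ℝ) + 1) / N.D)) ∧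
      (∀ x ∈ Icc ((i : ℝ) / N.D) (((i : ℝ) + 1) / N.D), N.prof.u x ∈ Icc 0 c) ∧
      ∀ φ : ℝ × ℝ → ℂ, N.Z φ i = ∫ y in (0 : ℝ)..c, ‖φ (ξ y, y)‖ ^ 2 := by
  have hD := N.D_pos
  rcases hc.eq_or_lt with rfl | hc0
  · have hs : N.s i = 0 := by
      rcases hv with h | h <;> rw [s, h.1, h.2] <;> simp
    have hv0 : N.v i = 0 := by rcases hv with h | h <;> exact h.1
    refine ⟨fun _ => (i : ℝ) / N.D, continuous_const, fun y _ => ⟨le_rfl, N.cell_le i⟩,
      fun x hx => ?_, fun φ => ?_⟩
    · rw [N.u_cell i hx, hs, hv0]; simp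
    · rw [Z, hs]; simp
  · set a := (i : ℝ) / N.D with ha
    set b := ((i : ℝ) + 1) / N.D with hb
    have hba : b - a = 1 / N.D := by rw [ha, hb]; ring
    have hs0 : N.s i ≠ 0 := by
      rcases hv with h | h <;> rw [s, h.1, h.2] <;> simp [hD.ne', hc0.ne']
    have hend : N.v i + N.s i * (b - a) = N.v (i + 1) := by
      rw [hba, s]; field_simp; ring
    have hxi : ∀ x, a + (N.v i + N.s i * (x - a) - N.v i) / N.s i = x := by
      intro x; field_simp; ring
    refine ⟨fun y => a + (y - N.v i) / N.s i, by fun_prop, fun y hy => ?_, fun x hx => ?_,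
      fun φ => ?_⟩
    · simp only
      rcases hv with h | h
      · have hs : N.s i = N.D * c := by rw [s, h.1, h.2]; ring
        have hp : 0 < N.s i := by rw [hs]; positivity
        constructor
        · have : 0 ≤ (y - N.v i) / N.s i := div_nonneg (by rw [h.1]; linarith [hy.1]) hp.le
          linarith
        · have : (y - N.v i) / N.s i ≤ b - a := by
            rw [div_le_iff₀ hp, hba, hs, h.1]
            have : 1 / (N.D : ℝ) * (N.D * c) = c := by field_simp
            rw [this]; linarith [hy.2]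
          linarith
      · have hs : N.s i = -(N.D * c) := by rw [s, h.1, h.2]; ring
        have hp : N.s i < 0 := by
          rw [hs]
          have : (0 : ℝ) < N.D * c := by positivity
          linarith
        constructor
        · have : 0 ≤ (y - N.v i) / N.s i :=
            div_nonneg_of_nonpos (by rw [h.1]; linarith [hy.2]) hp.le
          linarith
        · have : (y - N.v i) / N.s i ≤ b - a := by
            rw [div_le_iff_of_neg hp, hba, hs, h.1]
            have : 1 / (N.D : ℝ) * -(N.D * c) = -c := by field_simp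
            rw [this]; linarith [hy.1]
          linarith
    · rw [N.u_cell i hx]
      have hx1 : 0 ≤ x - a := by linarith [hx.1]
      have hx2 : x - a ≤ 1 / N.D := by linarith [hx.2]
      have hx3 : N.D * (x - a) ≤ 1 := by
        rw [le_div_iff₀ hD] at hx2; linarith
      have hx4 : 0 ≤ N.D * (x - a) := by positivity
      rcases hv with h | h
      · have : N.s i * (x - a) = c * (N.D * (x - a)) := by rw [s, h.1, h.2]; ring
        rw [← ha, h.1, this]
        constructor <;> nlinarith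
      · have : N.s i * (x - a) = -(c * (N.D * (x - a))) := by rw [s, h.1, h.2]; ring
        rw [← ha, h.1, this]
        constructor <;> nlinarith
    · have e1 : ∫ x in a..b, ‖φ (x, N.prof.u x)‖ ^ 2
          = ∫ x in a..b, (fun y => ‖φ (a + (y - N.v i) / N.s i, y)‖ ^ 2)
            (N.s i * x + (N.v i - N.s i * a)) := by
        refine intervalIntegral.integral_congr fun x hx => ?_
        rw [uIcc_of_le (N.cell_le i)] at hx
        have hu : N.s i * x + (N.v i - N.s i * a) = N.prof.u x := by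
          rw [N.u_cell i hx, ← ha]; ring
        simp only [hu]
        have : a + (N.prof.u x - N.v i) / N.s i = x := by
          rw [N.u_cell i hx, ← ha]; exact hxi x
        rw [this]
      have e2 := intervalIntegral.mul_integral_comp_mul_add (a := a) (b := b)
        (f := fun y => ‖φ (a + (y - N.v i) / N.s i, y)‖ ^ 2) (N.s i) (N.v i - N.s i * a)
      have ea : N.s i * a + (N.v i - N.s i * a) = N.v i := by ring
      have eb : N.s i * b + (N.v i - N.s i * a) = N.v (i + 1) := by rw [← hend]; ring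
      rw [ea, eb] at e2
      rw [Z, e1]
      rcases hv with h | h
      · have hs : N.s i = N.D * c := by rw [s, h.1, h.2]; ring
        have hp : 0 < N.s i := by rw [hs]; positivity
        rw [abs_of_pos hp, e2]
        simp only [h.1, h.2]
      · have hs : N.s i = -(N.D * c) := by rw [s, h.1, h.2]; ring
        have hp : N.s i < 0 := by
          rw [hs]
          have : (0 : ℝ) < N.D * c := by positivity
          linarith
        rw [abs_of_neg hp, neg_mul, e2, h.2, intervalIntegral.integral_symm]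
        simp only [h.1, neg_neg]

end Nodes

end Pool.Agent.Helper98.LC
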