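import Pool.Agent.Helper98.LC.Defs

/-! Curves that are graphs of even piecewise linear functions, parametrised by arc length. -/

open MeasureTheory Set Filter Topology
open scoped ContDiff

namespace Pool.Agent.Helper98.LC

/-- The slope data of the graph of an even piecewise linear function. -/
structure Prof where
  sl : ℝ → ℝ
  F : Finset ℝ
  L : ℝ
  meas : Measurable sl
  bound : ∀ x, |sl x| ≤ L
  odd : ∀ x, sl (-x) = -sl x
  const : ∀ a b, a < b → (∀ x ∈ Ioo a b, x ∉ F) → ∃ m, ∀ x ∈ Ioo a b, sl x = m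
  zero : ∀ x, 3 ≤ |x| → sl x = 0
  tot : ∫ x in (0 : ℝ)..3, sl x = 0

namespace Prof

variable (P : Prof)

lemma L_nonneg : 0 ≤ P.L := (abs_nonneg _).trans (P.bound 0)

/-- Speed. -/
noncomputable def w (x : ℝ) : ℝ := Real.sqrt (1 + P.sl x ^ 2)

/-- Height. -/
noncomputable def u (x : ℝ) : ℝ := ∫ t in (0 : ℝ)..x, P.sl t

/-- Arc length. -/
noncomputable def S (x : ℝ) : ℝ := ∫ t in (0 : ℝ)..x, P.w t

lemma one_le_w (x : ℝ) : 1 ≤ P.w x := by
  rw [w, Real.one_le_sqrt]; nlinarith [sq_nonneg (P.sl x)]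

lemma w_le (x : ℝ) : P.w x ≤ 1 + |P.sl x| := by
  rw [w, Real.sqrt_le_left (by positivity)]
  nlinarith [abs_nonneg (P.sl x), sq_abs (P.sl x)]

lemma abs_sl_le_w (x : ℝ) : |P.sl x| ≤ P.w x := by
  rw [w]; apply Real.abs_le_sqrt; linarith

lemma w_le' (x : ℝ) : P.w x ≤ 1 + P.L := (P.w_le x).trans (by linarith [P.bound x])

lemma w_pos (x : ℝ) : 0 < P.w x := one_pos.trans_le (P.one_le_w x)

lemma meas_w : Measurable P.w := (Measurable.sqrt (by
  exact measurable_const.add (P.meas.pow_const 2)))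

lemma w_neg (x : ℝ) : P.w (-x) = P.w x := by rw [w, w, P.odd]; simp

lemma ii_sl (a b : ℝ) : IntervalIntegrable P.sl volume a b := by
  rw [intervalIntegrable_iff]
  refine Measure.integrableOn_of_bounded (M := P.L) ?_ P.meas.aestronglyMeasurable ?_
  · simp [uIoc]
  · exact Eventually.of_forall fun x => P.bound x

lemma ii_w (a b : ℝ) : IntervalIntegrable P.w volume a b := by
  rw [intervalIntegrable_iff]
  refine Measure.integrableOn_of_bounded (M := 1 + P.L) ?_ P.meas_w.aestronglyMeasurable ?_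
  · simp [uIoc]
  · refine Eventually.of_forall fun x => ?_
    rw [Real.norm_of_nonneg (P.w_pos x).le]; exact P.w_le' x

lemma u_sub (a b : ℝ) : P.u b - P.u a = ∫ t in a..b, P.sl t := by
  rw [u, u, intervalIntegral.integral_interval_sub_left (P.ii_sl _ _) (P.ii_sl _ _)]

lemma S_sub (a b : ℝ) : P.S b - P.S a = ∫ t in a..b, P.w t := by
  rw [S, S, intervalIntegral.integral_interval_sub_left (P.ii_w _ _) (P.ii_w _ _)]

lemma u_zero : P.u 0 = 0 := by simp [u]

lemma S_zero : P.S 0 = 0 := by simp [S]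

lemma u_neg (x : ℝ) : P.u (-x) = P.u x := by
  have h := intervalIntegral.integral_comp_neg (a := 0) (b := x) (fun t => P.sl t)
  simp only [neg_zero, P.odd] at h
  rw [intervalIntegral.integral_neg] at h
  rw [u, u, intervalIntegral.integral_symm, ← h, neg_neg]

lemma S_neg (x : ℝ) : P.S (-x) = -P.S x := by
  have h := intervalIntegral.integral_comp_neg (a := 0) (b := x) (fun t => P.w t)
  simp only [neg_zero, P.w_neg] at h
  rw [S, S, intervalIntegral.integral_symm, ← h]

lemma sub_le_S {a b : ℝ} (hab : a ≤ b) : b - a ≤ P.S b - P.S a := by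
  rw [P.S_sub]
  have : ∫ _ in a..b, (1 : ℝ) = b - a := by simp
  rw [← this]
  exact intervalIntegral.integral_mono_on hab (by simp) (P.ii_w _ _) fun x _ => P.one_le_w x

lemma S_sub_le {a b : ℝ} (hab : a ≤ b) : P.S b - P.S a ≤ (1 + P.L) * (b - a) := by
  rw [P.S_sub]
  have : ∫ _ in a..b, (1 + P.L : ℝ) = (1 + P.L) * (b - a) := by simp; ring
  rw [← this]
  exact intervalIntegral.integral_mono_on hab (P.ii_w _ _) (by simp) fun x _ => P.w_le' x

lemma strictMono_S : StrictMono P.S := by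
  intro a b hab
  have := P.sub_le_S hab.le
  linarith

lemma continuous_S : Continuous P.S :=
  intervalIntegral.continuous_primitive (fun a b => P.ii_w a b) 0

lemma continuous_u : Continuous P.u :=
  intervalIntegral.continuous_primitive (fun a b => P.ii_sl a b) 0

lemma surjective_S : Function.Surjective P.S := by
  refine P.continuous_S.surjective ?_ ?_
  · refine tendsto_atTop_mono' _ ?_ tendsto_id
    filter_upwards [eventually_ge_atTop (0 : ℝ)] with x hx
    have := P.sub_le_S hx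
    rw [P.S_zero] at this
    simpa using this
  · refine tendsto_atBot_mono' _ ?_ tendsto_id
    filter_upwards [eventually_le_atBot (0 : ℝ)] with x hx
    have := P.sub_le_S hx
    rw [P.S_zero] at this
    simp only [id]
    linarith

/-- The order isomorphism given by arc length. -/
noncomputable def iso : ℝ ≃o ℝ := P.strictMono_S.orderIsoOfSurjective P.S P.surjective_S

/-- The first coordinate as a function of arc length. -/
noncomputable def X (s : ℝ) : ℝ := P.iso.symm s

lemma S_X (s : ℝ) : P.S (P.X s) = s := P.iso.apply_symm_apply s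

lemma X_S (x : ℝ) : P.X (P.S x) = x := P.iso.symm_apply_apply x

lemma continuous_X : Continuous P.X := P.iso.symm.continuous

lemma strictMono_X : StrictMono P.X := P.iso.symm.strictMono

lemma X_neg (s : ℝ) : P.X (-s) = -P.X s := by
  have h : P.S (-P.X s) = -s := by rw [P.S_neg, P.S_X]
  rw [← h, P.X_S]

/-- The curve. -/
noncomputable def γ (s : ℝ) : ℝ × ℝ := (P.X s, P.u (P.X s))

lemma continuous_γ : Continuous P.γ :=
  P.continuous_X.prodMk (P.continuous_u.comp P.continuous_X)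

lemma γ_neg (s : ℝ) : P.γ (-s) = (-(P.γ s).1, (P.γ s).2) := by
  simp only [γ, P.X_neg, P.u_neg]

/-! ### Piecewise affine -/

lemma affine_piece {a b : ℝ} (hab : a < b) (hF : ∀ x ∈ Ioo a b, x ∉ P.F) :
    ∃ m : ℝ, ∀ x ∈ Icc a b, P.u x = P.u a + m * (x - a) ∧
      P.S x = P.S a + Real.sqrt (1 + m ^ 2) * (x - a) := by
  obtain ⟨m, hm⟩ := P.const a b hab hF
  refine ⟨m, fun x hx => ⟨?_, ?_⟩⟩
  · have h1 : ∫ t in a..x, P.sl t = ∫ _ in a..x, m := by
      rw [intervalIntegral.integral_of_le hx.1, intervalIntegral.integral_of_le hx.1,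
        integral_Ioc_eq_integral_Ioo, integral_Ioc_eq_integral_Ioo]
      exact setIntegral_congr_fun measurableSet_Ioo fun t ht =>
        hm t ⟨ht.1, ht.2.trans_le hx.2⟩
    have h2 := P.u_sub a x
    rw [h1] at h2
    simp at h2
    linarith
  · have h1 : ∫ t in a..x, P.w t = ∫ _ in a..x, Real.sqrt (1 + m ^ 2) := by
      rw [intervalIntegral.integral_of_le hx.1, intervalIntegral.integral_of_le hx.1,
        integral_Ioc_eq_integral_Ioo, integral_Ioc_eq_integral_Ioo]
      refine setIntegral_congr_fun measurableSet_Ioo fun t ht => ?_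
      simp only [w, hm t ⟨ht.1, ht.2.trans_le hx.2⟩]
    have h2 := P.S_sub a x
    rw [h1] at h2
    simp at h2
    linarith

lemma isArcLengthCurve : IsArcLengthCurve P.γ := by
  refine ⟨P.continuous_γ, P.F.image P.S, fun a b hab hF => ?_⟩
  have hX : P.X a < P.X b := P.strictMono_X hab
  obtain ⟨m, hm⟩ := P.affine_piece hX (by
    intro x hx hxF
    refine hF (P.S x) ⟨?_, ?_⟩ (Finset.mem_image_of_mem _ hxF)
    · rw [← P.S_X a]; exact P.strictMono_S hx.1
    · rw [← P.S_X b]; exact P.strictMono_S hx.2)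
  set c := Real.sqrt (1 + m ^ 2) with hc
  have hc0 : 0 < c := Real.sqrt_pos.mpr (by positivity)
  have key : ∀ s ∈ Icc a b, P.γ s = (P.X a + (s - a) / c, P.u (P.X a) + m * ((s - a) / c)) := by
    intro s hs
    have hXs : P.X s ∈ Icc (P.X a) (P.X b) :=
      ⟨P.strictMono_X.monotone hs.1, P.strictMono_X.monotone hs.2⟩
    obtain ⟨h1, h2⟩ := hm _ hXs
    rw [P.S_X, P.S_X] at h2
    have h3 : P.X s - P.X a = (s - a) / c := by
      rw [eq_div_iff hc0.ne']; linarith
    rw [γ, h1, h3]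
    congr 1
    linarith
  have hD : ∀ s : ℝ, HasDerivAt (fun s => ((P.X a + (s - a) / c, P.u (P.X a) + m * ((s - a) / c)) : ℝ × ℝ))
      (1 / c, m * (1 / c)) s := by
    intro s
    have h1 : HasDerivAt (fun s => (s - a) / c) (1 / c) s :=
      ((hasDerivAt_id s).sub_const a).div_const c
    exact (h1.const_add _).prodMk ((h1.const_mul m).const_add _)
  constructor
  · refine ContDiffOn.congr ?_ key
    refine ContDiff.contDiffOn ?_
    fun_prop
  · intro s hs
    have he : P.γ =ᶠ[𝓝 s] fun s => (P.X a + (s - a) / c, P.u (P.X a) + m * ((s - a) / c)) := by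
      filter_upwards [Icc_mem_nhds hs.1 hs.2] with t ht using key t ht
    rw [he.deriv_eq, (hD s).deriv]
    have hc2 : c ^ 2 = 1 + m ^ 2 := Real.sq_sqrt (by positivity)
    field_simp
    rw [hc2]

/-! ### Geometry -/

lemma euc_eq_abs {p q : ℝ × ℝ} (h : p.2 = q.2) : euc p q = |p.1 - q.1| := by
  rw [euc, h]; simp [Real.sqrt_sq_eq_abs]

lemma le_euc (p q : ℝ × ℝ) : |p.1 - q.1| ≤ euc p q := by
  rw [euc]; apply Real.abs_le_sqrt; nlinarith [sq_nonneg (p.2 - q.2)]

lemma X_bounds (s s' : ℝ) : |s - s'| ≤ (1 + P.L) * |P.X s - P.X s'| := by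
  wlog h : s' ≤ s generalizing s s'
  · rw [abs_sub_comm, abs_sub_comm (P.X s)]
    exact this s' s (le_of_not_ge h)
  have hX : P.X s' ≤ P.X s := P.strictMono_X.monotone h
  have := P.S_sub_le hX
  rw [P.S_X, P.S_X] at this
  rwa [abs_of_nonneg (by linarith), abs_of_nonneg (by linarith)]

lemma u_of_ge {x : ℝ} (hx : 3 ≤ x) : P.u x = 0 := by
  have h1 := P.u_sub 3 x
  have h2 : P.u 3 = 0 := P.tot
  have h3 : ∫ t in (3 : ℝ)..x, P.sl t = 0 := by
    rw [intervalIntegral.integral_of_le hx]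
    refine setIntegral_eq_zero_of_forall_eq_zero fun t ht => P.zero t ?_
    exact ht.1.le.trans (le_abs_self t)
  rw [h3, h2] at h1
  linarith

lemma u_of_abs_ge {x : ℝ} (hx : 3 ≤ |x|) : P.u x = 0 := by
  rcases le_abs.mp hx with h | h
  · exact P.u_of_ge h
  · rw [← P.u_neg]; exact P.u_of_ge h

lemma S_of_ge {x : ℝ} (hx : 3 ≤ x) : P.S x = P.S 3 + (x - 3) := by
  have h1 := P.S_sub 3 x
  have h3 : ∫ t in (3 : ℝ)..x, P.w t = ∫ _ in (3 : ℝ)..x, (1 : ℝ) := by
    rw [intervalIntegral.integral_of_le hx, intervalIntegral.integral_of_le hx]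
    refine setIntegral_congr_fun measurableSet_Ioc fun t ht => ?_
    simp only [w, P.zero t (ht.1.le.trans (le_abs_self t))]
    simp
  rw [h3] at h1
  simp at h1
  linarith

lemma X_of_ge {s : ℝ} (hs : P.S 3 ≤ s) : P.X s = s - P.S 3 + 3 := by
  have h3 : 3 ≤ P.X s := by
    have := P.strictMono_X.monotone hs
    rwa [P.X_S] at this
  have := P.S_of_ge h3
  rw [P.S_X] at this
  linarith

lemma three_le_S : 3 ≤ P.S 3 := by
  have := P.sub_le_S (show (0 : ℝ) ≤ 3 by norm_num)
  rw [P.S_zero] at this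
  linarith

lemma euc_of_ge {s s' : ℝ} (hs : P.S 3 ≤ s) (hs' : P.S 3 ≤ s') :
    euc (P.γ s) (P.γ s') = |s - s'| := by
  have e : ∀ t, P.S 3 ≤ t → P.γ t = (t - P.S 3 + 3, 0) := by
    intro t ht
    rw [γ, P.X_of_ge ht, P.u_of_ge (by linarith)]
  rw [e s hs, e s' hs', euc_eq_abs (p := (s - P.S 3 + 3, 0)) (q := (s' - P.S 3 + 3, 0)) rfl]
  congr 1
  simp

lemma euc_neg (s s' : ℝ) : euc (P.γ (-s)) (P.γ (-s')) = euc (P.γ s) (P.γ s') := by
  rw [P.γ_neg, P.γ_neg, euc, euc]
  congr 1
  ring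

/-- Chords are not longer than arcs. -/
lemma chord_le {a b : ℝ} (hab : a ≤ b) :
    Real.sqrt ((b - a) ^ 2 + (P.u b - P.u a) ^ 2) ≤ P.S b - P.S a := by
  set A := b - a with hA
  set B := P.u b - P.u a with hB
  set R := Real.sqrt (A ^ 2 + B ^ 2) with hR
  have hR2 : R ^ 2 = A ^ 2 + B ^ 2 := Real.sq_sqrt (by positivity)
  have hR0 : 0 ≤ R := Real.sqrt_nonneg _
  have hi : IntervalIntegrable (fun t => A + B * P.sl t) volume a b :=
    (intervalIntegrable_const).add ((P.ii_sl a b).const_mul B)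
  have h1 : R ^ 2 = ∫ t in a..b, (A + B * P.sl t) := by
    rw [intervalIntegral.integral_add intervalIntegrable_const ((P.ii_sl a b).const_mul B),
      intervalIntegral.integral_const_mul, ← P.u_sub, ← hB, hR2]
    simp only [intervalIntegral.integral_const, smul_eq_mul, ← hA]
    ring
  have h2 : ∫ t in a..b, (A + B * P.sl t) ≤ ∫ t in a..b, R * P.w t := by
    refine intervalIntegral.integral_mono_on hab hi ((P.ii_w a b).const_mul R) fun t _ => ?_
    rw [hR, w, ← Real.sqrt_mul (by positivity)]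
    refine Real.le_sqrt_of_sq_le ?_
    nlinarith [sq_nonneg (A * P.sl t - B)]
  rw [intervalIntegral.integral_const_mul, ← P.S_sub] at h2
  have h3 : R * R ≤ R * (P.S b - P.S a) := by nlinarith
  rcases hR0.eq_or_lt with h | h
  · rw [← h]
    linarith [P.sub_le_S hab]
  · exact le_of_mul_le_mul_left h3 h

lemma euc_le (s s' : ℝ) : euc (P.γ s) (P.γ s') ≤ |s - s'| := by
  wlog h : s' ≤ s generalizing s s'
  · have h1 := this s' s (le_of_not_ge h)
    rw [abs_sub_comm]
    refine le_trans (le_of_eq ?_) h1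
    rw [euc, euc]
    congr 1
    ring
  have := P.chord_le (P.strictMono_X.monotone h)
  rw [P.S_X, P.S_X] at this
  rw [abs_of_nonneg (by linarith)]
  exact this

/-- (a1) -/
lemma a1 : ∃ c ∈ Ioo (0 : ℝ) 1, ∀ s s' : ℝ, c * |s - s'| ≤ euc (P.γ s) (P.γ s') := by
  have hL := P.L_nonneg
  refine ⟨1 / (2 + P.L), ⟨by positivity, by rw [div_lt_one (by positivity)]; linarith⟩,
    fun s s' => ?_⟩
  refine le_trans ?_ (le_euc _ _)
  have h := P.X_bounds s s'
  have hx : 0 ≤ |P.X s - P.X s'| := abs_nonneg _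
  rw [one_div, inv_mul_le_iff₀ (by positivity)]
  change |s - s'| ≤ (2 + P.L) * |P.X s - P.X s'|
  nlinarith

/-- (a2) -/
lemma a2 : ∃ d > (0 : ℝ), ∃ μ > (1 / 2 : ℝ), ∃ om ∈ Ioo (0 : ℝ) 1, ∀ s s' : ℝ, s ≠ s' →
    om < s / s' → s / s' < om⁻¹ →
    1 - euc (P.γ s) (P.γ s') / |s - s'| ≤ d * (1 + |s + s'| ^ (2 * μ)) ^ (-(1 / 2) : ℝ) := by
  set R := P.S 3 with hR
  have hR3 : 3 ≤ R := P.three_le_S
  refine ⟨1 + 3 * R, by positivity, 1, by norm_num, 1 / 2, ⟨by norm_num, by norm_num⟩, ?_⟩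
  intro s s' hne h1 h2
  have hpow : ∀ r : ℝ, |r| ^ (2 * 1 : ℝ) = r ^ 2 := by
    intro r
    rw [mul_one, Real.rpow_two, sq_abs]
  rw [hpow]
  have hpos : 0 < |s - s'| := abs_pos.mpr (sub_ne_zero.mpr hne)
  have hrhs : 0 ≤ (1 + 3 * R) * (1 + (s + s') ^ 2) ^ (-(1 / 2) : ℝ) := by positivity
  -- either both points are on the same straight end
  by_cases hA : R ≤ s ∧ R ≤ s'
  · rw [P.euc_of_ge hA.1 hA.2, div_self hpos.ne']
    linarith
  by_cases hB : R ≤ -s ∧ R ≤ -s'
  · rw [← P.euc_neg, P.euc_of_ge hB.1 hB.2]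
    have : |-s - -s'| = |s - s'| := by
      rw [← abs_neg]; congr 1; ring
    rw [this, div_self hpos.ne']
    linarith
  -- otherwise `|s + s'|` is bounded
  have hs' : s' ≠ 0 := by
    rintro rfl
    simp at h1
    norm_num at h1
  have hq : 0 < s / s' := by linarith
  have hsum : |s + s'| ≤ 3 * R := by
    rw [show (1 / 2 : ℝ)⁻¹ = 2 by norm_num] at h2
    rcases lt_or_gt_of_ne hs' with hneg | hp
    · have e1 : s < s' / 2 := by
        rw [lt_div_iff_of_neg hneg] at h1; linarith
      have e2 : 2 * s' < s := by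
        rw [div_lt_iff_of_neg hneg] at h2; linarith
      rw [not_and_or, not_le, not_le] at hB
      rw [abs_le]
      rcases hB with h | h
      · constructor <;> linarith
      · constructor <;> linarith
    · have e1 : s' / 2 < s := by
        rw [lt_div_iff₀ hp] at h1; linarith
      have e2 : s < 2 * s' := by
        rw [div_lt_iff₀ hp] at h2; linarith
      rw [not_and_or, not_le, not_le] at hA
      rw [abs_le]
      rcases hA with h | h
      · constructor <;> linarith
      · constructor <;> linarith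
  have hge : 1 ≤ (1 + 3 * R) * (1 + (s + s') ^ 2) ^ (-(1 / 2) : ℝ) := by
    have hb : 1 + (s + s') ^ 2 ≤ (1 + 3 * R) ^ 2 := by
      have : (s + s') ^ 2 ≤ (3 * R) ^ 2 := by
        rw [← sq_abs (s + s')]; exact pow_le_pow_left₀ (abs_nonneg _) hsum 2
      nlinarith
    have h3 : (1 + (s + s') ^ 2) ^ (1 / 2 : ℝ) ≤ 1 + 3 * R := by
      rw [← Real.sqrt_eq_rpow, Real.sqrt_le_left (by positivity)]
      exact hb
    rw [Real.rpow_neg (by positivity), ← div_eq_mul_inv, le_div_iff₀ (by positivity), one_mul]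
    exact h3
  have h5 : 0 ≤ euc (P.γ s) (P.γ s') / |s - s'| := div_nonneg (Real.sqrt_nonneg _) hpos.le
  linarith

/-- (a3), if some slope is nonzero on an interval. -/
lemma a3 (h : 3 < P.S 3) : ∃ s s' : ℝ, euc (P.γ s) (P.γ s') < |s - s'| := by
  refine ⟨P.S 3, P.S (-3), ?_⟩
  rw [γ, γ, P.X_S, P.X_S, P.u_neg, euc_eq_abs (p := (3, P.u 3)) (q := (-3, P.u 3)) rfl, P.S_neg]
  rw [abs_of_nonneg (by norm_num), abs_of_nonneg (by linarith)]
  simp only
  linarith

/-! ### Change of variables -/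

/-- The measure `w(x) dx`. -/
noncomputable def ν : Measure ℝ := volume.withDensity fun x => ENNReal.ofReal (P.w x)

lemma ν_Ioo (a b : ℝ) (hab : a ≤ b) : P.ν (Ioo a b) = ENNReal.ofReal (P.S b - P.S a) := by
  rw [ν, withDensity_apply _ measurableSet_Ioo, P.S_sub, intervalIntegral.integral_of_le hab,
    integral_Ioc_eq_integral_Ioo, ofReal_integral_eq_lintegral_ofReal]
  · have := P.ii_w a b
    rw [intervalIntegrable_iff_integrableOn_Ioo_of_le hab] at this
    exact this
  · exact Eventually.of_forall fun x => (P.w_pos x).le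

lemma mp_S : MeasurePreserving P.S P.ν volume := by
  refine ⟨P.continuous_S.measurable, ?_⟩
  refine (Real.measure_ext_Ioo_rat fun a b => ?_).symm
  rw [Measure.map_apply P.continuous_S.measurable measurableSet_Ioo]
  have hpre : P.S ⁻¹' Ioo (a : ℝ) b = Ioo (P.X a) (P.X b) := by
    ext x
    simp only [mem_preimage, mem_Ioo]
    constructor
    · rintro ⟨h1, h2⟩
      exact ⟨by rw [← P.X_S x]; exact P.strictMono_X h1,
        by rw [← P.X_S x]; exact P.strictMono_X h2⟩
    · rintro ⟨h1, h2⟩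
      exact ⟨by rw [← P.S_X a]; exact P.strictMono_S h1,
        by rw [← P.S_X b]; exact P.strictMono_S h2⟩
  rw [hpre, Real.volume_Ioo]
  rcases le_total (a : ℝ) b with hab | hab
  · rw [P.ν_Ioo _ _ (P.strictMono_X.monotone hab), P.S_X, P.S_X]
  · have : Ioo (P.X a) (P.X b) = ∅ := Ioo_eq_empty (not_lt.mpr (P.strictMono_X.monotone hab))
    rw [this, ENNReal.ofReal_of_nonpos (by linarith)]
    simp

lemma mp_X : MeasurePreserving P.X volume P.ν := by
  have h : MeasurePreserving P.iso.toHomeomorph.toMeasurableEquiv P.ν volume := P.mp_S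
  exact h.symm

lemma integral_comp_X {E : Type*} [NormedAddCommGroup E] [NormedSpace ℝ E] (f : ℝ → E) :
    ∫ s, f (P.X s) = ∫ x, P.w x • f x := by
  have hme : MeasurableEmbedding P.X := P.iso.symm.toHomeomorph.measurableEmbedding
  rw [P.mp_X.integral_comp hme, ν, integral_withDensity_eq_integral_toReal_smul]
  · congr 1
    ext x
    rw [ENNReal.toReal_ofReal (P.w_pos x).le]
  · exact P.meas_w.ennreal_ofReal
  · exact Eventually.of_forall fun x => ENNReal.ofReal_lt_top

end Prof

end Pool.Agent.Helper98.LC
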