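import Mathlib

/-! The definitions used in the statement about leaky curves. -/

open MeasureTheory Set Filter Topology
open scoped ContDiff ComplexConjugate

namespace Pool.Agent.Helper98.LC

/-- Euclidean distance in the plane. -/
noncomputable def euc (p q : ℝ × ℝ) : ℝ := Real.sqrt ((p.1 - q.1) ^ 2 + (p.2 - q.2) ^ 2)

/-- A continuous, piecewise `C¹` curve parametrised by arc length: off the finite set `F` the curve
is `C¹` up to the ends of each piece, with unit speed. -/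
def IsArcLengthCurve (γ : ℝ → ℝ × ℝ) : Prop :=
  Continuous γ ∧ ∃ F : Finset ℝ, ∀ a b : ℝ, a < b → (∀ s ∈ Ioo a b, s ∉ F) →
    ContDiffOn ℝ 1 γ (Icc a b) ∧ ∀ s ∈ Ioo a b, (deriv γ s).1 ^ 2 + (deriv γ s).2 ^ 2 = 1

/-- Test functions: smooth with compact support. -/
def IsTest (φ : ℝ × ℝ → ℂ) : Prop := ContDiff ℝ ∞ φ ∧ HasCompactSupport φ

/-- The derivative in the first variable. -/
noncomputable def dx (φ : ℝ × ℝ → ℂ) (z : ℝ × ℝ) : ℂ := fderiv ℝ φ z (1, 0)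

/-- The derivative in the second variable. -/
noncomputable def dy (φ : ℝ × ℝ → ℂ) (z : ℝ × ℝ) : ℂ := fderiv ℝ φ z (0, 1)

/-- `ψ` belongs to the form domain `W^{1,2}`, it has gradient `(g₁, g₂)` and trace `h` on the curve
`γ`: the quadruple is the limit in the `L²` norms of quadruples `(φ, dx φ, dy φ, φ ∘ γ)` of test
functions `φ`. -/
def HasGradTrace (γ : ℝ → ℝ × ℝ) (ψ g₁ g₂ : Lp ℂ 2 (volume : Measure (ℝ × ℝ)))
    (h : Lp ℂ 2 (volume : Measure ℝ)) : Prop :=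
  ∃ φ : ℕ → ℝ × ℝ → ℂ, (∀ n, IsTest (φ n)) ∧
    Tendsto (fun n => eLpNorm (fun z => φ n z - ψ z) 2 volume) atTop (𝓝 0) ∧
    Tendsto (fun n => eLpNorm (fun z => dx (φ n) z - g₁ z) 2 volume) atTop (𝓝 0) ∧
    Tendsto (fun n => eLpNorm (fun z => dy (φ n) z - g₂ z) 2 volume) atTop (𝓝 0) ∧
    Tendsto (fun n => eLpNorm (fun s => φ n (γ s) - h s) 2 volume) atTop (𝓝 0)

/-- `ψ` is in the operator domain and `H ψ = E ψ`, where `H` is the operator of the form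
`∫ |∇ψ|² - α ∫ |ψ(γ(s))|² ds`: that is, `ψ` is in the form domain and
`∫ ∇ψ · conj ∇φ - α ∫ ψ(γ(s)) conj (φ(γ(s))) ds = E ∫ ψ conj φ` for all `φ` in the form domain. -/
def IsEigenfunction (α : ℝ) (γ : ℝ → ℝ × ℝ) (E : ℝ) (ψ : Lp ℂ 2 (volume : Measure (ℝ × ℝ))) :
    Prop :=
  ∃ (g₁ g₂ : Lp ℂ 2 (volume : Measure (ℝ × ℝ))) (h : Lp ℂ 2 (volume : Measure ℝ)),
    HasGradTrace γ ψ g₁ g₂ h ∧
    ∀ (φ k₁ k₂ : Lp ℂ 2 (volume : Measure (ℝ × ℝ))) (l : Lp ℂ 2 (volume : Measure ℝ)),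
      HasGradTrace γ φ k₁ k₂ l →
      (∫ z, (g₁ z * conj (k₁ z) + g₂ z * conj (k₂ z))) - α * ∫ s, h s * conj (l s)
        = E * ∫ z, ψ z * conj (φ z)

end Pool.Agent.Helper98.LC
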