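import Pool.Agent.Helper98.LC.Main

/-! From eigenvectors in `H¹` of given parity to eigenfunctions of the leaky curve operator. -/

open MeasureTheory Set Filter Topology
open scoped ContDiff InnerProductSpace ComplexConjugate

namespace Pool.Agent.Helper98.LC

section

variable {e e' : ℂ}

lemma jj_eq {φ ψ : ℝ × ℝ → ℂ} (h : IsTest φ) (h' : IsTest ψ) (he : φ = ψ) : jj h = jj h' := by
  subst he; rfl

lemma tt_eq (P : Prof) {φ ψ : ℝ × ℝ → ℂ} (h : IsTest φ) (h' : IsTest ψ) (he : φ = ψ) :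
    tt P h = tt P h' := by
  subst he; rfl

lemma tt_add (P : Prof) {φ ψ : ℝ × ℝ → ℂ} (h : IsTest φ) (h' : IsTest ψ) :
    tt P (h.add h') = tt P h + tt P h' :=
  MemLp.toLp_add (h.memLp_curve P) (h'.memLp_curve P)

lemma orth_HE (he : conj e * e' = -1) (v : HE e) (ψ : Par e') : ⟪(v : HH), jj (isT ψ)⟫_ℂ = 0 := by
  refine extend_eq (F := fun v : HE e => ⟪(v : HH), jj (isT ψ)⟫_ℂ) (G := fun _ => 0)
    (by fun_prop) continuous_const (fun φ => ?_) v
  simp only [jE_coe]
  obtain ⟨h1, h2, h3⟩ := orth_components φ ψ he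
  rw [inner_jj, h1, h2, h3]; simp

lemma orth_T (m : Pm) (he : conj e * e' = -1) (h1 : ‖e‖ = 1) (t : ℝ) (v : HE e) (ψ : Par e') :
    ⟪m.T e t v, tt (m.fam t).prof (isT ψ)⟫_ℂ = 0 := by
  refine extend_eq (F := fun v : HE e => ⟪m.T e t v, tt (m.fam t).prof (isT ψ)⟫_ℂ)
    (G := fun _ => 0) (by fun_prop) continuous_const (fun φ => ?_) v
  simp only [m.T_apply h1]
  exact orth_trace _ φ ψ he

/-- The eigenvalue equation tested with all test functions. -/
lemma eig_all (m : Pm) {t lam : ℝ} (he : conj e * e' = -1) (h1 : ‖e‖ = 1) (hee : e * e = 1)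
    (hee' : e' * e' = 1) (hs : e + e' = 0) {v : HE e}
    (hv : ∀ w, ⟪m.T e t v, m.T e t w⟫_ℂ = lam * ⟪v, w⟫_ℂ) {φ : ℝ × ℝ → ℂ} (hφ : IsTest φ) :
    ⟪m.T e t v, tt (m.fam t).prof hφ⟫_ℂ = lam * ⟪(v : HH), jj hφ⟫_ℂ := by
  have hsum := part_add hφ hee hee' hs
  have hj : jj hφ = jj (isT (part hφ e hee)) + jj (isT (part hφ e' hee')) :=
    (jj_eq hφ ((isT (part hφ e hee)).add (isT (part hφ e' hee'))) hsum).trans
      (jj_add (isT (part hφ e hee)) (isT (part hφ e' hee')))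
  have ht : tt (m.fam t).prof hφ = tt (m.fam t).prof (isT (part hφ e hee))
      + tt (m.fam t).prof (isT (part hφ e' hee')) :=
    (tt_eq _ hφ ((isT (part hφ e hee)).add (isT (part hφ e' hee'))) hsum).trans
      (tt_add _ (isT (part hφ e hee)) (isT (part hφ e' hee')))
  rw [hj, ht, inner_add_right, inner_add_right, orth_HE he, orth_T m he h1]
  have h2 := hv (jE e (part hφ e hee))
  rw [m.T_apply h1] at h2
  rw [h2, add_zero, add_zero]
  rfl

/-- Elements of `H¹` are in the form domain. -/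
lemma hasGradTrace (m : Pm) (h1 : ‖e‖ = 1) (t : ℝ) (v : HE e) :
    HasGradTrace (m.fam t).prof.γ (comp e 0 v) (comp e 1 v) (comp e 2 v) (m.T e t v) := by
  obtain ⟨w, hw, hlim⟩ := mem_closure_iff_seq_limit.mp (denseRange_jE e v)
  choose φ hφ using hw
  have hlim' : Tendsto (fun n => jE e (φ n)) atTop (𝓝 v) := by
    simpa only [hφ] using hlim
  refine ⟨fun n => φ n, fun n => isT (φ n), ?_, ?_, ?_, ?_⟩
  · have h2 := ((comp e 0).continuous.tendsto v).comp hlim'
    rw [Lp.tendsto_Lp_iff_tendsto_eLpNorm'] at h2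
    refine h2.congr fun n => eLpNorm_congr_ae ?_
    filter_upwards [(isT (φ n)).memLp.coeFn_toLp] with z hz
    simp only [Function.comp_apply, Pi.sub_apply, comp_zero_jE, hz]
  · have h2 := ((comp e 1).continuous.tendsto v).comp hlim'
    rw [Lp.tendsto_Lp_iff_tendsto_eLpNorm'] at h2
    refine h2.congr fun n => eLpNorm_congr_ae ?_
    filter_upwards [(isT (φ n)).memLp_dx.coeFn_toLp] with z hz
    simp only [Function.comp_apply, Pi.sub_apply, comp_one_jE, hz]
  · have h2 := ((comp e 2).continuous.tendsto v).comp hlim'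
    rw [Lp.tendsto_Lp_iff_tendsto_eLpNorm'] at h2
    refine h2.congr fun n => eLpNorm_congr_ae ?_
    filter_upwards [(isT (φ n)).memLp_dy.coeFn_toLp] with z hz
    simp only [Function.comp_apply, Pi.sub_apply, comp_two_jE, hz]
  · have h2 := ((m.T e t).continuous.tendsto v).comp hlim'
    rw [Lp.tendsto_Lp_iff_tendsto_eLpNorm'] at h2
    refine h2.congr fun n => eLpNorm_congr_ae ?_
    filter_upwards [((isT (φ n)).memLp_curve (m.fam t).prof).coeFn_toLp] with z hz
    simp only [Function.comp_apply, Pi.sub_apply, m.T_apply h1, tt, hz]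

lemma inner_eq_integral {α : Type*} [MeasurableSpace α] {μ : Measure α} (f g : Lp ℂ 2 μ) :
    ⟪f, g⟫_ℂ = ∫ x, g x * conj (f x) ∂μ := by
  rw [L2.inner_def]; rfl

lemma integrable_mul_conj {α : Type*} [MeasurableSpace α] {μ : Measure α} (f g : Lp ℂ 2 μ) :
    Integrable (fun x => g x * conj (f x)) μ := L2.integrable_inner (𝕜 := ℂ) f g

/-- The eigenfunctions. -/
lemma isEigenfunction (m : Pm) {t lam : ℝ} (hlam : 0 < lam) (he : conj e * e' = -1) (h1 : ‖e‖ = 1)
    (hee : e * e = 1) (hee' : e' * e' = 1) (hs : e + e' = 0) {v : HE e}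
    (hv : ∀ w, ⟪m.T e t v, m.T e t w⟫_ℂ = lam * ⟪v, w⟫_ℂ) :
    IsEigenfunction (1 / lam) (m.fam t).prof.γ (-1) (comp e 0 v) := by
  refine ⟨comp e 1 v, comp e 2 v, m.T e t v, hasGradTrace m h1 t v, ?_⟩
  rintro φ k₁ k₂ l ⟨χ, hχ, l0, l1, l2, l3⟩
  -- convergence of the test functions in the `L²` spaces
  have c0 : Tendsto (fun n => (hχ n).memLp.toLp (χ n)) atTop (𝓝 φ) := by
    have := (Lp.tendsto_Lp_iff_tendsto_eLpNorm'' (p := 2) (fun n => χ n)
      (fun n => (hχ n).memLp) φ (Lp.memLp φ)).mpr l0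
    rwa [Lp.toLp_coeFn] at this
  have c1 : Tendsto (fun n => (hχ n).memLp_dx.toLp (dx (χ n))) atTop (𝓝 k₁) := by
    have := (Lp.tendsto_Lp_iff_tendsto_eLpNorm'' (p := 2) (fun n => dx (χ n))
      (fun n => (hχ n).memLp_dx) k₁ (Lp.memLp k₁)).mpr l1
    rwa [Lp.toLp_coeFn] at this
  have c2 : Tendsto (fun n => (hχ n).memLp_dy.toLp (dy (χ n))) atTop (𝓝 k₂) := by
    have := (Lp.tendsto_Lp_iff_tendsto_eLpNorm'' (p := 2) (fun n => dy (χ n))
      (fun n => (hχ n).memLp_dy) k₂ (Lp.memLp k₂)).mpr l2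
    rwa [Lp.toLp_coeFn] at this
  have c3 : Tendsto (fun n => tt (m.fam t).prof (hχ n)) atTop (𝓝 l) := by
    have := (Lp.tendsto_Lp_iff_tendsto_eLpNorm'' (p := 2) (fun n s => χ n ((m.fam t).prof.γ s))
      (fun n => (hχ n).memLp_curve _) l (Lp.memLp l)).mpr l3
    rwa [Lp.toLp_coeFn] at this
  have key : ∀ n, ⟪tt (m.fam t).prof (hχ n), m.T e t v⟫_ℂ
      = lam * (⟪(hχ n).memLp.toLp (χ n), comp e 0 v⟫_ℂ
        + ⟪(hχ n).memLp_dx.toLp (dx (χ n)), comp e 1 v⟫_ℂ
        + ⟪(hχ n).memLp_dy.toLp (dy (χ n)), comp e 2 v⟫_ℂ) := by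
    intro n
    have h2 := congrArg conj (eig_all m he h1 hee hee' hs hv (hχ n))
    rw [map_mul, inner_conj_symm, inner_conj_symm, Complex.conj_ofReal] at h2
    rw [h2, PiLp.inner_apply, Fin.sum_univ_three]
    rfl
  have lim1 : Tendsto (fun n => ⟪tt (m.fam t).prof (hχ n), m.T e t v⟫_ℂ) atTop
      (𝓝 ⟪l, m.T e t v⟫_ℂ) := c3.inner tendsto_const_nhds
  have lim2 : Tendsto (fun n => (lam : ℂ) * (⟪(hχ n).memLp.toLp (χ n), comp e 0 v⟫_ℂ
        + ⟪(hχ n).memLp_dx.toLp (dx (χ n)), comp e 1 v⟫_ℂ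
        + ⟪(hχ n).memLp_dy.toLp (dy (χ n)), comp e 2 v⟫_ℂ)) atTop
      (𝓝 (lam * (⟪φ, comp e 0 v⟫_ℂ + ⟪k₁, comp e 1 v⟫_ℂ + ⟪k₂, comp e 2 v⟫_ℂ))) :=
    (((c0.inner tendsto_const_nhds).add (c1.inner tendsto_const_nhds)).add
      (c2.inner tendsto_const_nhds)).const_mul _
  simp only [key] at lim1
  have fin := tendsto_nhds_unique lim1 lim2
  rw [integral_add (integrable_mul_conj k₁ _) (integrable_mul_conj k₂ _), ← inner_eq_integral,
    ← inner_eq_integral, ← inner_eq_integral, ← inner_eq_integral, fin]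
  have hl : (lam : ℂ) ≠ 0 := by exact_mod_cast hlam.ne'
  push_cast
  field_simp
  ring

end

/-- The two first components are linearly independent. -/
lemma linInd {v : HE 1} {w : HE (-1)} (hv : ‖v‖ = 1) (hw : ‖w‖ = 1) :
    LinearIndependent ℂ ![comp 1 0 v, comp (-1) 0 w] := by
  have horth : ∀ (v : HE 1) (w : HE (-1)), ⟪comp 1 0 v, comp (-1) 0 w⟫_ℂ = 0 := by
    intro v w
    refine extend_eq (F := fun v : HE 1 => ⟪comp 1 0 v, comp (-1) 0 w⟫_ℂ) (G := fun _ => 0)
      (by fun_prop) continuous_const (fun φ => ?_) v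
    refine extend_eq (F := fun w : HE (-1) => ⟪comp 1 0 (jE 1 φ), comp (-1) 0 w⟫_ℂ)
      (G := fun _ => 0) (by fun_prop) continuous_const (fun ψ => ?_) w
    simp only [comp_zero_jE, inner_toLp]
    exact (orth_components φ ψ (by simp)).1
  have hv0 : comp 1 0 v ≠ 0 := comp_zero_ne_zero (by
    intro h; rw [h, norm_zero] at hv; exact zero_ne_one hv)
  have hw0 : comp (-1) 0 w ≠ 0 := comp_zero_ne_zero (by
    intro h; rw [h, norm_zero] at hw; exact zero_ne_one hw)
  refine linearIndependent_of_ne_zero_of_inner_eq_zero (𝕜 := ℂ) ?_ ?_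
  · intro i
    fin_cases i
    · exact hv0
    · exact hw0
  · intro i j hij
    fin_cases i <;> fin_cases j
    · exact absurd rfl hij
    · exact horth v w
    · exact inner_eq_zero_symm.mp (horth v w)
    · exact absurd rfl hij

/-- The curve is longer than the axis. -/
lemma three_lt_S (m : Pm) (t : ℝ) : 3 < (m.fam t).prof.S 3 := by
  have hD := m.D_pos
  have hk := m.hk
  have h3 := m.h3
  set N := m.fam t with hN
  set P := N.prof with hP
  have hND : (N.D : ℝ) = m.D := rfl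
  have h1D : (1 : ℝ) / m.D ≤ 3 := by
    rw [div_le_iff₀ hD]
    have : (1 : ℝ) ≤ m.D := by exact_mod_cast m.hD
    linarith
  have e1 := P.sub_le_S h1D
  have e2 : 1 / (m.D : ℝ) < P.S (1 / m.D) := by
    have c1 := P.chord_le (a := 0) (b := 1 / m.D) (by positivity)
    have c2 : P.u (1 / m.D) = 1 := by
      have h4 := N.u_node 1
      rw [hND] at h4
      have h5 : N.v 1 = 1 := by
        rcases m.cellQ t (i := 0) (by omega) with h | h
        · exact h.2
        · have := N.v0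
          rw [hN, h.1] at this
          norm_num at this
      rw [h5] at h4
      simpa using h4
    rw [c2, P.u_zero, P.S_zero, sub_zero, sub_zero, sub_zero] at c1
    refine lt_of_lt_of_le ?_ c1
    rw [Real.lt_sqrt (by positivity)]
    linarith
  linarith

end Pool.Agent.Helper98.LC
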