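import Pool.Agent.Helper98.LC.Test

/-! The mean of a test function over a square and a pointwise bound for the difference. -/

open MeasureTheory Set Filter Topology
open scoped ContDiff InnerProductSpace ComplexConjugate

namespace Pool.Agent.Helper98.LC

/-- The closed square with lower left corner `(a, b)` and side `l`. -/
def sqr (a b l : ℝ) : Set (ℝ × ℝ) := Icc a (a + l) ×ˢ Icc b (b + l)

lemma measurableSet_sqr (a b l : ℝ) : MeasurableSet (sqr a b l) :=
  measurableSet_Icc.prod measurableSet_Icc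

lemma volume_sqr (a b l : ℝ) : volume (sqr a b l) = ENNReal.ofReal l * ENNReal.ofReal l := by
  rw [sqr, Measure.volume_eq_prod, Measure.prod_prod, Real.volume_Icc, Real.volume_Icc]
  simp

lemma volume_sqr_ne_top (a b l : ℝ) : volume (sqr a b l) ≠ ⊤ := by
  rw [volume_sqr]; exact ENNReal.mul_ne_top ENNReal.ofReal_ne_top ENNReal.ofReal_ne_top

/-- The mean over the square. -/
noncomputable def sqMean (a b l : ℝ) (φ : ℝ × ℝ → ℂ) : ℂ :=
  ((l ^ 2 : ℝ) : ℂ)⁻¹ * ∫ z in sqr a b l, φ z

lemma IsTest.sub_sqMean_le {φ : ℝ × ℝ → ℂ} (h : IsTest φ) {a b l : ℝ} (hl : 0 < l) {x y : ℝ}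
    (hx : x ∈ Icc a (a + l)) (hy : y ∈ Icc b (b + l)) :
    ‖φ (x, y) - sqMean a b l φ‖ ^ 2
      ≤ 2 * l * rowE φ y + 2 * ∫ t in Icc b (b + l), rowE φ t := by
  set c : ℂ := φ (x, y) with hc
  set μ : Measure (ℝ × ℝ) := volume.restrict (sqr a b l) with hμ
  have hfin : IsFiniteMeasure μ := ⟨by
    rw [hμ, Measure.restrict_apply_univ]; exact (volume_sqr_ne_top a b l).lt_top⟩
  have hreal : μ.real univ = l ^ 2 := by
    rw [hμ, measureReal_restrict_apply_univ, measureReal_def, volume_sqr, ENNReal.toReal_mul,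
      ENNReal.toReal_ofReal hl.le, sq]
  have hcont : Continuous fun z => ‖c - φ z‖ := (continuous_const.sub h.continuous).norm
  have hK : IsCompact (sqr a b l) := isCompact_Icc.prod isCompact_Icc
  have i1 : Integrable (fun z => ‖c - φ z‖) μ := hcont.continuousOn.integrableOn_compact hK
  have i2 : Integrable (fun z => ‖c - φ z‖ ^ 2) μ :=
    (hcont.pow 2).continuousOn.integrableOn_compact hK
  have hφi : Integrable φ μ := h.continuous.continuousOn.integrableOn_compact hK
  -- first step: pass to the mean of squares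
  have s1 : l ^ 2 * ‖c - sqMean a b l φ‖ ^ 2 ≤ ∫ z, ‖c - φ z‖ ^ 2 ∂μ := by
    have e1 : ∫ z, (c - φ z) ∂μ = ((l ^ 2 : ℝ) : ℂ) * (c - sqMean a b l φ) := by
      rw [integral_sub (integrable_const _) hφi, integral_const, hreal, sqMean, mul_sub,
        ← mul_assoc, mul_inv_cancel₀ (by exact_mod_cast (by positivity : (l ^ 2 : ℝ) ≠ 0)),
        one_mul]
      simp [hμ]
    have e2 : ‖∫ z, (c - φ z) ∂μ‖ ^ 2 ≤ l ^ 2 * ∫ z, ‖c - φ z‖ ^ 2 ∂μ := by
      refine (pow_le_pow_left₀ (norm_nonneg _) (norm_integral_le_integral_norm _) 2).trans ?_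
      have := sq_integral_le μ i1 i2
      rwa [hreal] at this
    rw [e1, norm_mul, Complex.norm_real, Real.norm_of_nonneg (by positivity), mul_pow] at e2
    have hl2 : (0 : ℝ) < l ^ 2 := by positivity
    nlinarith
  -- second step: pointwise bound of the integrand
  set C : ℝ → ℝ := fun x' => ∫ t in Icc b (b + l), ‖dy φ (x', t)‖ ^ 2 with hC
  have s2 : ∀ z ∈ sqr a b l, ‖c - φ z‖ ^ 2 ≤ 2 * (l * rowE φ y) + 2 * (l * C z.1) := by
    rintro ⟨x', y'⟩ ⟨hx', hy'⟩
    simp only at hx' hy'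
    have t1 : ‖c - φ (x', y)‖ ^ 2 ≤ l * rowE φ y := by
      refine (h.row_diff_le x' x y).trans ?_
      refine mul_le_mul_of_nonneg_right ?_ (rowE_nonneg φ y)
      rw [abs_le]; constructor <;> linarith [hx.1, hx.2, hx'.1, hx'.2]
    have t2 : ‖φ (x', y) - φ (x', y')‖ ^ 2 ≤ l * C x' := by
      have := diff_sq_le_of_mem (h.contDiff_col x') hy' hy
      simp only [h.deriv_col] at this
      exact this
    have t3 : ‖c - φ (x', y')‖ ≤ ‖c - φ (x', y)‖ + ‖φ (x', y) - φ (x', y')‖ :=
      norm_sub_le_norm_sub_add_norm_sub _ _ _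
    have t4 : ‖c - φ (x', y')‖ ^ 2 ≤ (‖c - φ (x', y)‖ + ‖φ (x', y) - φ (x', y')‖) ^ 2 :=
      pow_le_pow_left₀ (norm_nonneg _) t3 2
    nlinarith [sq_nonneg (‖c - φ (x', y)‖ - ‖φ (x', y) - φ (x', y')‖)]
  -- integrability of the bound
  have hEi : Integrable (fun z => ‖dy φ z‖ ^ 2) (volume : Measure (ℝ × ℝ)) :=
    (h.continuous_dy.norm.pow 2).integrable_of_hasCompactSupport
      (hasCompactSupport_norm_sq h.hcs_dy)
  have hprod : μ = (volume.restrict (Icc a (a + l))).prod (volume.restrict (Icc b (b + l))) := by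
    rw [hμ, sqr, Measure.volume_eq_prod, Measure.prod_restrict]
  have hEi' : Integrable (fun z : ℝ × ℝ => ‖dy φ z‖ ^ 2)
      ((volume.restrict (Icc a (a + l))).prod (volume.restrict (Icc b (b + l)))) := by
    rw [← hprod]; exact hEi.restrict
  have hCi : Integrable C (volume.restrict (Icc a (a + l))) := hEi'.integral_prod_left
  have hCz : Integrable (fun z : ℝ × ℝ => C z.1) μ := by
    rw [hprod]; exact hCi.comp_fst _
  have s3 : ∫ z, ‖c - φ z‖ ^ 2 ∂μ
      ≤ 2 * (l * rowE φ y) * l ^ 2 + 2 * (l * (l * ∫ x' in Icc a (a + l), C x')) := by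
    have m1 : ∫ z, ‖c - φ z‖ ^ 2 ∂μ ≤ ∫ z, (2 * (l * rowE φ y) + 2 * (l * C z.1)) ∂μ := by
      refine integral_mono_ae i2 ((integrable_const _).add ((hCz.const_mul l).const_mul 2)) ?_
      rw [hμ]
      filter_upwards [ae_restrict_mem (measurableSet_sqr a b l)] with z hz
      exact s2 z hz
    refine m1.trans (le_of_eq ?_)
    rw [integral_add (integrable_const _) ((hCz.const_mul l).const_mul 2), integral_const,
      integral_const_mul, integral_const_mul, hreal]
    have e3 : ∫ z, C z.1 ∂μ = l * ∫ x' in Icc a (a + l), C x' := by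
      rw [hprod, integral_fun_fst, measureReal_restrict_apply_univ,
        Real.volume_real_Icc_of_le (by linarith)]
      simp
    rw [e3, smul_eq_mul]
    ring
  -- Fubini for the column term
  have s4 : ∫ x' in Icc a (a + l), C x' ≤ ∫ t in Icc b (b + l), rowE φ t := by
    have e4 : ∫ x' in Icc a (a + l), C x'
        = ∫ t in Icc b (b + l), ∫ x' in Icc a (a + l), ‖dy φ (x', t)‖ ^ 2 := by
      rw [hC]
      exact integral_integral_swap hEi'
    rw [e4]
    refine integral_mono hEi'.integral_prod_right (h.integrable_rowE.restrict) fun t => ?_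
    have hrow : Integrable (fun x' => ‖dy φ (x', t)‖ ^ 2) :=
      integrable_norm_sq (h.continuous_dy.comp (by fun_prop)) (hcs_row h.hcs_dy t)
    refine (setIntegral_le_integral hrow (Eventually.of_forall fun _ => by positivity)).trans ?_
    refine integral_mono hrow (h.integrable_en_row t) fun x' => ?_
    simp only [en]
    have : 0 ≤ ‖dx φ (x', t)‖ ^ 2 := by positivity
    have : 0 ≤ ‖φ (x', t)‖ ^ 2 := by positivity
    linarith
  have hl2 : (0 : ℝ) < l ^ 2 := by positivity
  have s5 : l ^ 2 * ‖c - sqMean a b l φ‖ ^ 2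
      ≤ l ^ 2 * (2 * l * rowE φ y + 2 * ∫ t in Icc b (b + l), rowE φ t) := by
    refine (s1.trans s3).trans ?_
    have : 2 * (l * (l * ∫ x' in Icc a (a + l), C x'))
        ≤ 2 * (l * (l * ∫ t in Icc b (b + l), rowE φ t)) := by gcongr
    linarith
  exact le_of_mul_le_mul_left s5 hl2

end Pool.Agent.Helper98.LC
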