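import Pool.Agent.Helper98.LC.Cells
import Pool.Agent.Helper98.LC.Square

/-! The one-parameter family of curves and its trace estimates. -/

open MeasureTheory Set Filter Topology
open scoped ContDiff InnerProductSpace ComplexConjugate

namespace Pool.Agent.Helper98.LC

/-- Parameters: `2k` cells next to the axis, `2p` cells next to the abscissa `2`, cells of width
`1/D`. -/
structure Pm where
  k : ℕ
  p : ℕ
  D : ℕ
  hk : 0 < k
  hp : 0 < p
  h1 : 8 * (k * k) ≤ D
  h2 : 4 * (p * p) ≤ D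
  h3 : 32 * (k + p) ≤ D

namespace Pm

variable (m : Pm)

lemma hD : 0 < m.D := by have := m.h3; have := m.hk; omega

lemma D_pos : (0 : ℝ) < m.D := by exact_mod_cast m.hD

lemma p_pos : (0 : ℝ) < m.p := by exact_mod_cast m.hp

/-- The height of the side teeth. -/
noncomputable def h : ℝ := 1 / (2 * m.p)

lemma h_pos : 0 < m.h := by have := m.p_pos; unfold h; positivity

lemma h_le_one : m.h ≤ 1 := by
  have h1 : (1 : ℝ) ≤ m.p := by exact_mod_cast m.hp
  rw [h, div_le_one (by positivity)]; linarith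

lemma two_p_h : 2 * m.p * m.h = 1 := by
  have := m.p_pos
  rw [h]; field_simp

/-- Truncation of the parameter to the unit interval. -/
noncomputable def cl (t : ℝ) : ℝ := max 0 (min t 1)

lemma cl_mem (t : ℝ) : cl t ∈ Icc (0 : ℝ) 1 := ⟨le_max_left _ _, max_le zero_le_one (min_le_right _ _)⟩

lemma cl_zero : cl 0 = 0 := by simp [cl]

lemma cl_one : cl 1 = 1 := by simp [cl]

lemma cl_sub (s t : ℝ) : |cl t - cl s| ≤ |t - s| := by
  unfold cl
  refine (abs_max_sub_max_le_max _ _ _ _ ).trans ?_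
  simp only [sub_self, abs_zero]
  refine max_le (abs_nonneg _) ?_
  refine (abs_min_sub_min_le_max _ _ _ _).trans ?_
  simp

/-- Node values. -/
noncomputable def val (t : ℝ) (i : ℕ) : ℝ :=
  if Odd i ∧ i < 2 * m.k then 1
  else if Odd i ∧ 2 * m.D < i ∧ i < 2 * m.D + 2 * m.p then cl t * m.h else 0

/-- The node data of the family. -/
noncomputable def fam (t : ℝ) : Nodes where
  D := m.D
  v := m.val t
  hD := m.hD
  v0 := by simp [val]
  h01 := fun i => by
    unfold val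
    have h1 := cl_mem t
    have h2 := m.h_pos
    have h3 := m.h_le_one
    split_ifs
    · simp
    · exact ⟨mul_nonneg h1.1 h2.le, mul_le_one₀ h1.2 h2.le h3⟩
    · simp
  hz := fun i hi => by
    unfold val
    have h2 := m.h2
    have h3 := m.h3
    have hp := m.hp
    rw [if_neg (by rintro ⟨-, h⟩; omega), if_neg (by rintro ⟨-, -, h⟩; omega)]

lemma fam_D (t : ℝ) : (m.fam t).D = m.D := rfl

lemma fam_v (t : ℝ) : (m.fam t).v = m.val t := rfl

lemma cellQ (t : ℝ) {i : ℕ} (hi : i < 2 * m.k) :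
    ((m.fam t).v i = 0 ∧ (m.fam t).v (i + 1) = 1) ∨
      ((m.fam t).v i = 1 ∧ (m.fam t).v (i + 1) = 0) := by
  rw [fam_v]
  have h3 := m.h3
  rcases Nat.even_or_odd i with he | ho
  · left
    have hno : ¬ Odd i := Nat.not_odd_iff_even.mpr he
    have h1 : i + 1 < 2 * m.k := by
      obtain ⟨r, hr⟩ := he; omega
    constructor
    · rw [val, if_neg (fun h => hno h.1), if_neg (fun h => hno h.1)]
    · rw [val, if_pos ⟨he.add_one, h1⟩]
  · right
    have hno : ¬ Odd (i + 1) := Nat.not_odd_iff_even.mpr ho.add_one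
    constructor
    · rw [val, if_pos ⟨ho, hi⟩]
    · rw [val, if_neg (fun h => hno h.1), if_neg (fun h => hno h.1)]

lemma cellP (t : ℝ) {i : ℕ} (hi : i < 2 * m.p) :
    ((m.fam t).v (2 * m.D + i) = 0 ∧ (m.fam t).v (2 * m.D + i + 1) = cl t * m.h) ∨
      ((m.fam t).v (2 * m.D + i) = cl t * m.h ∧ (m.fam t).v (2 * m.D + i + 1) = 0) := by
  rw [fam_v]
  have h3 := m.h3
  rcases Nat.even_or_odd (2 * m.D + i) with he | ho
  · left
    have hno : ¬ Odd (2 * m.D + i) := Nat.not_odd_iff_even.mpr he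
    have h1 : 2 * m.D + i + 1 < 2 * m.D + 2 * m.p := by
      obtain ⟨r, hr⟩ := he; omega
    constructor
    · rw [val, if_neg (fun h => hno h.1), if_neg (fun h => hno h.1)]
    · rw [val, if_neg (fun h => by have := h.2; omega), if_pos ⟨he.add_one, by omega, h1⟩]
  · right
    have hno : ¬ Odd (2 * m.D + i + 1) := Nat.not_odd_iff_even.mpr ho.add_one
    have h1 : 2 * m.D < 2 * m.D + i := by
      obtain ⟨r, hr⟩ := ho; omega
    constructor
    · rw [val, if_neg (fun h => by have := h.2; omega), if_pos ⟨ho, h1, by omega⟩]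
    · rw [val, if_neg (fun h => hno h.1), if_neg (fun h => hno h.1)]

lemma cell0 (t : ℝ) {i : ℕ} (h1 : 2 * m.k ≤ i) (h2 : i < 2 * m.D ∨ 2 * m.D + 2 * m.p ≤ i) :
    (m.fam t).s i = 0 := by
  have e1 : (m.fam t).v i = 0 := by
    rw [fam_v, val, if_neg (by omega), if_neg (by omega)]
  have e2 : (m.fam t).v (i + 1) = 0 := by
    rw [fam_v, val, if_neg (by omega), if_neg (by omega)]
  rw [Nodes.s, e1, e2]; simp

lemma sum_Z (t : ℝ) (φ : ℝ × ℝ → ℂ) :
    ∑ i ∈ Finset.range (3 * m.D), (m.fam t).Z φ i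
      = (∑ i ∈ Finset.range (2 * m.k), (m.fam t).Z φ i)
        + ∑ i ∈ Finset.range (2 * m.p), (m.fam t).Z φ (2 * m.D + i) := by
  have h3 := m.h3
  have hp := m.hp
  have hk := m.hk
  have hz : ∀ i, 2 * m.k ≤ i → (i < 2 * m.D ∨ 2 * m.D + 2 * m.p ≤ i) → (m.fam t).Z φ i = 0 := by
    intro i h1 h2
    rw [Nodes.Z, m.cell0 t h1 h2]; simp
  have s1 : ∑ i ∈ Finset.range (3 * m.D), (m.fam t).Z φ i
      = (∑ i ∈ Finset.range (2 * m.D), (m.fam t).Z φ i)
        + ∑ i ∈ Finset.range (m.D), (m.fam t).Z φ (2 * m.D + i) := by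
    rw [← Finset.sum_range_add]
    congr 2
    ring
  have s2 : ∑ i ∈ Finset.range (2 * m.D), (m.fam t).Z φ i
      = ∑ i ∈ Finset.range (2 * m.k), (m.fam t).Z φ i := by
    refine (Finset.sum_subset (Finset.range_subset_range.mpr (by omega)) fun i hi hni => ?_).symm
    rw [Finset.mem_range] at hi hni
    exact hz i (by omega) (by omega)
  have s3 : ∑ i ∈ Finset.range (m.D), (m.fam t).Z φ (2 * m.D + i)
      = ∑ i ∈ Finset.range (2 * m.p), (m.fam t).Z φ (2 * m.D + i) := by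
    refine (Finset.sum_subset (Finset.range_subset_range.mpr (by omega)) fun i hi hni => ?_).symm
    rw [Finset.mem_range] at hi hni
    exact hz _ (by omega) (by omega)
  rw [s1, s2, s3]

/-! ### Upper bounds on single cells -/

section cells

variable {φ : ℝ × ℝ → ℂ}

lemma integral_rowE_le (h : IsTest φ) {a b : ℝ} (hab : a ≤ b) :
    ∫ y in a..b, rowE φ y ≤ totE φ := by
  rw [intervalIntegral.integral_of_le hab, ← h.integral_rowE]
  exact setIntegral_le_integral h.integrable_rowE (Eventually.of_forall fun y => rowE_nonneg φ y)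

lemma ii_rowE (h : IsTest φ) (a b : ℝ) : IntervalIntegrable (rowE φ) volume a b :=
  h.continuous_rowE.intervalIntegrable _ _

lemma Z_le_half (h : IsTest φ) {N : Nodes} {i : ℕ} {c : ℝ} (hc : 0 ≤ c)
    (hv : (N.v i = 0 ∧ N.v (i + 1) = c) ∨ (N.v i = c ∧ N.v (i + 1) = 0)) :
    N.Z φ i ≤ (1 / 2) * totE φ := by
  obtain ⟨ξ, hξ, -, -, hZ⟩ := N.Z_repr i hc hv
  rw [hZ φ]
  have hcont : Continuous fun y => ‖φ (ξ y, y)‖ ^ 2 :=
    (h.continuous.comp (hξ.prodMk continuous_id)).norm.pow 2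
  calc ∫ y in (0 : ℝ)..c, ‖φ (ξ y, y)‖ ^ 2
      ≤ ∫ y in (0 : ℝ)..c, (1 / 2) * rowE φ y :=
        intervalIntegral.integral_mono_on hc (hcont.intervalIntegrable _ _)
          ((h.continuous_rowE.const_mul _).intervalIntegrable _ _) fun y _ => h.sq_le_rowE _ _
    _ = (1 / 2) * ∫ y in (0 : ℝ)..c, rowE φ y := intervalIntegral.integral_const_mul _ _
    _ ≤ _ := by
        refine mul_le_mul_of_nonneg_left (integral_rowE_le h hc) (by norm_num)

lemma Z_eq_zero {N : Nodes} {i : ℕ}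
    (hv : (N.v i = 0 ∧ N.v (i + 1) = 0)) : N.Z φ i = 0 := by
  rw [Nodes.Z, Nodes.s, hv.1, hv.2]; simp

/-- Odd functions are small near the axis. -/
lemma Z_le_odd (h : IsTest φ) (h0 : ∀ y, φ (0, y) = 0) {N : Nodes} {i : ℕ} {c W : ℝ} (hc : 0 ≤ c)
    (hv : (N.v i = 0 ∧ N.v (i + 1) = c) ∨ (N.v i = c ∧ N.v (i + 1) = 0))
    (hW : ((i : ℝ) + 1) / N.D ≤ W) :
    N.Z φ i ≤ W * totE φ := by
  obtain ⟨ξ, hξ, hmem, -, hZ⟩ := N.Z_repr i hc hv
  have hD := N.D_pos
  have hW0 : 0 ≤ W := le_trans (by positivity) hW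
  rw [hZ φ]
  have hcont : Continuous fun y => ‖φ (ξ y, y)‖ ^ 2 :=
    (h.continuous.comp (hξ.prodMk continuous_id)).norm.pow 2
  calc ∫ y in (0 : ℝ)..c, ‖φ (ξ y, y)‖ ^ 2
      ≤ ∫ y in (0 : ℝ)..c, W * rowE φ y := by
        refine intervalIntegral.integral_mono_on hc (hcont.intervalIntegrable _ _)
          ((h.continuous_rowE.const_mul _).intervalIntegrable _ _) fun y hy => ?_
        have h1 := h.row_diff_le 0 (ξ y) y
        rw [h0 y, sub_zero, sub_zero] at h1
        refine h1.trans (mul_le_mul_of_nonneg_right ?_ (rowE_nonneg φ y))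
        have h2 := hmem y hy
        have h3 : (0 : ℝ) ≤ (i : ℝ) / N.D := by positivity
        rw [abs_of_nonneg (h3.trans h2.1)]
        exact h2.2.trans hW
    _ = W * ∫ y in (0 : ℝ)..c, rowE φ y := intervalIntegral.integral_const_mul _ _
    _ ≤ _ := mul_le_mul_of_nonneg_left (integral_rowE_le h hc) hW0

/-- Poincaré-type bound over one square containing the leg. -/
lemma Z_le_square (h : IsTest φ) {N : Nodes} {i : ℕ} {c a l : ℝ} (hc : 0 ≤ c) (hl : 0 < l)
    (hcl : c ≤ l)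
    (hv : (N.v i = 0 ∧ N.v (i + 1) = c) ∨ (N.v i = c ∧ N.v (i + 1) = 0))
    (ha : a ≤ (i : ℝ) / N.D) (ha' : ((i : ℝ) + 1) / N.D ≤ a + l) :
    N.Z φ i ≤ 8 * l * totE φ + 2 * l * ‖sqMean a 0 l φ‖ ^ 2 := by
  obtain ⟨ξ, hξ, hmem, -, hZ⟩ := N.Z_repr i hc hv
  rw [hZ φ]
  set M := ‖sqMean a 0 l φ‖ ^ 2 with hM
  set T := ∫ t in Icc (0 : ℝ) (0 + l), rowE φ t with hT
  have hTle : T ≤ totE φ := by
    rw [hT, ← h.integral_rowE]
    exact setIntegral_le_integral h.integrable_rowE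
      (Eventually.of_forall fun y => rowE_nonneg φ y)
  have hcont : Continuous fun y => ‖φ (ξ y, y)‖ ^ 2 :=
    (h.continuous.comp (hξ.prodMk continuous_id)).norm.pow 2
  have hpt : ∀ y ∈ Icc 0 c, ‖φ (ξ y, y)‖ ^ 2 ≤ 4 * l * rowE φ y + (4 * T + 2 * M) := by
    intro y hy
    have h1 := h.sub_sqMean_le (a := a) (b := 0) hl (x := ξ y) (y := y)
      ⟨ha.trans (hmem y hy).1, (hmem y hy).2.trans ha'⟩ ⟨hy.1, by linarith [hy.2]⟩
    have h2 : ‖φ (ξ y, y)‖ ≤ ‖φ (ξ y, y) - sqMean a 0 l φ‖ + ‖sqMean a 0 l φ‖ :=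
      norm_le_norm_sub_add _ _
    have h3 : ‖φ (ξ y, y)‖ ^ 2
        ≤ (‖φ (ξ y, y) - sqMean a 0 l φ‖ + ‖sqMean a 0 l φ‖) ^ 2 :=
      pow_le_pow_left₀ (norm_nonneg _) h2 2
    nlinarith [sq_nonneg (‖φ (ξ y, y) - sqMean a 0 l φ‖ - ‖sqMean a 0 l φ‖)]
  have hT0 : 0 ≤ T := integral_nonneg fun y => rowE_nonneg φ y
  have hM0 : 0 ≤ M := by positivity
  calc ∫ y in (0 : ℝ)..c, ‖φ (ξ y, y)‖ ^ 2
      ≤ ∫ y in (0 : ℝ)..c, (4 * l * rowE φ y + (4 * T + 2 * M)) :=
        intervalIntegral.integral_mono_on hc (hcont.intervalIntegrable _ _)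
          (((h.continuous_rowE.const_mul _).add continuous_const).intervalIntegrable _ _) hpt
    _ = 4 * l * (∫ y in (0 : ℝ)..c, rowE φ y) + c * (4 * T + 2 * M) := by
        rw [intervalIntegral.integral_add
          ((h.continuous_rowE.const_mul _).intervalIntegrable _ _) (by simp),
          intervalIntegral.integral_const_mul]
        simp; ring
    _ ≤ 4 * l * totE φ + l * (4 * totE φ + 2 * M) := by
        have e1 := integral_rowE_le h hc
        have e2 : 4 * l * (∫ y in (0 : ℝ)..c, rowE φ y) ≤ 4 * l * totE φ :=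
          mul_le_mul_of_nonneg_left e1 (by positivity)
        have e3 : c * (4 * T + 2 * M) ≤ l * (4 * totE φ + 2 * M) :=
          mul_le_mul hcl (by linarith) (by positivity) hl.le
        linarith
    _ = _ := by ring

/-- Splitting of an integral over `[0, c]` along the points `j / D`. -/
lemma split_bound {D : ℕ} (hD : 0 < D) {c : ℝ} (hc0 : 0 ≤ c) (hc1 : c ≤ 1) {g : ℝ → ℝ}
    (hg : Continuous g) {B : ℕ → ℝ → ℝ} (hB : ∀ j, Continuous (B j)) (hB0 : ∀ j y, 0 ≤ B j y)
    (hle : ∀ j < D, ∀ y ∈ Icc ((j : ℝ) / D) ((j : ℝ) / D + 1 / D), 0 ≤ y → y ≤ c → g y ≤ B j y) :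
    ∫ y in (0 : ℝ)..c, g y ≤ ∑ j ∈ Finset.range D, ∫ y in Icc ((j : ℝ) / D) ((j : ℝ) / D + 1 / D), B j y := by
  have hD' : (0 : ℝ) < D := by exact_mod_cast hD
  have key : ∀ n : ℕ, n ≤ D → ∫ y in (0 : ℝ)..(min c ((n : ℝ) / D)), g y
      ≤ ∑ j ∈ Finset.range n, ∫ y in Icc ((j : ℝ) / D) ((j : ℝ) / D + 1 / D), B j y := by
    intro n
    induction n with
    | zero => intro _; simp [hc0]
    | succ n ih =>
      intro hn
      have ih' := ih (by omega)
      rw [Finset.sum_range_succ]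
      have hstep : ((n + 1 : ℕ) : ℝ) / D = (n : ℝ) / D + 1 / D := by push_cast; ring
      have hn0 : (0 : ℝ) ≤ (n : ℝ) / D := by positivity
      have hd0 : (0 : ℝ) < 1 / D := by positivity
      have hBn : 0 ≤ ∫ y in Icc ((n : ℝ) / D) ((n : ℝ) / D + 1 / D), B n y :=
        integral_nonneg fun y => hB0 n y
      rcases le_total c ((n : ℝ) / D) with hcn | hcn
      · rw [min_eq_left hcn] at ih'
        rw [min_eq_left (hcn.trans (by rw [hstep]; linarith))]
        linarith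
      · rw [min_eq_right hcn] at ih'
        set r := min c (((n + 1 : ℕ) : ℝ) / D) with hr
        have hr1 : (n : ℝ) / D ≤ r := le_min hcn (by rw [hstep]; linarith)
        have hr2 : r ≤ (n : ℝ) / D + 1 / D := by rw [← hstep]; exact min_le_right _ _
        rw [← intervalIntegral.integral_add_adjacent_intervals
          (hg.intervalIntegrable 0 ((n : ℝ) / D)) (hg.intervalIntegrable ((n : ℝ) / D) r)]
        refine add_le_add ih' ?_
        calc ∫ y in ((n : ℝ) / D)..r, g y ≤ ∫ y in ((n : ℝ) / D)..r, B n y := by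
              refine intervalIntegral.integral_mono_on hr1 (hg.intervalIntegrable _ _)
                ((hB n).intervalIntegrable _ _) fun y hy => ?_
              exact hle n (by omega) y ⟨hy.1, hy.2.trans hr2⟩ (hn0.trans hy.1)
                (hy.2.trans (min_le_left _ _))
          _ ≤ _ := by
              rw [intervalIntegral.integral_of_le hr1, ← integral_Icc_eq_integral_Ioc]
              exact setIntegral_mono_set ((hB n).integrableOn_Icc)
                (Eventually.of_forall fun y => hB0 n y)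
                (Eventually.of_forall (Icc_subset_Icc le_rfl hr2))
  have := key D le_rfl
  rwa [div_self hD'.ne', min_eq_left hc1] at this

/-- Bound over a column of small squares. -/
lemma Z_le_column (h : IsTest φ) {N : Nodes} {i : ℕ} {c : ℝ} (hc : 0 ≤ c) (hc1 : c ≤ 1)
    (hv : (N.v i = 0 ∧ N.v (i + 1) = c) ∨ (N.v i = c ∧ N.v (i + 1) = 0)) :
    N.Z φ i ≤ 8 * (1 / N.D) * totE φ + 2 * (1 / N.D) *
      ∑ j ∈ Finset.range N.D, ‖sqMean ((i : ℝ) / N.D) ((j : ℝ) / N.D) (1 / N.D) φ‖ ^ 2 := by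
  obtain ⟨ξ, hξ, hmem, -, hZ⟩ := N.Z_repr i hc hv
  have hD := N.D_pos
  set l : ℝ := 1 / N.D with hl
  have hl0 : 0 < l := by positivity
  have hil : ((i : ℝ) + 1) / N.D = (i : ℝ) / N.D + l := by rw [hl]; ring
  rw [hZ φ]
  have hcont : Continuous fun y => ‖φ (ξ y, y)‖ ^ 2 :=
    (h.continuous.comp (hξ.prodMk continuous_id)).norm.pow 2
  set T : ℕ → ℝ := fun j => ∫ t in Icc ((j : ℝ) / N.D) ((j : ℝ) / N.D + l), rowE φ t with hT
  set M : ℕ → ℝ := fun j => ‖sqMean ((i : ℝ) / N.D) ((j : ℝ) / N.D) l φ‖ ^ 2 with hM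
  have hT0 : ∀ j, 0 ≤ T j := fun j => integral_nonneg fun y => rowE_nonneg φ y
  have hM0 : ∀ j, 0 ≤ M j := fun j => by positivity
  have hs := split_bound N.hD hc hc1 hcont
    (B := fun j y => 4 * l * rowE φ y + (4 * T j + 2 * M j))
    (fun j => (h.continuous_rowE.const_mul _).add continuous_const)
    (fun j y => by
      have := rowE_nonneg φ y
      have := hT0 j
      have := hM0 j
      positivity)
    (by
      intro j hj y hy hy0 hyc
      have h1 := h.sub_sqMean_le (a := (i : ℝ) / N.D) (b := (j : ℝ) / N.D) hl0 (x := ξ y) (y := y)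
        (by
          have := hmem y ⟨hy0, hyc⟩
          rwa [hil] at this) hy
      have h2 : ‖φ (ξ y, y)‖ ≤ ‖φ (ξ y, y) - sqMean ((i : ℝ) / N.D) ((j : ℝ) / N.D) l φ‖
          + ‖sqMean ((i : ℝ) / N.D) ((j : ℝ) / N.D) l φ‖ := norm_le_norm_sub_add _ _
      have h3 := pow_le_pow_left₀ (norm_nonneg _) h2 2
      have h4 : T j = ∫ t in Icc ((j : ℝ) / N.D) ((j : ℝ) / N.D + l), rowE φ t := rfl
      have h5 : M j = ‖sqMean ((i : ℝ) / N.D) ((j : ℝ) / N.D) l φ‖ ^ 2 := rfl
      rw [h4, h5]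
      nlinarith [sq_nonneg (‖φ (ξ y, y) - sqMean ((i : ℝ) / N.D) ((j : ℝ) / N.D) l φ‖
        - ‖sqMean ((i : ℝ) / N.D) ((j : ℝ) / N.D) l φ‖)])
  have e1 : ∀ j : ℕ, ∫ y in Icc ((j : ℝ) / N.D) ((j : ℝ) / N.D + l),
      (4 * l * rowE φ y + (4 * T j + 2 * M j)) = 8 * l * T j + 2 * l * M j := by
    intro j
    rw [integral_add (h.integrable_rowE.restrict.const_mul _) (by simp), integral_const_mul,
      integral_const, measureReal_restrict_apply_univ, Real.volume_real_Icc_of_le (by linarith)]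
    simp only [smul_eq_mul]
    have : T j = ∫ t in Icc ((j : ℝ) / N.D) ((j : ℝ) / N.D + l), rowE φ t := rfl
    rw [← this]
    ring
  refine (hs.trans (le_of_eq (Finset.sum_congr rfl fun j _ => e1 j))).trans ?_
  rw [Finset.sum_add_distrib, ← Finset.mul_sum, ← Finset.mul_sum]
  have e2 : ∑ j ∈ Finset.range N.D, T j ≤ totE φ := by
    have h1 : ∀ j : ℕ, T j = ∫ t in ((j : ℝ) / N.D)..(((j + 1 : ℕ) : ℝ) / N.D), rowE φ t := by
      intro j
      have : ((j + 1 : ℕ) : ℝ) / N.D = (j : ℝ) / N.D + l := by push_cast; ring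
      rw [this, intervalIntegral.integral_of_le (by linarith), ← integral_Icc_eq_integral_Ioc]
    simp only [h1]
    rw [intervalIntegral.sum_integral_adjacent_intervals (a := fun j : ℕ => (j : ℝ) / N.D)
      (fun k _ => ii_rowE h _ _)]
    exact integral_rowE_le h (by simp only [Nat.cast_zero, zero_div]; positivity)
  have e3 : 8 * l * ∑ j ∈ Finset.range N.D, T j ≤ 8 * l * totE φ :=
    mul_le_mul_of_nonneg_left e2 (by positivity)
  linarith

end cells

end Pm

end Pool.Agent.Helper98.LC
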