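import Pool.Agent.Helper98.LC.Bump
import Pool.Agent.Helper98.LC.Abs

/-! The crossing of the top odd and the second even value. -/

open MeasureTheory Set Filter Topology
open scoped ContDiff InnerProductSpace ComplexConjugate

namespace Pool.Agent.Helper98.LC

/-! ### Means as continuous functionals -/

/-- The mean over a square, as a functional on `H¹`. -/
noncomputable def mean (e : ℂ) (a b l : ℝ) : HE e →L[ℂ] ℂ :=
  ((l ^ 2 : ℝ) : ℂ)⁻¹ • (innerSL ℂ (indicatorConstLp 2 (measurableSet_sqr a b l)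
    (volume_sqr_ne_top a b l) (1 : ℂ))).comp (comp e 0)

lemma mean_jE {e : ℂ} (a b l : ℝ) (φ : Par e) :
    mean e a b l (jE e φ) = sqMean a b l (φ : ℝ × ℝ → ℂ) := by
  simp only [mean, smul_apply, ContinuousLinearMap.comp_apply,
    innerSL_apply_apply, comp_zero_jE, smul_eq_mul, sqMean]
  congr 1
  rw [L2.inner_indicatorConstLp_one]
  refine setIntegral_congr_ae (measurableSet_sqr a b l) ?_
  filter_upwards [(isT φ).memLp.coeFn_toLp] with z hz _
  exact hz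

namespace Pm

variable (m : Pm) {e : ℂ}

/-- The finite-rank map of all means. -/
noncomputable def AA (e : ℂ) : HE e →L[ℂ] (Fin (3 * m.D) × Fin m.D → ℂ) :=
  ContinuousLinearMap.pi fun p => mean e ((p.1 : ℕ) / m.D) ((p.2 : ℕ) / m.D) (1 / m.D)

/-- The trace operator of the family. -/
noncomputable def T (e : ℂ) (t : ℝ) : HE e →L[ℂ] L2R := τ (m.fam t).prof e

lemma T_apply (he : ‖e‖ = 1) (t : ℝ) (φ : Par e) :
    m.T e t (jE e φ) = tt (m.fam t).prof (isT φ) :=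
  τ_apply _ (by positivity) (m.q_le_all he t) φ

lemma norm_sq_T (he : ‖e‖ = 1) (t : ℝ) (φ : Par e) :
    ‖m.T e t (jE e φ)‖ ^ 2 = q (m.fam t).prof φ := by
  rw [m.T_apply he, norm_sq_tt]

lemma T_cont (he : ‖e‖ = 1) (s t : ℝ) (v : HE e) :
    ‖m.T e t v‖ ^ 2 ≤ ‖m.T e s v‖ ^ 2 + m.om |t - s| * ‖v‖ ^ 2 := by
  refine extend_ineq (F := fun v => ‖m.T e t v‖ ^ 2)
    (G := fun v => ‖m.T e s v‖ ^ 2 + m.om |t - s| * ‖v‖ ^ 2) (by fun_prop) (by fun_prop)
    (fun φ => ?_) v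
  simp only [m.norm_sq_T he, norm_sq_jE]
  exact m.q_cont (isT φ) s t

lemma T_fin (he : ‖e‖ = 1) (t : ℝ) (v : HE e) :
    ‖m.T e t v‖ ^ 2 ≤ (3 / 2) * ‖v‖ ^ 2 + (8 * (m.k + m.p)) * ‖m.AA e v‖ ^ 2 := by
  refine extend_ineq (F := fun v => ‖m.T e t v‖ ^ 2)
    (G := fun v => (3 / 2) * ‖v‖ ^ 2 + (8 * (m.k + m.p)) * ‖m.AA e v‖ ^ 2) (by fun_prop)
    (by fun_prop) (fun φ => ?_) v
  simp only [m.norm_sq_T he, norm_sq_jE]
  refine m.q_le_fin he t φ fun i hi j hj => ?_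
  refine pow_le_pow_left₀ (norm_nonneg _) ?_ 2
  have h := norm_le_pi_norm (m.AA e (jE e φ)) (⟨i, hi⟩, ⟨j, hj⟩)
  refine le_trans (le_of_eq ?_) h
  simp only [AA, ContinuousLinearMap.coe_pi', mean_jE]

lemma top_odd_zero : top (m.T (-1) 0) ≤ 3 / 2 := by
  refine top_le (by norm_num) fun v => ?_
  refine extend_ineq (F := fun v => ‖m.T (-1) 0 v‖ ^ 2)
    (G := fun v => (3 / 2) * ‖v‖ ^ 2) (by fun_prop) (by fun_prop) (fun φ => ?_) v
  simp only [m.norm_sq_T (e := -1) (by simp), norm_sq_jE]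
  exact m.q_le_odd φ

lemma sec_even_one : sec (m.T 1 1) ≤ 1 / 2 + 2 * m.k + 16 := by
  refine sec_le (by positivity) (mean 1 2 0 m.h) fun v hv => ?_
  have h := extend_ineq (F := fun v => ‖m.T 1 1 v‖ ^ 2)
    (G := fun v => (1 / 2 + 2 * m.k + 16) * ‖v‖ ^ 2 + 4 * ‖mean 1 2 0 m.h v‖ ^ 2) (by fun_prop)
    (by fun_prop) (fun φ => by
      simp only [m.norm_sq_T (e := 1) (by simp), norm_sq_jE, mean_jE]
      exact m.q_le_mean (by simp) 1 φ) v
  rw [hv] at h
  simpa using h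

lemma sec_even_ge (h1 : 2 * totE (trial (1 / 4)) ≤ 4 * m.k * ∫ y in (0 : ℝ)..1, bη (1 / 4) y ^ 2)
    (h2 : 2 * totE (trial (3 / 4)) ≤ 4 * m.k * ∫ y in (0 : ℝ)..1, bη (3 / 4) y ^ 2) (t : ℝ) :
    2 ≤ sec (m.T 1 t) := by
  have key : ∀ c : ℝ, 2 * totE (trial c) ≤ 4 * m.k * (∫ y in (0 : ℝ)..1, bη c y ^ 2) →
      2 * ‖jE 1 (trialE c)‖ ^ 2 ≤ ‖m.T 1 t (jE 1 (trialE c))‖ ^ 2 := by
    intro c hc
    rw [m.norm_sq_T (by simp), norm_sq_jE]
    exact hc.trans (m.le_q_axis (by simp) t (trialE c) fun x hx y => trial_axis c hx y)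
  have hne : ∀ c : ℝ, trial c (0, c) = 1 := by
    intro c
    have h3 : bβ 0 = 1 := bβ.one_of_mem_closedBall (by
      rw [Metric.mem_closedBall, dist_self]; exact bβ.rIn_pos.le)
    have h4 : bη c c = 1 := (bη c).one_of_mem_closedBall (by
      rw [Metric.mem_closedBall, dist_self]; exact (bη c).rIn_pos.le)
    simp [trial, h3, h4]
  have hne' : ∀ c : ℝ, jE 1 (trialE c) ≠ 0 := by
    intro c h0
    have h5 : totE (trial c) = 0 := by
      have := norm_sq_jE (trialE c)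
      rw [h0, norm_zero] at this
      simpa [trialE] using this.symm
    have h6 := (isTest_trial c).sq_le_rowE 0 c
    have h7 : Continuous (en (trial c)) := (isTest_trial c).continuous_en
    have h8 : 0 < totE (trial c) := by
      rw [totE]
      refine (h7.integral_pos_of_hasCompactSupport_nonneg_nonzero (x := (0, c))
        (isTest_trial c).hcs_en (en_nonneg _)) ?_
      have : 1 ≤ en (trial c) (0, c) := by
        unfold en
        rw [hne c, norm_one]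
        have e1 : 0 ≤ ‖dx (trial c) (0, c)‖ ^ 2 := by positivity
        have e2 : 0 ≤ ‖dy (trial c) (0, c)‖ ^ 2 := by positivity
        linarith
      exact ne_of_gt (by linarith)
    linarith
  refine le_sec (hne' (1 / 4)) (hne' (3 / 4)) trial_orth ?_ (key _ h1) (key _ h2)
  rw [m.T_apply (by simp), m.T_apply (by simp)]
  exact trial_orth_trace _

end Pm

/-- Existence of parameters with a crossing. -/
theorem exists_cross : ∃ m : Pm, ∃ t : ℝ, ∃ lam : ℝ, 2 ≤ lam ∧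
    (∃ v : HE 1, ‖v‖ = 1 ∧ ∀ w, ⟪m.T 1 t v, m.T 1 t w⟫_ℂ = lam * ⟪v, w⟫_ℂ) ∧
    (∃ v : HE (-1), ‖v‖ = 1 ∧ ∀ w, ⟪m.T (-1) t v, m.T (-1) t w⟫_ℂ = lam * ⟪v, w⟫_ℂ) := by
  -- choice of `k`
  set I1 := ∫ y in (0 : ℝ)..1, bη (1 / 4) y ^ 2 with hI1
  set I2 := ∫ y in (0 : ℝ)..1, bη (3 / 4) y ^ 2 with hI2
  have hI1p : 0 < I1 := integral_bη_pos (by norm_num) (by norm_num)
  have hI2p : 0 < I2 := integral_bη_pos (by norm_num) (by norm_num)
  obtain ⟨k, hk⟩ := exists_nat_gt (max (totE (trial (1 / 4)) / I1) (totE (trial (3 / 4)) / I2))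
  have hk1 : totE (trial (1 / 4)) ≤ k * I1 := by
    have := (le_max_left _ _).trans hk.le
    rwa [div_le_iff₀ hI1p] at this
  have hk2 : totE (trial (3 / 4)) ≤ k * I2 := by
    have := (le_max_right _ _).trans hk.le
    rwa [div_le_iff₀ hI2p] at this
  -- choice of the cheap odd function
  set Λ : ℝ := 1 / 2 + 2 * ((k + 1 : ℕ) : ℝ) + 16 with hΛ
  have hΛ0 : 0 < Λ := by positivity
  obtain ⟨r, hr, φ, hφE, hφ1⟩ := exists_odd (ε := 2 / Λ) (by positivity)
  obtain ⟨p, hp⟩ := exists_nat_gt (1 / (2 * r))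
  have hp' : 1 / (2 * ((p + 1 : ℕ) : ℝ)) ≤ r := by
    push_cast
    rw [div_lt_iff₀ (by positivity)] at hp
    rw [div_le_iff₀ (by positivity)]
    nlinarith
  let m : Pm := ⟨k + 1, p + 1, 8 * ((k + 1) * (k + 1)) + 4 * ((p + 1) * (p + 1))
    + 32 * ((k + 1) + (p + 1)), by omega, by omega, by omega, by omega, by omega⟩
  have hmk : (m.k : ℝ) = ((k + 1 : ℕ) : ℝ) := rfl
  have hmh : m.h ≤ r := hp'
  have hsec : ∀ t, 2 ≤ sec (m.T 1 t) := m.sec_even_ge
    (by rw [hmk]; push_cast; nlinarith [totE_nonneg (trial (1 / 4))])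
    (by rw [hmk]; push_cast; nlinarith [totE_nonneg (trial (3 / 4))])
  have htop1 : Λ ≤ top (m.T (-1) 1) := by
    have hq : 2 ≤ q (m.fam 1).prof φ := by
      refine m.le_q_side (by simp) φ fun x hx y hy => ?_
      rw [hφ1 x ⟨hx.1, hx.2.trans (by linarith)⟩ y ⟨hy.1, hy.2.trans hmh⟩, norm_one]
    have hne : jE (-1) φ ≠ 0 := by
      intro h0
      have h1 := m.norm_sq_T (e := -1) (by simp) 1 φ
      rw [h0, map_zero, norm_zero] at h1
      linarith
    refine le_top hne ?_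
    rw [m.norm_sq_T (by simp), norm_sq_jE]
    have : Λ * totE (φ : ℝ × ℝ → ℂ) ≤ Λ * (2 / Λ) := by gcongr
    rw [mul_div_cancel₀ _ hΛ0.ne'] at this
    linarith
  obtain ⟨t, ht, hcross⟩ := exists_crossing (fun t => m.T (-1) t) (fun t => m.T 1 t) m.om
    (fun r hr => m.om_nonneg hr) m.tendsto_om
    (fun s _ t _ v => m.T_cont (by simp) s t v) (fun s _ t _ v => m.T_cont (by simp) s t v)
    (m.top_odd_zero.trans (by linarith [hsec 0])) (m.sec_even_one.trans htop1)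
  have h32 : (3 / 2 : ℝ) < sec (m.T 1 t) := by linarith [hsec t]
  refine ⟨m, t, sec (m.T 1 t), hsec t, ?_, ?_⟩
  · exact exists_sec (m.T 1 t) (m.AA 1) (3 / 2) (8 * (m.k + m.p)) (by norm_num) h32
      (m.T_fin (by simp) t)
  · have := exists_top (m.T (-1) t) (m.AA (-1)) (3 / 2) (8 * (m.k + m.p)) (by norm_num)
      (by rw [hcross]; exact h32) (m.T_fin (by simp) t)
    rwa [hcross] at this

end Pool.Agent.Helper98.LC
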