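import Pool.Agent.Helper98.LC.Trace

/-! Even piecewise linear functions with prescribed values at the nodes `i / D`. -/

open MeasureTheory Set Filter Topology
open scoped ContDiff InnerProductSpace ComplexConjugate

namespace Pool.Agent.Helper98.LC

/-- Node data. -/
structure Nodes where
  D : ℕ
  v : ℕ → ℝ
  hD : 0 < D
  v0 : v 0 = 0
  h01 : ∀ i, v i ∈ Icc (0 : ℝ) 1
  hz : ∀ i, 3 * D ≤ i → v i = 0

namespace Nodes

variable (N : Nodes)

lemma D_pos : (0 : ℝ) < N.D := by exact_mod_cast N.hD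

/-- The slope on the cell `[i/D, (i+1)/D]`. -/
def s (i : ℕ) : ℝ := N.D * (N.v (i + 1) - N.v i)

/-- Slope function. -/
noncomputable def sl (x : ℝ) : ℝ :=
  if 0 < x then N.s ⌊N.D * x⌋₊ else if x < 0 then -N.s ⌊N.D * (-x)⌋₊ else 0

lemma sl_pos {x : ℝ} (hx : 0 < x) : N.sl x = N.s ⌊N.D * x⌋₊ := by rw [sl, if_pos hx]

lemma sl_neg {x : ℝ} (hx : x < 0) : N.sl x = -N.s ⌊N.D * (-x)⌋₊ := by
  rw [sl, if_neg (not_lt.mpr hx.le), if_pos hx]

lemma sl_zero : N.sl 0 = 0 := by simp [sl]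

lemma abs_s_le (i : ℕ) : |N.s i| ≤ N.D := by
  rw [s, abs_mul, abs_of_pos N.D_pos]
  have h1 := N.h01 i
  have h2 := N.h01 (i + 1)
  have : |N.v (i + 1) - N.v i| ≤ 1 := by
    rw [abs_le]; constructor <;> linarith [h1.1, h1.2, h2.1, h2.2]
  have := N.D_pos
  nlinarith

lemma s_eq_zero {i : ℕ} (hi : 3 * N.D ≤ i) : N.s i = 0 := by
  rw [s, N.hz i hi, N.hz (i + 1) (by omega)]; simp

lemma measurable_sl : Measurable N.sl := by
  unfold sl
  refine Measurable.ite measurableSet_Ioi ?_ (Measurable.ite measurableSet_Iio ?_ measurable_const)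
  · exact (measurable_from_nat (f := N.s)).comp (Nat.measurable_floor.comp (measurable_const.mul measurable_id))
  · exact ((measurable_from_nat (f := N.s)).comp
      (Nat.measurable_floor.comp (measurable_const.mul measurable_id.neg))).neg

lemma sl_odd (x : ℝ) : N.sl (-x) = -N.sl x := by
  rcases lt_trichotomy x 0 with h | h | h
  · rw [N.sl_neg h, N.sl_pos (by linarith), neg_neg]
  · rw [h, neg_zero, N.sl_zero, neg_zero]
  · rw [N.sl_pos h, N.sl_neg (by linarith), neg_neg]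

lemma sl_far {x : ℝ} (hx : 3 ≤ |x|) : N.sl x = 0 := by
  have key : ∀ y : ℝ, 3 ≤ y → N.s ⌊N.D * y⌋₊ = 0 := by
    intro y hy
    apply N.s_eq_zero
    apply Nat.le_floor
    push_cast
    nlinarith [N.D_pos]
  rcases le_abs.mp hx with h | h
  · rw [N.sl_pos (by linarith), key x h]
  · rw [N.sl_neg (by linarith), key (-x) h, neg_zero]

/-- The exceptional points. -/
noncomputable def F : Finset ℝ :=
  (Finset.range (3 * N.D + 1)).image (fun i : ℕ => (i : ℝ) / N.D) ∪
    (Finset.range (3 * N.D + 1)).image (fun i : ℕ => -((i : ℝ) / N.D))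

lemma mem_F_pos {i : ℕ} (hi : i ≤ 3 * N.D) : (i : ℝ) / N.D ∈ N.F := by
  rw [F, Finset.mem_union]
  exact Or.inl (Finset.mem_image_of_mem _ (Finset.mem_range.mpr (by omega)))

lemma mem_F_neg {i : ℕ} (hi : i ≤ 3 * N.D) : -((i : ℝ) / N.D) ∈ N.F := by
  rw [F, Finset.mem_union]
  exact Or.inr (Finset.mem_image_of_mem _ (Finset.mem_range.mpr (by omega)))

/-- Two positive points with no exceptional point in between have equal slopes. -/
lemma s_floor_eq {x y : ℝ} (hx : 0 < x) (hxy : x ≤ y)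
    (h : ∀ i : ℕ, i ≤ 3 * N.D → ¬ (x < (i : ℝ) / N.D ∧ (i : ℝ) / N.D ≤ y)) :
    N.s ⌊N.D * x⌋₊ = N.s ⌊N.D * y⌋₊ := by
  have hD := N.D_pos
  have hy : 0 < y := hx.trans_le hxy
  set i := ⌊N.D * x⌋₊ with hi
  set j := ⌊N.D * y⌋₊ with hj
  have hij : i ≤ j := Nat.floor_le_floor (by nlinarith)
  rcases hij.eq_or_lt with he | hlt
  · rw [he]
  · -- the node `(i+1)/D` lies in `(x, y]`
    have h1 : N.D * x < (i : ℝ) + 1 := Nat.lt_floor_add_one _
    have h2 : (j : ℝ) ≤ N.D * y := Nat.floor_le (by positivity)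
    have h3 : x < ((i + 1 : ℕ) : ℝ) / N.D := by
      rw [lt_div_iff₀ hD]; push_cast; linarith
    have h4 : ((i + 1 : ℕ) : ℝ) / N.D ≤ y := by
      rw [div_le_iff₀ hD]
      have : ((i + 1 : ℕ) : ℝ) ≤ j := by exact_mod_cast hlt
      linarith
    have h5 : ¬ (i + 1 ≤ 3 * N.D) := fun hle => h _ hle ⟨h3, h4⟩
    rw [N.s_eq_zero (by omega), N.s_eq_zero (by omega)]

lemma sl_const {a b : ℝ} (hab : a < b) (hF : ∀ x ∈ Ioo a b, x ∉ N.F) :
    ∃ m, ∀ x ∈ Ioo a b, N.sl x = m := by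
  have h0 : (0 : ℝ) ∉ Ioo a b := fun h => hF 0 h (by
    have := N.mem_F_pos (i := 0) (by omega)
    simpa using this)
  -- both end points on one side
  have key : ∀ x y : ℝ, a < x → x ≤ y → y < b → N.sl x = N.sl y := by
    intro x y hax hxy hyb
    rcases lt_trichotomy x 0 with hx | hx | hx
    · have hy : y < 0 := by
        by_contra hcon
        rw [not_lt] at hcon
        exact h0 ⟨hax.trans hx, hcon.trans_lt hyb⟩
      rw [N.sl_neg hx, N.sl_neg hy]
      congr 1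
      refine (N.s_floor_eq (x := -y) (y := -x) (by linarith) (by linarith) ?_).symm
      rintro i hi ⟨h1, h2⟩
      refine hF (-((i : ℝ) / N.D)) ⟨?_, ?_⟩ (N.mem_F_neg hi)
      · linarith
      · linarith
    · exact absurd ⟨by linarith, by linarith⟩ h0
    · rw [N.sl_pos hx, N.sl_pos (hx.trans_le hxy)]
      refine N.s_floor_eq hx hxy ?_
      rintro i hi ⟨h1, h2⟩
      exact hF _ ⟨hax.trans h1, h2.trans_lt hyb⟩ (N.mem_F_pos hi)
  refine ⟨N.sl ((a + b) / 2), fun x hx => ?_⟩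
  rcases le_total x ((a + b) / 2) with h | h
  · exact key _ _ hx.1 h (by linarith)
  · exact (key _ _ (by linarith) h hx.2).symm

/-- Inside a cell. -/
lemma sl_cell (i : ℕ) {x : ℝ} (hx : x ∈ Ioo ((i : ℝ) / N.D) (((i : ℝ) + 1) / N.D)) :
    N.sl x = N.s i := by
  have hD := N.D_pos
  have hx0 : 0 < x := lt_of_le_of_lt (by positivity) hx.1
  rw [N.sl_pos hx0]
  congr 1
  rw [Nat.floor_eq_iff (by positivity)]
  have h1 := hx.1
  have h2 := hx.2
  rw [div_lt_iff₀ hD] at h1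
  rw [lt_div_iff₀ hD] at h2
  constructor <;> linarith

lemma ii_sl (a b : ℝ) : IntervalIntegrable N.sl volume a b := by
  rw [intervalIntegrable_iff]
  refine Measure.integrableOn_of_bounded (M := N.D) ?_ N.measurable_sl.aestronglyMeasurable ?_
  · simp [uIoc]
  · refine Eventually.of_forall fun x => ?_
    rw [Real.norm_eq_abs]
    rcases lt_trichotomy x 0 with h | h | h
    · rw [N.sl_neg h, abs_neg]; exact N.abs_s_le _
    · rw [h, N.sl_zero, abs_zero]; exact N.D_pos.le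
    · rw [N.sl_pos h]; exact N.abs_s_le _

lemma integral_cell (i : ℕ) {x : ℝ} (hx : x ∈ Icc ((i : ℝ) / N.D) (((i : ℝ) + 1) / N.D)) :
    ∫ t in ((i : ℝ) / N.D)..x, N.sl t = N.s i * (x - (i : ℝ) / N.D) := by
  have h1 : ∫ t in ((i : ℝ) / N.D)..x, N.sl t = ∫ _ in ((i : ℝ) / N.D)..x, N.s i := by
    rw [intervalIntegral.integral_of_le hx.1, intervalIntegral.integral_of_le hx.1,
      integral_Ioc_eq_integral_Ioo, integral_Ioc_eq_integral_Ioo]
    exact setIntegral_congr_fun measurableSet_Ioo fun t ht =>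
      N.sl_cell i ⟨ht.1, ht.2.trans_le hx.2⟩
  rw [h1]; simp; ring

lemma integral_node (i : ℕ) : ∫ t in (0 : ℝ)..((i : ℝ) / N.D), N.sl t = N.v i := by
  have hD := N.D_pos
  induction i with
  | zero => simp [N.v0]
  | succ i ih =>
    have hle : (i : ℝ) / N.D ≤ ((i : ℝ) + 1) / N.D := by gcongr; linarith
    have h1 := N.integral_cell i (x := ((i : ℝ) + 1) / N.D) ⟨hle, le_rfl⟩
    have h2 := intervalIntegral.integral_add_adjacent_intervals (N.ii_sl 0 ((i : ℝ) / N.D))
      (N.ii_sl ((i : ℝ) / N.D) (((i : ℝ) + 1) / N.D))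
    rw [ih, h1] at h2
    push_cast
    rw [← h2, s]
    field_simp
    ring

/-- The profile with the given node data. -/
noncomputable def prof : Prof where
  sl := N.sl
  F := N.F
  L := N.D
  meas := N.measurable_sl
  bound := fun x => by
    rcases lt_trichotomy x 0 with h | h | h
    · rw [N.sl_neg h, abs_neg]; exact N.abs_s_le _
    · rw [h, N.sl_zero, abs_zero]; exact N.D_pos.le
    · rw [N.sl_pos h]; exact N.abs_s_le _
  odd := N.sl_odd
  const := fun _ _ hab hF => N.sl_const hab hF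
  zero := fun _ hx => N.sl_far hx
  tot := by
    have h := N.integral_node (3 * N.D)
    have hD := N.D_pos
    rw [N.hz _ le_rfl] at h
    push_cast at h
    rwa [mul_div_assoc, div_self hD.ne', mul_one] at h

lemma prof_sl : N.prof.sl = N.sl := rfl

lemma u_node (i : ℕ) : N.prof.u ((i : ℝ) / N.D) = N.v i := N.integral_node i

lemma u_cell (i : ℕ) {x : ℝ} (hx : x ∈ Icc ((i : ℝ) / N.D) (((i : ℝ) + 1) / N.D)) :
    N.prof.u x = N.v i + N.s i * (x - (i : ℝ) / N.D) := by
  have h1 := N.prof.u_sub ((i : ℝ) / N.D) x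
  rw [N.u_node, N.prof_sl, N.integral_cell i hx] at h1
  linarith

lemma w_cell (i : ℕ) {x : ℝ} (hx : x ∈ Ioo ((i : ℝ) / N.D) (((i : ℝ) + 1) / N.D)) :
    N.prof.w x = Real.sqrt (1 + N.s i ^ 2) := by
  rw [Prof.w, N.prof_sl, N.sl_cell i hx]

end Nodes

end Pool.Agent.Helper98.LC
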