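import Mathlib

/-! One-dimensional inequalities for compactly supported `C¹` functions `f : ℝ → ℂ`. -/

open MeasureTheory Set Filter Topology
open scoped ContDiff InnerProductSpace ComplexConjugate

namespace Pool.Agent.Helper98.LC

lemma hasCompactSupport_norm_sq {X : Type*} [TopologicalSpace X] {f : X → ℂ}
    (hs : HasCompactSupport f) : HasCompactSupport (fun x => ‖f x‖ ^ 2) :=
  hs.comp_left (g := fun z : ℂ => ‖z‖ ^ 2) (by simp)

lemma integrable_norm_sq {f : ℝ → ℂ} (hc : Continuous f) (hs : HasCompactSupport f) :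
    Integrable (fun x => ‖f x‖ ^ 2) :=
  (hc.norm.pow 2).integrable_of_hasCompactSupport (hasCompactSupport_norm_sq hs)

lemma deriv_norm_sq {f : ℝ → ℂ} (hf : ContDiff ℝ 1 f) (x : ℝ) :
    deriv (fun x => ‖f x‖ ^ 2) x = 2 * ⟪f x, deriv f x⟫_ℝ :=
  ((hf.differentiable one_ne_zero x).hasDerivAt.norm_sq).deriv

lemma abs_deriv_norm_sq_le {f : ℝ → ℂ} (hf : ContDiff ℝ 1 f) (x : ℝ) :
    |deriv (fun x => ‖f x‖ ^ 2) x| ≤ ‖deriv f x‖ ^ 2 + ‖f x‖ ^ 2 := by
  rw [deriv_norm_sq hf, abs_mul]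
  have h1 := abs_real_inner_le_norm (f x) (deriv f x)
  have h2 := two_mul_le_add_sq ‖f x‖ ‖deriv f x‖
  rw [abs_two]
  nlinarith

/-- `|f(a)|² ≤ ½ ∫ (|f'|² + |f|²)`. -/
lemma norm_sq_le_half {f : ℝ → ℂ} (hf : ContDiff ℝ 1 f) (hs : HasCompactSupport f) (a : ℝ) :
    ‖f a‖ ^ 2 ≤ (1 / 2) * ∫ x, (‖deriv f x‖ ^ 2 + ‖f x‖ ^ 2) := by
  set g : ℝ → ℝ := fun x => ‖f x‖ ^ 2 with hg
  have hgc : ContDiff ℝ 1 g := hf.norm_sq ℝ
  have hgs : HasCompactSupport g := hs.comp_left (g := fun z : ℂ => ‖z‖ ^ 2) (by simp)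
  have hd : Continuous (deriv g) := hgc.continuous_deriv le_rfl
  have hdi : Integrable (deriv g) := hd.integrable_of_hasCompactSupport hgs.deriv
  have h1 := HasCompactSupport.integral_Iic_deriv_eq hgc hgs a
  have h2 := HasCompactSupport.integral_Ioi_deriv_eq hgc hgs a
  have h3 : |∫ x in Iic a, deriv g x| ≤ ∫ x in Iic a, |deriv g x| := abs_integral_le_integral_abs
  have h4 : |∫ x in Ioi a, deriv g x| ≤ ∫ x in Ioi a, |deriv g x| := abs_integral_le_integral_abs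
  have h5 : (∫ x in Iic a, |deriv g x|) + (∫ x in Ioi a, |deriv g x|) = ∫ x, |deriv g x| :=
    intervalIntegral.integral_Iic_add_Ioi hdi.abs.integrableOn hdi.abs.integrableOn
  have h6 : ∫ x, |deriv g x| ≤ ∫ x, (‖deriv f x‖ ^ 2 + ‖f x‖ ^ 2) := by
    refine integral_mono hdi.abs ?_ (fun x => abs_deriv_norm_sq_le hf x)
    have c1 : Continuous (fun x => ‖deriv f x‖ ^ 2 + ‖f x‖ ^ 2) :=
      ((hf.continuous_deriv le_rfl).norm.pow 2).add (hf.continuous.norm.pow 2)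
    refine c1.integrable_of_hasCompactSupport ?_
    exact (hs.deriv.comp_left (g := fun z : ℂ => ‖z‖ ^ 2) (by simp)).add hgs
  rw [h1] at h3
  rw [h2] at h4
  have h7 : g a ≤ |g a| := le_abs_self _
  have h8 : g a ≤ |-g a| := by rw [abs_neg]; exact le_abs_self _
  have h9 : g a = ‖f a‖ ^ 2 := rfl
  linarith

/-- Cauchy-Schwarz against the constant one. -/
lemma sq_integral_le {α : Type*} [MeasurableSpace α] (μ : Measure α) [IsFiniteMeasure μ]
    {g : α → ℝ} (hg : Integrable g μ) (hg2 : Integrable (fun x => g x ^ 2) μ) :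
    (∫ x, g x ∂μ) ^ 2 ≤ μ.real univ * ∫ x, g x ^ 2 ∂μ := by
  set M := μ.real univ with hM
  set I := ∫ x, g x ∂μ with hI
  have hM0 : 0 ≤ M := measureReal_nonneg
  have h0 : 0 ≤ ∫ x, (M * g x - I) ^ 2 ∂μ := integral_nonneg fun _ => sq_nonneg _
  have h1 : ∫ x, (M * g x - I) ^ 2 ∂μ = M * (M * ∫ x, g x ^ 2 ∂μ - I ^ 2) := by
    have e : (fun x => (M * g x - I) ^ 2)
        = fun x => M ^ 2 * g x ^ 2 - 2 * M * I * g x + I ^ 2 := by
      ext x; ring
    have i1 : Integrable (fun x => M ^ 2 * g x ^ 2) μ := hg2.const_mul _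
    have i2 : Integrable (fun x => 2 * M * I * g x) μ := hg.const_mul _
    have i3 : Integrable (fun x => M ^ 2 * g x ^ 2 - 2 * M * I * g x) μ := i1.sub i2
    rw [e, integral_add i3 (integrable_const _), integral_sub i1 i2, integral_const_mul,
      integral_const_mul, integral_const, smul_eq_mul, ← hM, ← hI]
    ring
  rcases hM0.eq_or_lt with h | h
  · have : μ = 0 := by
      have h2 : μ univ = 0 := by
        rw [hM, measureReal_def] at h
        rcases (ENNReal.toReal_eq_zero_iff _).mp h.symm with h3 | h3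
        · exact h3
        · exact absurd h3 (measure_ne_top _ _)
      exact Measure.measure_univ_eq_zero.mp h2
    rw [hI, this]
    simp
  · rw [h1] at h0
    have := (mul_nonneg_iff_of_pos_left h).mp h0
    linarith

/-- `|f(b) - f(a)|² ≤ (b - a) ∫_a^b |f'|²`. -/
lemma diff_sq_le {f : ℝ → ℂ} (hf : ContDiff ℝ 1 f) {a b : ℝ} (hab : a ≤ b) :
    ‖f b - f a‖ ^ 2 ≤ (b - a) * ∫ x in Icc a b, ‖deriv f x‖ ^ 2 := by
  have hc : Continuous (deriv f) := hf.continuous_deriv le_rfl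
  have h1 : ∫ x in a..b, deriv f x = f b - f a :=
    intervalIntegral.integral_deriv_eq_sub (fun x _ => hf.differentiable one_ne_zero x)
      (hc.intervalIntegrable _ _)
  have h2 : ‖f b - f a‖ ≤ ∫ x in Icc a b, ‖deriv f x‖ := by
    rw [← h1, intervalIntegral.integral_of_le hab, ← integral_Icc_eq_integral_Ioc]
    exact norm_integral_le_integral_norm _
  have h3 := sq_integral_le (volume.restrict (Icc a b)) (g := fun x => ‖deriv f x‖)
    (hc.norm.integrableOn_Icc) ((hc.norm.pow 2).integrableOn_Icc)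
  have h4 : (volume.restrict (Icc a b)).real univ = b - a := by
    rw [measureReal_restrict_apply_univ, Real.volume_real_Icc_of_le hab]
  rw [h4] at h3
  exact (pow_le_pow_left₀ (norm_nonneg _) h2 2).trans h3

lemma diff_sq_le_of_mem {f : ℝ → ℂ} (hf : ContDiff ℝ 1 f) {a b c l : ℝ} (ha : a ∈ Icc c (c + l))
    (hb : b ∈ Icc c (c + l)) :
    ‖f b - f a‖ ^ 2 ≤ l * ∫ x in Icc c (c + l), ‖deriv f x‖ ^ 2 := by
  have hc : Continuous (deriv f) := hf.continuous_deriv le_rfl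
  wlog hab : a ≤ b generalizing a b
  · rw [norm_sub_rev]
    exact this hb ha (le_of_not_ge hab)
  refine (diff_sq_le hf hab).trans ?_
  have hl : b - a ≤ l := by linarith [ha.1, hb.2]
  have h0 : 0 ≤ ∫ x in Icc a b, ‖deriv f x‖ ^ 2 := integral_nonneg fun _ => by positivity
  refine mul_le_mul hl ?_ h0 (by linarith)
  exact setIntegral_mono_set ((hc.norm.pow 2).integrableOn_Icc)
    (Eventually.of_forall fun _ => by positivity)
    (Eventually.of_forall (Icc_subset_Icc ha.1 hb.2))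

lemma diff_sq_le_abs {f : ℝ → ℂ} (hf : ContDiff ℝ 1 f) (hs : HasCompactSupport f) (a b : ℝ) :
    ‖f b - f a‖ ^ 2 ≤ |b - a| * ∫ x, ‖deriv f x‖ ^ 2 := by
  have hc : Continuous (deriv f) := hf.continuous_deriv le_rfl
  wlog hab : a ≤ b generalizing a b
  · rw [norm_sub_rev, abs_sub_comm]
    exact this b a (le_of_not_ge hab)
  refine (diff_sq_le hf hab).trans ?_
  rw [abs_of_nonneg (by linarith)]
  refine mul_le_mul_of_nonneg_left ?_ (by linarith)
  have hi : Integrable (fun x => ‖deriv f x‖ ^ 2) := integrable_norm_sq hc hs.deriv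
  exact setIntegral_le_integral hi (Eventually.of_forall fun _ => by positivity)

/-- `||f(b)|² - |f(a)|²| ≤ 2 √|b - a| ∫ (|f'|² + |f|²)`. -/
lemma abs_sq_sub_sq_le {f : ℝ → ℂ} (hf : ContDiff ℝ 1 f) (hs : HasCompactSupport f) (a b : ℝ) :
    |‖f b‖ ^ 2 - ‖f a‖ ^ 2| ≤ 2 * Real.sqrt |b - a| * ∫ x, (‖deriv f x‖ ^ 2 + ‖f x‖ ^ 2) := by
  have hc : Continuous (deriv f) := hf.continuous_deriv le_rfl
  have hi : Integrable (fun x => ‖deriv f x‖ ^ 2) := integrable_norm_sq hc hs.deriv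
  have hi2 : Integrable (fun x => ‖f x‖ ^ 2) := integrable_norm_sq hf.continuous hs
  set I := ∫ x, (‖deriv f x‖ ^ 2 + ‖f x‖ ^ 2) with hI
  have hI0 : 0 ≤ I := integral_nonneg fun _ => by positivity
  have hII : ∫ x, ‖deriv f x‖ ^ 2 ≤ I := by
    refine integral_mono hi (hi.add hi2) fun x => ?_
    simp only
    have : 0 ≤ ‖f x‖ ^ 2 := by positivity
    linarith
  have h1 : ‖f b - f a‖ ≤ Real.sqrt |b - a| * Real.sqrt I := by
    rw [← Real.sqrt_mul (abs_nonneg _)]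
    refine Real.le_sqrt_of_sq_le ((diff_sq_le_abs hf hs a b).trans ?_)
    exact mul_le_mul_of_nonneg_left hII (abs_nonneg _)
  have h2 : ∀ c, ‖f c‖ ≤ Real.sqrt I := by
    intro c
    refine Real.le_sqrt_of_sq_le ((norm_sq_le_half hf hs c).trans ?_)
    rw [← hI]; linarith
  have h3 : |‖f b‖ - ‖f a‖| ≤ ‖f b - f a‖ := abs_norm_sub_norm_le _ _
  have h4 : ‖f b‖ ^ 2 - ‖f a‖ ^ 2 = (‖f b‖ - ‖f a‖) * (‖f b‖ + ‖f a‖) := by ring
  rw [h4, abs_mul]
  have h5 : |‖f b‖ + ‖f a‖| ≤ 2 * Real.sqrt I := by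
    rw [abs_of_nonneg (by positivity)]
    linarith [h2 a, h2 b]
  calc |‖f b‖ - ‖f a‖| * |‖f b‖ + ‖f a‖|
      ≤ (Real.sqrt |b - a| * Real.sqrt I) * (2 * Real.sqrt I) :=
        mul_le_mul (h3.trans h1) h5 (abs_nonneg _) (by positivity)
    _ = 2 * Real.sqrt |b - a| * (Real.sqrt I * Real.sqrt I) := by ring
    _ = _ := by rw [Real.mul_self_sqrt hI0]

end Pool.Agent.Helper98.LC
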