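import Pool.Agent.Helper98.LC.Cap

/-! The Hilbert space `H¹`, as a closed subspace of a product of three `L²` spaces, split in
even and odd functions. -/

open MeasureTheory Set Filter Topology
open scoped ContDiff InnerProductSpace ComplexConjugate

namespace Pool.Agent.Helper98.LC

section general

variable {α : Type*} [MeasurableSpace α] {μ : Measure α}

lemma inner_toLp {f g : α → ℂ} (hf : MemLp f 2 μ) (hg : MemLp g 2 μ) :
    ⟪hf.toLp f, hg.toLp g⟫_ℂ = ∫ x, conj (f x) * g x ∂μ := by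
  rw [L2.inner_def]
  refine integral_congr_ae ?_
  filter_upwards [hf.coeFn_toLp, hg.coeFn_toLp] with x h1 h2
  rw [h1, h2]
  simp [mul_comm]

lemma norm_sq_toLp {f : α → ℂ} (hf : MemLp f 2 μ) :
    ‖hf.toLp f‖ ^ 2 = ∫ x, ‖f x‖ ^ 2 ∂μ := by
  have h1 := inner_self_eq_norm_sq_to_K (𝕜 := ℂ) (hf.toLp f)
  rw [inner_toLp] at h1
  have h2 : ∀ x, conj (f x) * f x = ((‖f x‖ ^ 2 : ℝ) : ℂ) := by
    intro x
    rw [← Complex.normSq_eq_conj_mul_self, Complex.normSq_eq_norm_sq]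
  simp only [h2] at h1
  rw [integral_complex_ofReal] at h1
  have h3 := congrArg Complex.re h1
  rw [Complex.ofReal_re] at h3
  rw [h3]
  norm_cast

end general

/-- `L²` of the plane. -/
abbrev L2P : Type := Lp ℂ 2 (volume : Measure (ℝ × ℝ))

/-- `L²` of the line. -/
abbrev L2R : Type := Lp ℂ 2 (volume : Measure ℝ)

/-- Triples of square integrable functions. -/
abbrev HH : Type := PiLp 2 (fun _ : Fin 3 => L2P)

/-- Test functions with `φ(-x, y) = e φ(x, y)`. -/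
def Par (e : ℂ) : Submodule ℂ (ℝ × ℝ → ℂ) where
  carrier := {φ | IsTest φ ∧ ∀ x y, φ (-x, y) = e * φ (x, y)}
  add_mem' := by
    rintro φ ψ ⟨h1, h2⟩ ⟨h3, h4⟩
    exact ⟨h1.add h3, fun x y => by simp only [Pi.add_apply, h2, h4, mul_add]⟩
  zero_mem' := ⟨IsTest.zero, fun x y => by simp⟩
  smul_mem' := by
    rintro c φ ⟨h1, h2⟩
    exact ⟨h1.smul c, fun x y => by simp only [Pi.smul_apply, smul_eq_mul, h2]; ring⟩

variable {e : ℂ}

lemma isT (φ : Par e) : IsTest (φ : ℝ × ℝ → ℂ) := φ.2.1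

lemma par (φ : Par e) (x y : ℝ) : (φ : ℝ × ℝ → ℂ) (-x, y) = e * (φ : ℝ × ℝ → ℂ) (x, y) :=
  φ.2.2 x y

namespace IsTest

variable {φ ψ : ℝ × ℝ → ℂ}

lemma memLp (h : IsTest φ) : MemLp φ 2 (volume : Measure (ℝ × ℝ)) :=
  h.continuous.memLp_of_hasCompactSupport h.2

lemma memLp_dx (h : IsTest φ) : MemLp (dx φ) 2 (volume : Measure (ℝ × ℝ)) :=
  h.continuous_dx.memLp_of_hasCompactSupport h.hcs_dx

lemma memLp_dy (h : IsTest φ) : MemLp (dy φ) 2 (volume : Measure (ℝ × ℝ)) :=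
  h.continuous_dy.memLp_of_hasCompactSupport h.hcs_dy

end IsTest

/-- The triple `(φ, ∂₁φ, ∂₂φ)`. -/
noncomputable def jj {φ : ℝ × ℝ → ℂ} (h : IsTest φ) : HH :=
  WithLp.toLp 2 ![h.memLp.toLp φ, h.memLp_dx.toLp (dx φ), h.memLp_dy.toLp (dy φ)]

lemma jj_add {φ ψ : ℝ × ℝ → ℂ} (h : IsTest φ) (h' : IsTest ψ) :
    jj (h.add h') = jj h + jj h' := by
  rw [jj, jj, jj, ← WithLp.toLp_add]
  congr 1
  have e1 : dx (φ + ψ) = dx φ + dx ψ := funext (dx_add h h')
  have e2 : dy (φ + ψ) = dy φ + dy ψ := funext (dy_add h h')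
  ext i : 1
  fin_cases i
  · exact MemLp.toLp_add h.memLp h'.memLp
  · simp only [Fin.mk_one, Matrix.cons_val_one, Matrix.cons_val_zero, Pi.add_apply]
    rw [← MemLp.toLp_add h.memLp_dx h'.memLp_dx]
    exact MemLp.toLp_congr _ _ (Eventually.of_forall fun z => congrFun e1 z)
  · simp only [Fin.reduceFinMk, Matrix.cons_val, Pi.add_apply]
    rw [← MemLp.toLp_add h.memLp_dy h'.memLp_dy]
    exact MemLp.toLp_congr _ _ (Eventually.of_forall fun z => congrFun e2 z)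

lemma jj_smul {φ : ℝ × ℝ → ℂ} (c : ℂ) (h : IsTest φ) :
    jj (h.smul c) = c • jj h := by
  rw [jj, jj, ← WithLp.toLp_smul]
  congr 1
  have e1 : dx (c • φ) = c • dx φ := funext (dx_smul h c)
  have e2 : dy (c • φ) = c • dy φ := funext (dy_smul h c)
  ext i : 1
  fin_cases i
  · exact MemLp.toLp_const_smul c h.memLp
  · simp only [Fin.mk_one, Matrix.cons_val_one, Matrix.cons_val_zero, Pi.smul_apply]
    rw [← MemLp.toLp_const_smul c h.memLp_dx]
    exact MemLp.toLp_congr _ _ (Eventually.of_forall fun z => congrFun e1 z)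
  · simp only [Fin.reduceFinMk, Matrix.cons_val, Pi.smul_apply]
    rw [← MemLp.toLp_const_smul c h.memLp_dy]
    exact MemLp.toLp_congr _ _ (Eventually.of_forall fun z => congrFun e2 z)

lemma inner_jj {φ ψ : ℝ × ℝ → ℂ} (h : IsTest φ) (h' : IsTest ψ) :
    ⟪jj h, jj h'⟫_ℂ = (∫ z, conj (φ z) * ψ z) + (∫ z, conj (dx φ z) * dx ψ z)
      + ∫ z, conj (dy φ z) * dy ψ z := by
  rw [PiLp.inner_apply, Fin.sum_univ_three]
  simp only [jj, Matrix.cons_val_zero, Matrix.cons_val_one, Matrix.cons_val]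
  rw [inner_toLp, inner_toLp, inner_toLp]

lemma norm_sq_jj {φ : ℝ × ℝ → ℂ} (h : IsTest φ) : ‖jj h‖ ^ 2 = totE φ := by
  rw [PiLp.norm_sq_eq_of_L2, Fin.sum_univ_three]
  simp only [jj, Matrix.cons_val_zero, Matrix.cons_val_one, Matrix.cons_val]
  rw [norm_sq_toLp, norm_sq_toLp, norm_sq_toLp, h.totE_eq,
    integral_add h.integrable_dx_sq h.integrable_dy_sq, add_assoc]

/-- The embedding of parity test functions. -/
noncomputable def jmap (e : ℂ) : Par e →ₗ[ℂ] HH where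
  toFun φ := jj (isT φ)
  map_add' φ ψ := jj_add (isT φ) (isT ψ)
  map_smul' c φ := jj_smul c (isT φ)

/-- `H¹` functions of parity `e`. -/
noncomputable def HE (e : ℂ) : Submodule ℂ HH := (LinearMap.range (jmap e)).topologicalClosure

instance (e : ℂ) : CompleteSpace (HE e) :=
  (LinearMap.range (jmap e)).isClosed_topologicalClosure.completeSpace_coe

/-- The embedding of parity test functions in `H¹`. -/
noncomputable def jE (e : ℂ) : Par e →ₗ[ℂ] HE e :=
  (jmap e).codRestrict (HE e) fun φ =>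
    (LinearMap.range (jmap e)).le_topologicalClosure (LinearMap.mem_range_self _ φ)

lemma jE_coe (φ : Par e) : ((jE e φ : HE e) : HH) = jj (isT φ) := rfl

lemma image_range_jE (e : ℂ) :
    ((Subtype.val : HE e → HH) '' range (jE e)) = (LinearMap.range (jmap e) : Set HH) := by
  ext z
  constructor
  · rintro ⟨_, ⟨φ, rfl⟩, rfl⟩
    exact ⟨φ, rfl⟩
  · rintro ⟨φ, rfl⟩
    exact ⟨jE e φ, ⟨φ, rfl⟩, rfl⟩

lemma denseRange_jE (e : ℂ) : DenseRange (jE e) := by
  intro v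
  have hv : (v : HH) ∈ closure (LinearMap.range (jmap e) : Set HH) := v.2
  rw [← image_range_jE] at hv
  exact closure_subtype.mpr hv

lemma norm_sq_jE (φ : Par e) : ‖jE e φ‖ ^ 2 = totE (φ : ℝ × ℝ → ℂ) := norm_sq_jj (isT φ)

lemma inner_jE (φ ψ : Par e) : ⟪jE e φ, jE e ψ⟫_ℂ = ⟪jj (isT φ), jj (isT ψ)⟫_ℂ := rfl

end Pool.Agent.Helper98.LC
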