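import Pool.Agent.Helper98.LC.Trace

/-! Reflection, orthogonality of even and odd functions, integration by parts. -/

open MeasureTheory Set Filter Topology
open scoped ContDiff InnerProductSpace ComplexConjugate

namespace Pool.Agent.Helper98.LC

/-- Reflection in the vertical axis. -/
def refl (z : ℝ × ℝ) : ℝ × ℝ := (-z.1, z.2)

/-- Reflection as a continuous linear equivalence. -/
noncomputable def reflL : (ℝ × ℝ) ≃L[ℝ] (ℝ × ℝ) :=
  (ContinuousLinearEquiv.neg ℝ (M := ℝ)).prodCongr (ContinuousLinearEquiv.refl ℝ ℝ)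

lemma reflL_apply (z : ℝ × ℝ) : reflL z = refl z := by
  simp [reflL, refl]

lemma refl_refl (z : ℝ × ℝ) : refl (refl z) = z := by simp [refl]

lemma mp_refl : MeasurePreserving refl (volume : Measure (ℝ × ℝ)) volume := by
  rw [Measure.volume_eq_prod]
  exact (Measure.measurePreserving_neg (volume : Measure ℝ)).prod (MeasurePreserving.id volume)

lemma me_refl : MeasurableEmbedding refl := by
  have : refl = reflL := funext fun z => (reflL_apply z).symm
  rw [this]
  exact reflL.toHomeomorph.measurableEmbedding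

lemma integral_refl {E : Type*} [NormedAddCommGroup E] [NormedSpace ℝ E] (f : ℝ × ℝ → E) :
    ∫ z, f (refl z) = ∫ z, f z :=
  mp_refl.integral_comp me_refl f

lemma IsTest.comp_refl {φ : ℝ × ℝ → ℂ} (h : IsTest φ) : IsTest (fun z => φ (refl z)) := by
  have e : (fun z => φ (refl z)) = φ ∘ reflL := funext fun z => by simp [reflL_apply]
  rw [e]
  exact ⟨h.1.comp reflL.contDiff, h.2.comp_isClosedEmbedding reflL.toHomeomorph.isClosedEmbedding⟩

lemma dx_comp_refl (φ : ℝ × ℝ → ℂ) (z : ℝ × ℝ) :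
    dx (fun z => φ (refl z)) z = -dx φ (refl z) := by
  have e : (fun z => φ (refl z)) = φ ∘ reflL := funext fun z => by simp [reflL_apply]
  rw [dx, e, ContinuousLinearEquiv.comp_right_fderiv, dx]
  simp only [ContinuousLinearMap.comp_apply, ContinuousLinearEquiv.coe_coe, reflL_apply]
  have : refl (1, 0) = -(1, 0) := by simp [refl]
  rw [this, map_neg]

lemma dy_comp_refl (φ : ℝ × ℝ → ℂ) (z : ℝ × ℝ) :
    dy (fun z => φ (refl z)) z = dy φ (refl z) := by
  have e : (fun z => φ (refl z)) = φ ∘ reflL := funext fun z => by simp [reflL_apply]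
  rw [dy, e, ContinuousLinearEquiv.comp_right_fderiv, dy]
  simp only [ContinuousLinearMap.comp_apply, ContinuousLinearEquiv.coe_coe, reflL_apply]
  have : refl (0, 1) = (0, 1) := by simp [refl]
  rw [this]

lemma totE_comp_refl (φ : ℝ × ℝ → ℂ) : totE (fun z => φ (refl z)) = totE φ := by
  rw [totE, totE, ← integral_refl (en φ)]
  congr 1
  ext z
  simp only [en, dx_comp_refl, dy_comp_refl, norm_neg]

variable {e : ℂ}

lemma comp_refl_par (φ : Par e) : (fun z => (φ : ℝ × ℝ → ℂ) (refl z)) = e • (φ : ℝ × ℝ → ℂ) := by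
  ext z
  exact par φ z.1 z.2

lemma dx_par (φ : Par e) (z : ℝ × ℝ) : dx φ (refl z) = -(e * dx φ z) := by
  have h1 := dx_comp_refl (φ : ℝ × ℝ → ℂ) z
  rw [comp_refl_par, dx_smul (isT φ)] at h1
  rw [h1, neg_neg]

lemma dy_par (φ : Par e) (z : ℝ × ℝ) : dy φ (refl z) = e * dy φ z := by
  have h1 := dy_comp_refl (φ : ℝ × ℝ → ℂ) z
  rw [comp_refl_par, dy_smul (isT φ)] at h1
  exact h1.symm

lemma integral_eq_zero_of_refl {f : ℝ × ℝ → ℂ} (h : ∀ z, f (refl z) = -f z) : ∫ z, f z = 0 := by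
  have h1 := integral_refl f
  simp only [h, integral_neg] at h1
  have h2 : (2 : ℂ) * ∫ z, f z = 0 := by linear_combination -h1
  simpa using h2

/-- Even and odd test functions are orthogonal, component by component. -/
lemma orth_components {e e' : ℂ} (φ : Par e) (ψ : Par e') (he : conj e * e' = -1) :
    (∫ z, conj ((φ : ℝ × ℝ → ℂ) z) * (ψ : ℝ × ℝ → ℂ) z) = 0 ∧
    (∫ z, conj (dx φ z) * dx ψ z) = 0 ∧ (∫ z, conj (dy φ z) * dy ψ z) = 0 := by
  refine ⟨integral_eq_zero_of_refl fun z => ?_, integral_eq_zero_of_refl fun z => ?_,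
    integral_eq_zero_of_refl fun z => ?_⟩
  · have h1 : (φ : ℝ × ℝ → ℂ) (refl z) = e * (φ : ℝ × ℝ → ℂ) z := par φ z.1 z.2
    have h2 : (ψ : ℝ × ℝ → ℂ) (refl z) = e' * (ψ : ℝ × ℝ → ℂ) z := par ψ z.1 z.2
    rw [h1, h2, map_mul]
    linear_combination (conj ((φ : ℝ × ℝ → ℂ) z) * (ψ : ℝ × ℝ → ℂ) z) * he
  · rw [dx_par φ, dx_par ψ, map_neg, map_mul]
    linear_combination (conj (dx φ z) * dx ψ z) * he
  · rw [dy_par φ, dy_par ψ, map_mul]
    linear_combination (conj (dy φ z) * dy ψ z) * he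

lemma orth_trace (P : Prof) {e e' : ℂ} (φ : Par e) (ψ : Par e') (he : conj e * e' = -1) :
    ⟪tt P (isT φ), tt P (isT ψ)⟫_ℂ = 0 := by
  rw [inner_tt]
  set f : ℝ → ℂ := fun s => conj ((φ : ℝ × ℝ → ℂ) (P.γ s)) * (ψ : ℝ × ℝ → ℂ) (P.γ s) with hf
  have h1 : ∀ s, f (-s) = -f s := by
    intro s
    simp only [hf]
    rw [P.γ_neg, par φ, par ψ, map_mul]
    linear_combination (conj ((φ : ℝ × ℝ → ℂ) (P.γ s)) * (ψ : ℝ × ℝ → ℂ) (P.γ s)) * he
  have h2 := integral_neg_eq_self f (volume : Measure ℝ)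
  simp only [h1, integral_neg] at h2
  have h3 : (2 : ℂ) * ∫ s, f s = 0 := by linear_combination -h2
  simpa using h3

/-- Parity parts of a test function. -/
noncomputable def part {φ : ℝ × ℝ → ℂ} (h : IsTest φ) (e : ℂ) (he : e * e = 1) : Par e :=
  ⟨(1 / 2 : ℂ) • (φ + e • fun z => φ (refl z)), (h.add (h.comp_refl.smul e)).smul _, by
    intro x y
    have h1 : refl (-x, y) = (x, y) := by simp [refl]
    have h2 : refl (x, y) = (-x, y) := rfl
    simp only [Pi.smul_apply, Pi.add_apply, h1, h2, smul_eq_mul]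
    linear_combination (-(1 / 2) * φ (-x, y)) * he⟩

lemma part_add {φ : ℝ × ℝ → ℂ} (h : IsTest φ) {e e' : ℂ} (he : e * e = 1)
    (he' : e' * e' = 1) (hs : e + e' = 0) :
    φ = (part h e he : ℝ × ℝ → ℂ) + (part h e' he' : ℝ × ℝ → ℂ) := by
  ext z
  simp only [part, Pi.smul_apply, Pi.add_apply, smul_eq_mul]
  linear_combination (-(1 / 2) * φ (refl z)) * hs

/-! ### Components -/

/-- The `i`-th component of a triple. -/
noncomputable def comp (e : ℂ) (i : Fin 3) : HE e →L[ℂ] L2P :=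
  (PiLp.proj 2 (fun _ : Fin 3 => L2P) i : HH →L[ℂ] L2P).comp (HE e).subtypeL

lemma comp_apply (v : HE e) (i : Fin 3) : comp e i v = (v : HH) i := rfl

lemma comp_zero_jE (φ : Par e) : comp e 0 (jE e φ) = (isT φ).memLp.toLp _ := rfl

lemma comp_one_jE (φ : Par e) : comp e 1 (jE e φ) = (isT φ).memLp_dx.toLp _ := rfl

lemma comp_two_jE (φ : Par e) : comp e 2 (jE e φ) = (isT φ).memLp_dy.toLp _ := rfl

lemma norm_sq_HE (v : HE e) : ‖v‖ ^ 2 = ‖comp e 0 v‖ ^ 2 + ‖comp e 1 v‖ ^ 2 + ‖comp e 2 v‖ ^ 2 := by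
  have : ‖v‖ ^ 2 = ‖(v : HH)‖ ^ 2 := rfl
  rw [this, PiLp.norm_sq_eq_of_L2, Fin.sum_univ_three]
  rfl

/-! ### Integration by parts and closability -/

lemma IsTest.conj' {φ : ℝ × ℝ → ℂ} (h : IsTest φ) : IsTest (fun z => conj (φ z)) :=
  ⟨Complex.conjCLE.contDiff.comp h.1, h.2.comp_left (g := fun z => conj z) (by simp)⟩

lemma fderiv_conj {φ : ℝ × ℝ → ℂ} (h : IsTest φ) (z v : ℝ × ℝ) :
    fderiv ℝ (fun z => conj (φ z)) z v = conj (fderiv ℝ φ z v) := by
  have h1 : HasFDerivAt (fun z => conj (φ z)) ((Complex.conjCLE : ℂ →L[ℝ] ℂ).comp (fderiv ℝ φ z)) z :=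
    Complex.conjCLE.hasFDerivAt.comp z (h.differentiable z).hasFDerivAt
  rw [h1.fderiv]; rfl

lemma ibp {φ ψ : ℝ × ℝ → ℂ} (h : IsTest φ) (h' : IsTest ψ) (v : ℝ × ℝ) :
    ∫ z, conj (φ z) * fderiv ℝ ψ z v = -∫ z, conj (fderiv ℝ φ z v) * ψ z := by
  have hc := h.conj'
  have e1 := integral_mul_fderiv_eq_neg_fderiv_mul_of_integrable
    (f := fun z => conj (φ z)) (g := ψ) (v := v) (μ := (volume : Measure (ℝ × ℝ)))
    (by
      have c1 : Continuous fun z => fderiv ℝ (fun z => conj (φ z)) z v :=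
        hc.continuous_fderiv.clm_apply continuous_const
      exact (c1.mul h'.continuous).integrable_of_hasCompactSupport (h'.2.mul_left))
    (by
      have c1 : Continuous fun z => fderiv ℝ ψ z v :=
        h'.continuous_fderiv.clm_apply continuous_const
      exact (hc.continuous.mul c1).integrable_of_hasCompactSupport (hc.2.mul_right))
    ((hc.continuous.mul h'.continuous).integrable_of_hasCompactSupport (hc.2.mul_right))
    (fun z _ => hc.differentiable z) (fun z _ => h'.differentiable z)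
  rw [e1]
  simp only [fderiv_conj h]

lemma weak_dx {χ : ℝ × ℝ → ℂ} (h : IsTest χ) (v : HE e) :
    ⟪h.memLp.toLp χ, comp e 1 v⟫_ℂ = -⟪h.memLp_dx.toLp (dx χ), comp e 0 v⟫_ℂ := by
  refine extend_eq (F := fun v : HE e => ⟪h.memLp.toLp χ, comp e 1 v⟫_ℂ)
    (G := fun v : HE e => -⟪h.memLp_dx.toLp (dx χ), comp e 0 v⟫_ℂ) ?_ ?_ (fun φ => ?_) v
  · exact continuous_const.inner (comp e 1).continuous
  · exact (continuous_const.inner (comp e 0).continuous).neg
  · simp only [comp_one_jE, comp_zero_jE, inner_toLp]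
    exact ibp h (isT φ) (1, 0)

lemma weak_dy {χ : ℝ × ℝ → ℂ} (h : IsTest χ) (v : HE e) :
    ⟪h.memLp.toLp χ, comp e 2 v⟫_ℂ = -⟪h.memLp_dy.toLp (dy χ), comp e 0 v⟫_ℂ := by
  refine extend_eq (F := fun v : HE e => ⟪h.memLp.toLp χ, comp e 2 v⟫_ℂ)
    (G := fun v : HE e => -⟪h.memLp_dy.toLp (dy χ), comp e 0 v⟫_ℂ) ?_ ?_ (fun φ => ?_) v
  · exact continuous_const.inner (comp e 2).continuous
  · exact (continuous_const.inner (comp e 0).continuous).neg
  · simp only [comp_two_jE, comp_zero_jE, inner_toLp]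
    exact ibp h (isT φ) (0, 1)

/-- A square integrable function orthogonal to all test functions vanishes. -/
lemma eq_zero_of_inner_test (f : L2P)
    (h : ∀ χ : ℝ × ℝ → ℂ, ∀ hχ : IsTest χ, ⟪hχ.memLp.toLp χ, f⟫_ℂ = 0) : f = 0 := by
  have hloc : LocallyIntegrable (f : ℝ × ℝ → ℂ) (volume : Measure (ℝ × ℝ)) :=
    (Lp.memLp f).locallyIntegrable (by norm_num)
  have h1 := ae_eq_zero_of_integral_contDiff_smul_eq_zero hloc (fun g hg hgs => by
    have hχ : IsTest (fun z => ((g z : ℝ) : ℂ)) :=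
      ⟨Complex.ofRealCLM.contDiff.comp hg, hgs.comp_left (g := fun t : ℝ => (t : ℂ)) (by simp)⟩
    have h2 := h _ hχ
    rw [L2.inner_def] at h2
    rw [← h2]
    refine integral_congr_ae ?_
    filter_upwards [hχ.memLp.coeFn_toLp] with z hz
    rw [hz]
    simp [mul_comm])
  exact (Lp.eq_zero_iff_ae_eq_zero).mpr h1

/-- Closability of the gradient. -/
lemma comp_zero_ne_zero {v : HE e} (hv : v ≠ 0) : comp e 0 v ≠ 0 := by
  intro h0
  have h1 : comp e 1 v = 0 := eq_zero_of_inner_test _ fun χ hχ => by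
    rw [weak_dx hχ, h0, inner_zero_right, neg_zero]
  have h2 : comp e 2 v = 0 := eq_zero_of_inner_test _ fun χ hχ => by
    rw [weak_dy hχ, h0, inner_zero_right, neg_zero]
  have h3 := norm_sq_HE v
  rw [h0, h1, h2] at h3
  simp at h3
  exact hv h3

end Pool.Agent.Helper98.LC
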