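import Pool.Agent.Helper98.LC.One
import Pool.Agent.Helper98.LC.Defs

/-! Test functions on the plane, their energy density and its row and column integrals. -/

open MeasureTheory Set Filter Topology
open scoped ContDiff InnerProductSpace ComplexConjugate

namespace Pool.Agent.Helper98.LC

namespace IsTest

variable {φ ψ : ℝ × ℝ → ℂ}

lemma continuous (h : IsTest φ) : Continuous φ := h.1.continuous

lemma continuous_fderiv (h : IsTest φ) : Continuous (fderiv ℝ φ) :=
  h.1.continuous_fderiv (by simp)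

lemma differentiable (h : IsTest φ) : Differentiable ℝ φ := h.1.differentiable (by simp)

lemma continuous_dx (h : IsTest φ) : Continuous (dx φ) :=
  h.continuous_fderiv.clm_apply continuous_const

lemma continuous_dy (h : IsTest φ) : Continuous (dy φ) :=
  h.continuous_fderiv.clm_apply continuous_const

lemma hcs_dx (h : IsTest φ) : HasCompactSupport (dx φ) := h.2.fderiv_apply ℝ (1, 0)

lemma hcs_dy (h : IsTest φ) : HasCompactSupport (dy φ) := h.2.fderiv_apply ℝ (0, 1)

lemma zero : IsTest 0 := ⟨contDiff_const, HasCompactSupport.zero⟩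

lemma add (h : IsTest φ) (h' : IsTest ψ) : IsTest (φ + ψ) := ⟨h.1.add h'.1, h.2.add h'.2⟩

lemma smul (c : ℂ) (h : IsTest φ) : IsTest (c • φ) :=
  ⟨contDiff_const.smul h.1, h.2.smul_left (f := fun _ => c)⟩

lemma hasDerivAt_row (h : IsTest φ) (x y : ℝ) :
    HasDerivAt (fun x => φ (x, y)) (dx φ (x, y)) x := by
  have h1 : HasDerivAt (fun x : ℝ => (x, y)) ((1 : ℝ), (0 : ℝ)) x :=
    (hasDerivAt_id x).prodMk (hasDerivAt_const x y)
  exact (h.differentiable (x, y)).hasFDerivAt.comp_hasDerivAt x h1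

lemma hasDerivAt_col (h : IsTest φ) (x y : ℝ) :
    HasDerivAt (fun y => φ (x, y)) (dy φ (x, y)) y := by
  have h1 : HasDerivAt (fun y : ℝ => (x, y)) ((0 : ℝ), (1 : ℝ)) y :=
    (hasDerivAt_const y x).prodMk (hasDerivAt_id y)
  exact (h.differentiable (x, y)).hasFDerivAt.comp_hasDerivAt y h1

lemma deriv_row (h : IsTest φ) (x y : ℝ) : deriv (fun x => φ (x, y)) x = dx φ (x, y) :=
  (h.hasDerivAt_row x y).deriv

lemma deriv_col (h : IsTest φ) (x y : ℝ) : deriv (fun y => φ (x, y)) y = dy φ (x, y) :=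
  (h.hasDerivAt_col x y).deriv

lemma contDiff_row (h : IsTest φ) (y : ℝ) : ContDiff ℝ 1 (fun x => φ (x, y)) :=
  (h.1.of_le (by simp)).comp (contDiff_id.prodMk contDiff_const)

lemma contDiff_col (h : IsTest φ) (x : ℝ) : ContDiff ℝ 1 (fun y => φ (x, y)) :=
  (h.1.of_le (by simp)).comp (contDiff_const.prodMk contDiff_id)

end IsTest

lemma hcs_row {E : Type*} [Zero E] {f : ℝ × ℝ → E} (h : HasCompactSupport f) (y : ℝ) :
    HasCompactSupport (fun x => f (x, y)) := by
  refine HasCompactSupport.intro (h.isCompact.image continuous_fst) fun x hx => ?_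
  refine image_eq_zero_of_notMem_tsupport fun hmem => hx ⟨(x, y), hmem, rfl⟩

lemma hcs_col {E : Type*} [Zero E] {f : ℝ × ℝ → E} (h : HasCompactSupport f) (x : ℝ) :
    HasCompactSupport (fun y => f (x, y)) := by
  refine HasCompactSupport.intro (h.isCompact.image continuous_snd) fun y hy => ?_
  refine image_eq_zero_of_notMem_tsupport fun hmem => hy ⟨(x, y), hmem, rfl⟩

/-- A compactly supported function on the plane vanishes outside a square. -/
lemma exists_bound {E : Type*} [Zero E] {f : ℝ × ℝ → E} (h : HasCompactSupport f) :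
    ∃ M : ℝ, 0 ≤ M ∧ ∀ x y : ℝ, (M < |x| ∨ M < |y|) → f (x, y) = 0 := by
  obtain ⟨M, hM⟩ := h.isCompact.isBounded.subset_closedBall (0 : ℝ × ℝ)
  refine ⟨max M 0, le_max_right _ _, fun x y hxy => ?_⟩
  refine image_eq_zero_of_notMem_tsupport fun hmem => ?_
  have := hM hmem
  rw [mem_closedBall_zero_iff, Prod.norm_def, max_le_iff] at this
  simp only [Real.norm_eq_abs] at this
  rcases hxy with h | h
  · exact absurd (this.1.trans (le_max_left M 0)) (not_le.mpr h)
  · exact absurd (this.2.trans (le_max_left M 0)) (not_le.mpr h)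

/-- Energy density. -/
noncomputable def en (φ : ℝ × ℝ → ℂ) (z : ℝ × ℝ) : ℝ := ‖φ z‖ ^ 2 + ‖dx φ z‖ ^ 2 + ‖dy φ z‖ ^ 2

/-- Row energy. -/
noncomputable def rowE (φ : ℝ × ℝ → ℂ) (y : ℝ) : ℝ := ∫ x, en φ (x, y)

/-- Column energy. -/
noncomputable def colE (φ : ℝ × ℝ → ℂ) (x : ℝ) : ℝ := ∫ y, en φ (x, y)

/-- Total energy, the square of the `H¹` norm. -/
noncomputable def totE (φ : ℝ × ℝ → ℂ) : ℝ := ∫ z, en φ z

lemma en_nonneg (φ : ℝ × ℝ → ℂ) (z : ℝ × ℝ) : 0 ≤ en φ z := by unfold en; positivity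

lemma rowE_nonneg (φ : ℝ × ℝ → ℂ) (y : ℝ) : 0 ≤ rowE φ y := integral_nonneg fun _ => en_nonneg _ _

lemma colE_nonneg (φ : ℝ × ℝ → ℂ) (x : ℝ) : 0 ≤ colE φ x := integral_nonneg fun _ => en_nonneg _ _

lemma totE_nonneg (φ : ℝ × ℝ → ℂ) : 0 ≤ totE φ := integral_nonneg fun _ => en_nonneg _ _

namespace IsTest

variable {φ ψ : ℝ × ℝ → ℂ}

lemma continuous_en (h : IsTest φ) : Continuous (en φ) :=
  ((h.continuous.norm.pow 2).add (h.continuous_dx.norm.pow 2)).add (h.continuous_dy.norm.pow 2)

lemma hcs_en (h : IsTest φ) : HasCompactSupport (en φ) :=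
  ((hasCompactSupport_norm_sq h.2).add (hasCompactSupport_norm_sq h.hcs_dx)).add
    (hasCompactSupport_norm_sq h.hcs_dy)

lemma integrable_en (h : IsTest φ) : Integrable (en φ) :=
  h.continuous_en.integrable_of_hasCompactSupport h.hcs_en

lemma integrable_en_row (h : IsTest φ) (y : ℝ) : Integrable (fun x => en φ (x, y)) :=
  (h.continuous_en.comp (by fun_prop : Continuous fun x : ℝ => (x, y))).integrable_of_hasCompactSupport
    (hcs_row h.hcs_en y)

lemma integrable_en_col (h : IsTest φ) (x : ℝ) : Integrable (fun y => en φ (x, y)) :=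
  (h.continuous_en.comp (by fun_prop : Continuous fun y : ℝ => (x, y))).integrable_of_hasCompactSupport
    (hcs_col h.hcs_en x)

lemma rowE_eq (h : IsTest φ) : ∃ M : ℝ, 0 ≤ M ∧
    (∀ y, rowE φ y = ∫ x in (-M)..M, en φ (x, y)) ∧ ∀ y, M < |y| → rowE φ y = 0 := by
  obtain ⟨M, hM0, hM⟩ := exists_bound h.hcs_en
  refine ⟨M, hM0, fun y => ?_, fun y hy => ?_⟩
  · rw [rowE, intervalIntegral.integral_of_le (by linarith), ← integral_Icc_eq_integral_Ioc,
      setIntegral_eq_integral_of_forall_compl_eq_zero]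
    intro x hx
    refine hM x y (Or.inl ?_)
    by_contra hcon
    exact hx (abs_le.mp (not_lt.mp hcon))
  · rw [rowE]
    have : (fun x => en φ (x, y)) = fun _ => 0 := by
      ext x; exact hM x y (Or.inr hy)
    rw [this]; simp

lemma colE_eq (h : IsTest φ) : ∃ M : ℝ, 0 ≤ M ∧
    (∀ x, colE φ x = ∫ y in (-M)..M, en φ (x, y)) ∧ ∀ x, M < |x| → colE φ x = 0 := by
  obtain ⟨M, hM0, hM⟩ := exists_bound h.hcs_en
  refine ⟨M, hM0, fun x => ?_, fun x hx => ?_⟩
  · rw [colE, intervalIntegral.integral_of_le (by linarith), ← integral_Icc_eq_integral_Ioc,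
      setIntegral_eq_integral_of_forall_compl_eq_zero]
    intro y hy
    refine hM x y (Or.inr ?_)
    by_contra hcon
    exact hy (abs_le.mp (not_lt.mp hcon))
  · rw [colE]
    have : (fun y => en φ (x, y)) = fun _ => 0 := by
      ext y; exact hM x y (Or.inl hx)
    rw [this]; simp

lemma continuous_rowE (h : IsTest φ) : Continuous (rowE φ) := by
  obtain ⟨M, -, hM, -⟩ := h.rowE_eq
  rw [funext hM]
  exact intervalIntegral.continuous_parametric_intervalIntegral_of_continuous'
    (f := fun y x => en φ (x, y)) (h.continuous_en.comp (continuous_snd.prodMk continuous_fst)) _ _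

lemma continuous_colE (h : IsTest φ) : Continuous (colE φ) := by
  obtain ⟨M, -, hM, -⟩ := h.colE_eq
  rw [funext hM]
  exact intervalIntegral.continuous_parametric_intervalIntegral_of_continuous'
    (f := fun x y => en φ (x, y)) (h.continuous_en.comp (continuous_fst.prodMk continuous_snd)) _ _

lemma integrable_colE (h : IsTest φ) : Integrable (colE φ) := by
  have := h.integrable_en
  rw [Measure.volume_eq_prod] at this
  exact this.integral_prod_left

lemma integrable_rowE (h : IsTest φ) : Integrable (rowE φ) := by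
  have := h.integrable_en
  rw [Measure.volume_eq_prod] at this
  exact this.integral_prod_right

lemma integral_colE (h : IsTest φ) : ∫ x, colE φ x = totE φ := by
  have := h.integrable_en
  rw [Measure.volume_eq_prod] at this
  rw [totE, Measure.volume_eq_prod, integral_prod _ this]
  rfl

lemma integral_rowE (h : IsTest φ) : ∫ y, rowE φ y = totE φ := by
  have := h.integrable_en
  rw [Measure.volume_eq_prod] at this
  rw [totE, Measure.volume_eq_prod, integral_prod_symm _ this]
  rfl

/-- Column estimate. -/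
lemma sq_le_colE (h : IsTest φ) (x y : ℝ) : ‖φ (x, y)‖ ^ 2 ≤ (1 / 2) * colE φ x := by
  refine (norm_sq_le_half (h.contDiff_col x) (hcs_col h.2 x) y).trans ?_
  refine mul_le_mul_of_nonneg_left ?_ (by norm_num)
  simp only [h.deriv_col]
  refine integral_mono ?_ (h.integrable_en_col x) fun y => ?_
  · exact (integrable_norm_sq (h.continuous_dy.comp (by fun_prop)) (hcs_col h.hcs_dy x)).add
      (integrable_norm_sq (h.continuous.comp (by fun_prop)) (hcs_col h.2 x))
  · simp only [en]
    have : 0 ≤ ‖dx φ (x, y)‖ ^ 2 := by positivity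
    linarith

/-- Row estimate. -/
lemma sq_le_rowE (h : IsTest φ) (x y : ℝ) : ‖φ (x, y)‖ ^ 2 ≤ (1 / 2) * rowE φ y := by
  refine (norm_sq_le_half (h.contDiff_row y) (hcs_row h.2 y) x).trans ?_
  refine mul_le_mul_of_nonneg_left ?_ (by norm_num)
  simp only [h.deriv_row]
  refine integral_mono ?_ (h.integrable_en_row y) fun x => ?_
  · exact (integrable_norm_sq (h.continuous_dx.comp (by fun_prop)) (hcs_row h.hcs_dx y)).add
      (integrable_norm_sq (h.continuous.comp (by fun_prop)) (hcs_row h.2 y))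
  · simp only [en]
    have : 0 ≤ ‖dy φ (x, y)‖ ^ 2 := by positivity
    linarith

/-- Difference in a row. -/
lemma row_diff_le (h : IsTest φ) (x x' y : ℝ) :
    ‖φ (x', y) - φ (x, y)‖ ^ 2 ≤ |x' - x| * rowE φ y := by
  refine (diff_sq_le_abs (h.contDiff_row y) (hcs_row h.2 y) x x').trans ?_
  refine mul_le_mul_of_nonneg_left ?_ (abs_nonneg _)
  simp only [h.deriv_row]
  refine integral_mono ?_ (h.integrable_en_row y) fun x => ?_
  · exact integrable_norm_sq (h.continuous_dx.comp (by fun_prop)) (hcs_row h.hcs_dx y)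
  · simp only [en]
    have : 0 ≤ ‖dy φ (x, y)‖ ^ 2 := by positivity
    have : 0 ≤ ‖φ (x, y)‖ ^ 2 := by positivity
    linarith

/-- Difference of squares in a column. -/
lemma col_sq_diff_le (h : IsTest φ) (x y y' : ℝ) :
    |‖φ (x, y')‖ ^ 2 - ‖φ (x, y)‖ ^ 2| ≤ 2 * Real.sqrt |y' - y| * colE φ x := by
  refine (abs_sq_sub_sq_le (h.contDiff_col x) (hcs_col h.2 x) y y').trans ?_
  refine mul_le_mul_of_nonneg_left ?_ (by positivity)
  simp only [h.deriv_col]
  refine integral_mono ?_ (h.integrable_en_col x) fun y => ?_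
  · exact (integrable_norm_sq (h.continuous_dy.comp (by fun_prop)) (hcs_col h.hcs_dy x)).add
      (integrable_norm_sq (h.continuous.comp (by fun_prop)) (hcs_col h.2 x))
  · simp only [en]
    have : 0 ≤ ‖dx φ (x, y)‖ ^ 2 := by positivity
    linarith

end IsTest

end Pool.Agent.Helper98.LC
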