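import Pool.Agent.Helper98.LC.Space
import Pool.Agent.Helper98.LC.Curve

/-! The trace on the curve, and its extension to `H¹`. -/

open MeasureTheory Set Filter Topology
open scoped ContDiff InnerProductSpace ComplexConjugate

namespace Pool.Agent.Helper98.LC

variable (P : Prof)

/-- The squared norm of the trace. -/
noncomputable def q (φ : ℝ × ℝ → ℂ) : ℝ := ∫ x, ‖φ (x, P.u x)‖ ^ 2 * P.w x

section

variable {φ ψ : ℝ × ℝ → ℂ}

lemma IsTest.continuous_graph (h : IsTest φ) : Continuous fun x => φ (x, P.u x) :=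
  h.continuous.comp (continuous_id.prodMk P.continuous_u)

lemma IsTest.hcs_graph (h : IsTest φ) : HasCompactSupport fun x => φ (x, P.u x) := by
  obtain ⟨M, -, hM⟩ := exists_bound h.2
  refine HasCompactSupport.intro (isCompact_Icc (a := -M) (b := M)) fun x hx => ?_
  refine hM x _ (Or.inl ?_)
  by_contra hcon
  exact hx (abs_le.mp (not_lt.mp hcon))

lemma IsTest.integrable_graph_sq (h : IsTest φ) : Integrable fun x => ‖φ (x, P.u x)‖ ^ 2 :=
  integrable_norm_sq (h.continuous_graph P) (h.hcs_graph P)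

lemma IsTest.integrable_q (h : IsTest φ) : Integrable fun x => ‖φ (x, P.u x)‖ ^ 2 * P.w x := by
  refine (h.integrable_graph_sq P).mul_bdd (c := 1 + P.L) P.meas_w.aestronglyMeasurable ?_
  refine Eventually.of_forall fun x => ?_
  rw [Real.norm_of_nonneg (P.w_pos x).le]; exact P.w_le' x

lemma q_nonneg (φ : ℝ × ℝ → ℂ) : 0 ≤ q P φ :=
  integral_nonneg fun x => mul_nonneg (by positivity) (P.w_pos x).le

lemma IsTest.continuous_curve (h : IsTest φ) : Continuous fun s => φ (P.γ s) :=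
  h.continuous.comp P.continuous_γ

lemma IsTest.hcs_curve (h : IsTest φ) : HasCompactSupport fun s => φ (P.γ s) := by
  obtain ⟨M, hM0, hM⟩ := exists_bound h.2
  refine HasCompactSupport.intro
    (isCompact_Icc (a := -((1 + P.L) * M)) (b := (1 + P.L) * M)) fun s hs => ?_
  refine hM _ _ (Or.inl ?_)
  by_contra hcon
  refine hs (abs_le.mp ?_)
  have h1 := P.X_bounds s 0
  have h2 : P.X 0 = 0 := by
    have := P.X_S 0
    rwa [P.S_zero] at this
  rw [h2, sub_zero, sub_zero] at h1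
  refine h1.trans ?_
  have := P.L_nonneg
  exact mul_le_mul_of_nonneg_left (not_lt.mp hcon) (by linarith)

lemma IsTest.memLp_curve (h : IsTest φ) : MemLp (fun s => φ (P.γ s)) 2 (volume : Measure ℝ) :=
  (h.continuous_curve P).memLp_of_hasCompactSupport (h.hcs_curve P)

/-- The trace of a test function. -/
noncomputable def tt (h : IsTest φ) : L2R := (h.memLp_curve P).toLp _

lemma norm_sq_tt (h : IsTest φ) : ‖tt P h‖ ^ 2 = q P φ := by
  rw [tt, norm_sq_toLp]
  have := P.integral_comp_X (fun x => ‖φ (x, P.u x)‖ ^ 2)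
  rw [q]
  simp only [smul_eq_mul] at this
  rw [show (fun x => ‖φ (x, P.u x)‖ ^ 2 * P.w x) = fun x => P.w x * ‖φ (x, P.u x)‖ ^ 2 from
    funext fun x => mul_comm _ _, ← this]
  rfl

lemma inner_tt (h : IsTest φ) (h' : IsTest ψ) :
    ⟪tt P h, tt P h'⟫_ℂ = ∫ s, conj (φ (P.γ s)) * ψ (P.γ s) := inner_toLp _ _

end

/-- The trace as a linear map. -/
noncomputable def tmap (e : ℂ) : Par e →ₗ[ℂ] L2R where
  toFun φ := tt P (isT φ)
  map_add' φ ψ := MemLp.toLp_add ((isT φ).memLp_curve P) ((isT ψ).memLp_curve P)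
  map_smul' c φ := MemLp.toLp_const_smul c ((isT φ).memLp_curve P)

/-- The trace on `H¹`. -/
noncomputable def τ (e : ℂ) : HE e →L[ℂ] L2R := (tmap P e).extendOfNorm (jE e)

/-- A bound on test functions makes `τ` an extension of the trace. -/
lemma τ_apply {e : ℂ} {C : ℝ} (hC : 0 ≤ C) (h : ∀ φ : Par e, q P φ ≤ C * totE φ) (φ : Par e) :
    τ P e (jE e φ) = tt P (isT φ) := by
  refine LinearMap.extendOfNorm_eq (denseRange_jE e) ⟨Real.sqrt C, fun ψ => ?_⟩ φ
  have h1 : ‖tmap P e ψ‖ ^ 2 ≤ C * ‖jE e ψ‖ ^ 2 := by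
    rw [norm_sq_jE]
    refine le_trans (le_of_eq ?_) (h ψ)
    exact norm_sq_tt P (isT ψ)
  have h2 : ‖tmap P e ψ‖ ≤ Real.sqrt (C * ‖jE e ψ‖ ^ 2) := Real.le_sqrt_of_sq_le h1
  rwa [Real.sqrt_mul hC, Real.sqrt_sq (norm_nonneg _)] at h2

/-- Extension of inequalities by density. -/
lemma extend_ineq {e : ℂ} {F G : HE e → ℝ} (hF : Continuous F) (hG : Continuous G)
    (h : ∀ φ : Par e, F (jE e φ) ≤ G (jE e φ)) (v : HE e) : F v ≤ G v :=
  (denseRange_jE e).induction_on v (isClosed_le hF hG) h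

lemma extend_eq {e : ℂ} {Y : Type*} [TopologicalSpace Y] [T2Space Y] {F G : HE e → Y}
    (hF : Continuous F) (hG : Continuous G)
    (h : ∀ φ : Par e, F (jE e φ) = G (jE e φ)) (v : HE e) : F v = G v :=
  (denseRange_jE e).induction_on v (isClosed_eq hF hG) h

end Pool.Agent.Helper98.LC
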